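import Pool.Agent.Lib.MP_391708_nt.SG.Spec

/-!
# Module ALP: the matrix of `n + √(-a)` changes the sign
-/

set_option autoImplicit false

namespace Pool.Agent.Lib.MP391708.SG

open Finset Filter Topology
open Pool.Agent.Lib.MP391708.Eqd (V cross)
open scoped Classical

namespace ALPM

lemma lam_mul [MA.Sg] {x y : ℤ} (hx : x ≠ 0) (hy : y ≠ 0) : lam (x * y) = lam x * lam y := by
  unfold lam
  rw [Int.natAbs_mul, MA.gs_mul (by simpa using hx) (by simpa using hy)]

lemma lam_sq [MA.Sg] (x : ℤ) : lam x * lam x = 1 := MA.gs_mul_self _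

/-- multiplication by `n + √(-a)` -/
def mv (F : Fm) (n : ℤ) (v : V) : V :=
  (n * v.1 - F.B * v.1 - F.C * v.2, n * v.2 + F.A * v.1 + F.B * v.2)

lemma q_mv (F : Fm) (n : ℤ) (v : V) : F.q (mv F n v) = (n ^ 2 + F.a) * F.q v := by
  simp only [mv, Fm.q, Fm.a]; ring

lemma adj1 (F : Fm) (n : ℤ) (v : V) :
    (n + F.B) * (mv F n v).1 + F.C * (mv F n v).2 = (n ^ 2 + F.a) * v.1 := by
  simp only [mv, Fm.a]; ring

lemma adj2 (F : Fm) (n : ℤ) (v : V) :
    (n - F.B) * (mv F n v).2 - F.A * (mv F n v).1 = (n ^ 2 + F.a) * v.2 := by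
  simp only [mv, Fm.a]; ring

/-- the content -/
def g (F : Fm) (n : ℤ) (v : V) : ℕ := Int.gcd (mv F n v).1 (mv F n v).2

/-- the primitive vector -/
def w (F : Fm) (n : ℤ) (v : V) : V := ((mv F n v).1 / (g F n v : ℤ), (mv F n v).2 / (g F n v : ℤ))

variable {F : Fm} (hF : F.Pd) (n : ℤ)

include hF in
lemma n0_pos : 0 < n ^ 2 + F.a := by
  have := hF.2
  positivity

lemma g_dvd1 (v : V) : (g F n v : ℤ) ∣ (mv F n v).1 := Int.gcd_dvd_left _ _
lemma g_dvd2 (v : V) : (g F n v : ℤ) ∣ (mv F n v).2 := Int.gcd_dvd_right _ _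

lemma g_dvd {v : V} (hv : prim v) : (g F n v : ℤ) ∣ n ^ 2 + F.a := by
  obtain ⟨a, b, hab⟩ := hv
  have h1 : (g F n v : ℤ) ∣ (n ^ 2 + F.a) * v.1 := by
    rw [← adj1]
    exact dvd_add (Dvd.dvd.mul_left (g_dvd1 n v) _) (Dvd.dvd.mul_left (g_dvd2 n v) _)
  have h2 : (g F n v : ℤ) ∣ (n ^ 2 + F.a) * v.2 := by
    rw [← adj2]
    exact dvd_sub (Dvd.dvd.mul_left (g_dvd2 n v) _) (Dvd.dvd.mul_left (g_dvd1 n v) _)
  have h3 : n ^ 2 + F.a = a * ((n ^ 2 + F.a) * v.1) + b * ((n ^ 2 + F.a) * v.2) := by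
    linear_combination (-(n ^ 2 + F.a)) * hab
  rw [h3]
  exact dvd_add (Dvd.dvd.mul_left h1 _) (Dvd.dvd.mul_left h2 _)

include hF in
lemma g_pos {v : V} (hv : prim v) : 0 < g F n v := by
  rw [Nat.pos_iff_ne_zero]
  intro h0
  have h1 := g_dvd (F := F) n hv
  rw [h0, Nat.cast_zero, zero_dvd_iff] at h1
  exact absurd h1 (n0_pos hF n).ne'

include hF in
lemma g_le {v : V} (hv : prim v) : (g F n v : ℤ) ≤ n ^ 2 + F.a :=
  Int.le_of_dvd (n0_pos hF n) (g_dvd n hv)

lemma mv1 (v : V) : (mv F n v).1 = (g F n v : ℤ) * (w F n v).1 := by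
  simp only [w]; rw [Int.mul_ediv_cancel' (g_dvd1 n v)]

lemma mv2 (v : V) : (mv F n v).2 = (g F n v : ℤ) * (w F n v).2 := by
  simp only [w]; rw [Int.mul_ediv_cancel' (g_dvd2 n v)]

include hF in
lemma w_prim {v : V} (hv : prim v) : prim (w F n v) := by
  have h := g_pos hF n hv
  unfold prim
  rw [Int.isCoprime_iff_gcd_eq_one]
  simp only [w]
  exact Int.gcd_div_gcd_div_gcd h

lemma q_w (v : V) : (n ^ 2 + F.a) * F.q v = (g F n v : ℤ) ^ 2 * F.q (w F n v) := by
  rw [← q_mv]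
  have e : ∀ (k : ℤ) (u : V), F.q (k * u.1, k * u.2) = k ^ 2 * F.q u := by
    intro k u; simp only [Fm.q]; ring
  rw [← e, ← mv1, ← mv2]

include hF in
/-- `v` is determined by `w` and the content -/
lemma w_inj {v v' : V} (h1 : w F n v = w F n v') (h2 : g F n v = g F n v') : v = v' := by
  have e1 : (mv F n v).1 = (mv F n v').1 := by rw [mv1, mv1, h1, h2]
  have e2 : (mv F n v).2 = (mv F n v').2 := by rw [mv2, mv2, h1, h2]
  have h0 := (n0_pos hF n).ne'
  ext
  · apply mul_left_cancel₀ h0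
    rw [← adj1, ← adj1, e1, e2]
  · apply mul_left_cancel₀ h0
    rw [← adj2, ← adj2, e1, e2]

end ALPM

open ALPM

/-- ALP -/
theorem specALP [MA.Sg] (hBAS : SpecBAS) (hPRS : SpecPRS) : SpecALP := by
  intro F hF n hn
  obtain ⟨_, _, hqpos, _, hann, _, _, _, _, hf, _, _⟩ := hBAS F hF
  obtain ⟨⟨c, hc, hlow⟩, _, _⟩ := hPRS F hF
  have hN := n0_pos hF n
  obtain ⟨m, hm⟩ := Int.eq_ofNat_of_zero_le hN.le
  have hm' : n ^ 2 + F.a = (m : ℤ) := hm
  have hm0 : 0 < m := by
    have : (0 : ℤ) < m := by rw [← hm']; exact hN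
    exact_mod_cast this
  have hmr : (0 : ℝ) < m := by exact_mod_cast hm0
  have hm1 : (1 : ℝ) ≤ m := by exact_mod_cast hm0
  refine ⟨2 * m ^ 2, c / 2, by positivity, by positivity, ?_⟩
  have htend : Tendsto (fun X : ℕ => m * X) atTop atTop := by
    apply tendsto_atTop_mono (f := fun X : ℕ => X) _ tendsto_id
    intro X
    exact Nat.le_mul_of_pos_left X hm0
  filter_upwards [htend.eventually hlow] with X hX e he
  set Y := ann F (m * X) (2 * (m * X)) with hY
  set G := (ann F X (2 * m ^ 2 * X)).filter (fun v => F.f v ≠ e) with hG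
  -- the prime facts
  have hvw : ∀ v ∈ Y, F.f (w F n v) = - F.f v ∧ prim (w F n v) ∧ (X : ℤ) < F.q (w F n v) ∧
      F.q (w F n v) ≤ ((2 * m ^ 2 * X : ℕ) : ℤ) := by
    intro v hv
    rw [hY, hann] at hv
    obtain ⟨p, a1, a2⟩ := hv
    have hg := g_pos hF n p
    have hgz : (0 : ℤ) < (g F n v : ℤ) := by exact_mod_cast hg
    have hgle := g_le hF n p
    have hqw := q_w (F := F) n v
    rw [hm'] at hqw hgle
    have hwp := w_prim hF n p
    have hw0 : w F n v ≠ 0 := by
      intro h0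
      rw [h0] at hwp
      obtain ⟨x, y, hxy⟩ := hwp
      simp at hxy
    have hv0 : v ≠ 0 := by
      intro h0
      rw [h0] at p
      obtain ⟨x, y, hxy⟩ := p
      simp at hxy
    have hqw0 := hqpos _ hw0
    have hqv0 := hqpos _ hv0
    have hmz : (0 : ℤ) < m := by exact_mod_cast hm0
    refine ⟨?_, hwp, ?_, ?_⟩
    · have h1 : lam ((m : ℤ) * F.q v) = lam ((g F n v : ℤ) ^ 2 * F.q (w F n v)) := by rw [hqw]
      rw [lam_mul hmz.ne' hqv0.ne', lam_mul (pow_pos hgz 2).ne' hqw0.ne', pow_two,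
        lam_mul hgz.ne' hgz.ne', lam_sq, one_mul] at h1
      rw [← hm', hn] at h1
      simp only [Fm.f]
      rw [← h1]; ring
    · have h1 : (g F n v : ℤ) ^ 2 ≤ (m : ℤ) ^ 2 := pow_le_pow_left₀ hgz.le hgle 2
      have h2 : (m : ℤ) * F.q v ≤ (m : ℤ) ^ 2 * F.q (w F n v) := by
        rw [hqw]; exact mul_le_mul_of_nonneg_right h1 hqw0.le
      have h3 : (m : ℤ) * ((m : ℤ) * X) < (m : ℤ) * F.q v := by
        apply mul_lt_mul_of_pos_left _ hmz
        push_cast at a1
        exact a1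
      have h4 : (m : ℤ) ^ 2 * X < (m : ℤ) ^ 2 * F.q (w F n v) := by
        calc (m : ℤ) ^ 2 * X = (m : ℤ) * ((m : ℤ) * X) := by ring
          _ < _ := lt_of_lt_of_le h3 h2
      exact lt_of_mul_lt_mul_left h4 (by positivity)
    · have h1 : 1 ≤ (g F n v : ℤ) ^ 2 := by
        have : (1 : ℤ) ≤ g F n v := hgz
        nlinarith
      have h2 : F.q (w F n v) ≤ (g F n v : ℤ) ^ 2 * F.q (w F n v) := by nlinarith
      rw [← hqw] at h2
      refine h2.trans ?_
      push_cast at a2 ⊢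
      calc (m : ℤ) * F.q v ≤ m * (2 * (m * X)) := mul_le_mul_of_nonneg_left a2 hmz.le
        _ = 2 * (m : ℤ) ^ 2 * X := by ring
  -- first part: the v with f v ≠ e
  have hA : (Y.filter (fun v => F.f v ≠ e)).card ≤ G.card := by
    apply Finset.card_le_card
    intro v hv
    rw [Finset.mem_filter] at hv
    obtain ⟨hv1, hv2⟩ := hv
    rw [hG, Finset.mem_filter]
    refine ⟨?_, hv2⟩
    rw [hY, hann] at hv1
    rw [hann]
    obtain ⟨p, a1, a2⟩ := hv1
    refine ⟨p, ?_, ?_⟩
    · refine lt_of_le_of_lt ?_ a1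
      exact_mod_cast Nat.le_mul_of_pos_left X hm0
    · refine a2.trans ?_
      have : 2 * (m * X) ≤ 2 * m ^ 2 * X := by
        have : m ≤ m ^ 2 := by nlinarith
        nlinarith
      exact_mod_cast this
  -- second part: the v with f v = e
  have hB : (Y.filter (fun v => F.f v = e)).card ≤ m * G.card := by
    have h1 : (Y.filter (fun v => F.f v = e)).card ≤
        m * ((Y.filter (fun v => F.f v = e)).image (w F n)).card := by
      refine Finset.card_le_mul_card_image _ _ ?_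
      intro u _
      have h2 : ({x ∈ Y.filter (fun v => F.f v = e) | w F n x = u}).card ≤
          (Finset.Icc 1 m).card := by
        refine Finset.card_le_card_of_injOn (fun x => g F n x) ?_ ?_
        · intro x hx
          simp only [Finset.coe_filter, Set.mem_ofPred_eq, Finset.mem_filter] at hx
          obtain ⟨⟨hx1, _⟩, _⟩ := hx
          rw [hY, hann] at hx1
          simp only [Finset.coe_Icc, Set.mem_Icc]
          refine ⟨g_pos hF n hx1.1, ?_⟩
          have := g_le hF n hx1.1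
          rw [hm'] at this
          exact_mod_cast this
        · intro x hx x' hx' hxx
          simp only [Finset.coe_filter, Set.mem_ofPred_eq, Finset.mem_filter] at hx hx'
          exact w_inj hF n (hx.2.trans hx'.2.symm) hxx
      simpa using h2
    refine h1.trans (Nat.mul_le_mul_left m (Finset.card_le_card ?_))
    intro u hu
    rw [Finset.mem_image] at hu
    obtain ⟨v, hv, rfl⟩ := hu
    rw [Finset.mem_filter] at hv
    obtain ⟨k1, k2, k3, k4⟩ := hvw v hv.1
    rw [hG, Finset.mem_filter, hann]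
    refine ⟨⟨k2, k3, k4⟩, ?_⟩
    rw [k1, hv.2]
    rcases he with h | h <;> rw [h] <;> norm_num
  have hsum : (Y.filter (fun v => F.f v ≠ e)).card + (Y.filter (fun v => F.f v = e)).card =
      Y.card := by
    rw [add_comm]
    exact Finset.card_filter_add_card_filter_not (s := Y) (fun v => F.f v = e)
  have hAr : ((Y.filter (fun v => F.f v ≠ e)).card : ℝ) ≤ G.card := by exact_mod_cast hA
  have hBr : ((Y.filter (fun v => F.f v = e)).card : ℝ) ≤ m * G.card := by exact_mod_cast hB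
  have hsr : ((Y.filter (fun v => F.f v ≠ e)).card : ℝ) + (Y.filter (fun v => F.f v = e)).card =
      Y.card := by exact_mod_cast hsum
  have hYl : c * ((m * X : ℕ) : ℝ) ≤ Y.card := hX
  push_cast at hYl
  have hG0 : (0 : ℝ) ≤ G.card := Nat.cast_nonneg _
  have h5 : c * (m * X) ≤ 2 * (m * (G.card : ℝ)) := by
    have : (G.card : ℝ) ≤ m * G.card := by nlinarith
    linarith
  have h6 : (m : ℝ) * (c / 2 * X) ≤ m * G.card := by
    have e1 : (m : ℝ) * (c / 2 * X) = (c * (m * X)) / 2 := by ring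
    rw [e1]; linarith
  exact le_of_mul_le_mul_left h6 hmr

end Pool.Agent.Lib.MP391708.SG
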