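import Pool.Agent.Lib.MP_391708_nt.SG.Spec

/-!
# BAS: the ring identities, membership in the boxes, directions, signs
-/

set_option autoImplicit false

namespace Pool.Agent.Lib.MP391708.SG

open Finset Filter Topology
open Pool.Agent.Lib.MP391708.Eqd (V cross)
open scoped Classical

noncomputable section

namespace Fm

variable (F : Fm)

lemma q_mul (v w : V) : F.q v * F.q w = F.b v w ^ 2 + F.a * cross v w ^ 2 := by
  simp only [Fm.q, Fm.b, Fm.a, cross]; ring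

lemma A_mul_q (v : V) : F.A * F.q v = (F.A * v.1 + F.B * v.2) ^ 2 + F.a * v.2 ^ 2 := by
  simp only [Fm.q, Fm.a]; ring

lemma C_mul_q (v : V) : F.C * F.q v = (F.B * v.1 + F.C * v.2) ^ 2 + F.a * v.1 ^ 2 := by
  simp only [Fm.q, Fm.a]; ring

variable {F}

lemma Pd.C_pos (h : F.Pd) : 0 < F.C := by
  obtain ⟨hA, ha⟩ := h
  unfold Fm.a at ha
  nlinarith [sq_nonneg F.B]

lemma Pd.q_nonneg (h : F.Pd) (v : V) : 0 ≤ F.q v := by
  have h1 := F.A_mul_q v
  have h2 : 0 ≤ F.a * v.2 ^ 2 := mul_nonneg h.2.le (sq_nonneg _)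
  have h3 : 0 ≤ F.A * F.q v := by rw [h1]; positivity
  exact nonneg_of_mul_nonneg_right h3 h.1

lemma Pd.q_pos (h : F.Pd) {v : V} (hv : v ≠ 0) : 0 < F.q v := by
  rcases (h.q_nonneg v).lt_or_eq with h0 | h0
  · exact h0
  · exfalso
    apply hv
    have h1 := F.A_mul_q v
    have h2 := F.C_mul_q v
    rw [← h0] at h1 h2
    have h3 : 0 ≤ F.a * v.2 ^ 2 := mul_nonneg h.2.le (sq_nonneg _)
    have h4 : 0 ≤ F.a * v.1 ^ 2 := mul_nonneg h.2.le (sq_nonneg _)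
    have h5 : F.a * v.2 ^ 2 = 0 := by nlinarith [sq_nonneg (F.A * v.1 + F.B * v.2)]
    have h6 : F.a * v.1 ^ 2 = 0 := by nlinarith [sq_nonneg (F.B * v.1 + F.C * v.2)]
    have h7 : v.2 = 0 := by
      rcases mul_eq_zero.mp h5 with h | h
      · exact absurd h (by have := ‹F.Pd›.2; omega)
      · exact pow_eq_zero_iff (two_ne_zero) |>.mp h
    have h8 : v.1 = 0 := by
      rcases mul_eq_zero.mp h6 with h | h
      · exact absurd h (by have := ‹F.Pd›.2; omega)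
      · exact pow_eq_zero_iff (two_ne_zero) |>.mp h
    exact Prod.ext h8 h7

lemma abs_le_sq_int (x : ℤ) : |x| ≤ x ^ 2 := by
  rw [← sq_abs]
  rcases (abs_nonneg x).lt_or_eq with h | h
  · nlinarith
  · rw [← h]; simp

lemma Pd.mem_bx (h : F.Pd) {v : V} {Z : ℕ} (hv : F.q v ≤ Z) : v ∈ bx F Z := by
  have hC := h.C_pos
  have hA := h.1
  have ha := h.2
  have h1 := F.A_mul_q v
  have h2 := F.C_mul_q v
  have hq := h.q_nonneg v
  have h3 : |v.2| ≤ F.A * F.q v := by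
    have h4 := abs_le_sq_int v.2
    have h5 : v.2 ^ 2 ≤ F.a * v.2 ^ 2 := by nlinarith [sq_nonneg v.2]
    nlinarith [sq_nonneg (F.A * v.1 + F.B * v.2)]
  have h4 : |v.1| ≤ F.C * F.q v := by
    have h4 := abs_le_sq_int v.1
    have h5 : v.1 ^ 2 ≤ F.a * v.1 ^ 2 := by nlinarith [sq_nonneg v.1]
    nlinarith [sq_nonneg (F.B * v.1 + F.C * v.2)]
  have h5 : F.A * F.q v ≤ (F.A + F.C) * Z := by nlinarith
  have h6 : F.C * F.q v ≤ (F.A + F.C) * Z := by nlinarith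
  simp only [bx, mem_product, mem_Icc]
  exact ⟨abs_le.mp (h4.trans h6), abs_le.mp (h3.trans h5)⟩

lemma Pd.q_snd_lt (h : F.Pd) {x : V × V} (hc : cross x.1 x.2 = -1 ∨ cross x.1 x.2 = 1)
    (hb : 0 < F.b x.1 x.2) (hq : F.b x.1 x.2 < F.q x.1) : F.q x.2 < F.b x.1 x.2 + F.a := by
  have h1 := F.q_mul x.1 x.2
  have h2 : cross x.1 x.2 ^ 2 = 1 := by
    rcases hc with h | h <;> rw [h] <;> norm_num
  rw [h2, mul_one] at h1
  by_contra hcon
  rw [not_lt] at hcon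
  have ha := h.2
  nlinarith

end Fm

/-! ## Signs -/

section sg

variable [MA.Sg]

lemma lam_eq_one_or (n : ℤ) : lam n = 1 ∨ lam n = -1 := MA.gs_eq_or _

lemma lam_mul {m n : ℤ} (hm : m ≠ 0) (hn : n ≠ 0) : lam (m * n) = lam m * lam n := by
  unfold lam
  rw [Int.natAbs_mul, MA.gs_mul (Int.natAbs_ne_zero.mpr hm) (Int.natAbs_ne_zero.mpr hn)]

lemma lam_sq (m : ℤ) : lam m * lam m = 1 := by
  rcases lam_eq_one_or m with h | h <;> rw [h] <;> norm_num

end sg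

namespace Fm

variable {F : Fm}

lemma q_neg (v : V) : F.q (-v) = F.q v := by
  simp only [Fm.q, Prod.fst_neg, Prod.snd_neg]; ring

lemma f_neg [MA.Sg] (v : V) : F.f (-v) = F.f v := by
  unfold Fm.f
  rw [q_neg]

lemma f_eq_or [MA.Sg] (v : V) : F.f v = 1 ∨ F.f v = -1 := lam_eq_one_or _

lemma Pd.f_mul [MA.Sg] (h : F.Pd) {v w : V} (hc : cross v w = 1 ∨ cross v w = -1) :
    F.f v * F.f w = lam (F.b v w ^ 2 + F.a) := by
  have h1 := F.q_mul v w
  have h2 : cross v w ^ 2 = 1 := by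
    rcases hc with h | h <;> rw [h] <;> norm_num
  rw [h2, mul_one] at h1
  have h3 : 0 < F.q v * F.q w := by
    rw [h1]
    have := h.2
    positivity
  unfold Fm.f
  rw [← lam_mul (left_ne_zero_of_mul h3.ne') (right_ne_zero_of_mul h3.ne'), h1]

/-! ## Directions -/

lemma Pd.dir_mul (h : F.Pd) {v w : V} (hv : v ≠ 0) (hw : w ≠ 0) :
    dir F v * (starRingEnd ℂ) (dir F w) * ((Real.sqrt ((F.q v * F.q w : ℤ) : ℝ) : ℝ) : ℂ) =
      ((F.b v w : ℤ) : ℂ) - Complex.I * (Real.sqrt (F.a : ℝ) : ℂ) * ((cross v w : ℤ) : ℂ) := by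
  have hqv : (0 : ℝ) < (F.q v : ℝ) := by exact_mod_cast h.q_pos hv
  have hqw : (0 : ℝ) < (F.q w : ℝ) := by exact_mod_cast h.q_pos hw
  have hA : (0 : ℝ) < (F.A : ℝ) := by exact_mod_cast h.1
  have ha : (0 : ℝ) < (F.a : ℝ) := by exact_mod_cast h.2
  have hs : ((Real.sqrt (F.a : ℝ) : ℝ) : ℂ) ^ 2 = ((F.a : ℤ) : ℂ) := by
    rw [← Complex.ofReal_pow, Real.sq_sqrt ha.le]
    push_cast
    rfl
  have h1 : Real.sqrt ((F.A * F.q v : ℤ) : ℝ) = Real.sqrt F.A * Real.sqrt (F.q v) := by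
    push_cast
    exact Real.sqrt_mul hA.le _
  have h2 : Real.sqrt ((F.A * F.q w : ℤ) : ℝ) = Real.sqrt F.A * Real.sqrt (F.q w) := by
    push_cast
    exact Real.sqrt_mul hA.le _
  have h3 : Real.sqrt ((F.q v * F.q w : ℤ) : ℝ) = Real.sqrt (F.q v) * Real.sqrt (F.q w) := by
    push_cast
    exact Real.sqrt_mul hqv.le _
  have hA2 : ((Real.sqrt (F.A : ℝ) : ℝ) : ℂ) ^ 2 = ((F.A : ℤ) : ℂ) := by
    rw [← Complex.ofReal_pow, Real.sq_sqrt hA.le]
    push_cast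
    rfl
  have e1 : ((Real.sqrt (F.q v : ℝ) : ℝ) : ℂ) ≠ 0 := by
    exact_mod_cast (Real.sqrt_pos.mpr hqv).ne'
  have e2 : ((Real.sqrt (F.q w : ℝ) : ℝ) : ℂ) ≠ 0 := by
    exact_mod_cast (Real.sqrt_pos.mpr hqw).ne'
  have e3 : ((Real.sqrt (F.A : ℝ) : ℝ) : ℂ) ≠ 0 := by
    exact_mod_cast (Real.sqrt_pos.mpr hA).ne'
  have hA0 : ((F.A : ℤ) : ℂ) ≠ 0 := by exact_mod_cast h.1.ne'
  unfold dir
  rw [h1, h2, h3, map_div₀, map_add, map_mul, map_mul, Complex.conj_I, Complex.conj_ofReal,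
    Complex.conj_ofReal]
  simp only [map_intCast]
  set sa : ℂ := ((Real.sqrt (F.a : ℝ) : ℝ) : ℂ) with hsa
  set sA : ℂ := ((Real.sqrt (F.A : ℝ) : ℝ) : ℂ) with hsA
  set sv : ℂ := ((Real.sqrt (F.q v : ℝ) : ℝ) : ℂ) with hsv
  set sw : ℂ := ((Real.sqrt (F.q w : ℝ) : ℝ) : ℂ) with hsw
  push_cast
  simp only [← hsA, ← hsv, ← hsw]
  have key : (((F.A : ℂ) * v.1 + F.B * v.2) + Complex.I * sa * v.2) *
      (((F.A : ℂ) * w.1 + F.B * w.2) + -Complex.I * sa * w.2) =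
      (F.A : ℂ) * (((F.b v w : ℤ) : ℂ) - Complex.I * sa * ((cross v w : ℤ) : ℂ)) := by
    have e : (((F.A : ℂ) * v.1 + F.B * v.2) + Complex.I * sa * v.2) *
      (((F.A : ℂ) * w.1 + F.B * w.2) + -Complex.I * sa * w.2) =
      ((F.A : ℂ) * v.1 + F.B * v.2) * ((F.A : ℂ) * w.1 + F.B * w.2) -
        Complex.I ^ 2 * sa ^ 2 * v.2 * w.2 +
        Complex.I * sa * (v.2 * ((F.A : ℂ) * w.1 + F.B * w.2) -
          ((F.A : ℂ) * v.1 + F.B * v.2) * w.2) := by ring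
    rw [e, Complex.I_sq, hs]
    simp only [Fm.a, Fm.b, cross]
    push_cast
    ring
  have h4 : (((F.A : ℂ) * v.1 + F.B * v.2) + Complex.I * sa * v.2) / (sA * sv) *
      ((((F.A : ℂ) * w.1 + F.B * w.2) + -Complex.I * sa * w.2) / (sA * sw)) * (sv * sw) =
      ((((F.A : ℂ) * v.1 + F.B * v.2) + Complex.I * sa * v.2) *
      (((F.A : ℂ) * w.1 + F.B * w.2) + -Complex.I * sa * w.2)) / sA ^ 2 := by
    field_simp
  rw [h4, key, hA2]
  field_simp

lemma Pd.norm_dir (h : F.Pd) {v : V} (hv : v ≠ 0) : ‖dir F v‖ = 1 := by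
  have h1 := h.dir_mul hv hv
  have hqv : (0 : ℝ) < (F.q v : ℝ) := by exact_mod_cast h.q_pos hv
  have hb : F.b v v = F.q v := by simp only [Fm.b, Fm.q]; ring
  have hc : cross v v = 0 := by simp only [cross]; ring
  have h2 : Real.sqrt ((F.q v * F.q v : ℤ) : ℝ) = (F.q v : ℝ) := by
    push_cast
    exact Real.sqrt_mul_self hqv.le
  rw [h2, hb, hc, Complex.mul_conj, Complex.normSq_eq_norm_sq] at h1
  have h3 : ((F.q v : ℝ) : ℂ) ≠ 0 := by exact_mod_cast hqv.ne'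
  have h4 : (((‖dir F v‖ ^ 2 : ℝ)) : ℂ) * ((F.q v : ℝ) : ℂ) = 1 * ((F.q v : ℝ) : ℂ) := by
    rw [h1]; push_cast; ring
  have h5 := mul_right_cancel₀ h3 h4
  have h6 : ‖dir F v‖ ^ 2 = 1 := by exact_mod_cast h5
  have h7 := norm_nonneg (dir F v)
  nlinarith [sq_nonneg (‖dir F v‖ - 1)]

end Fm

theorem specBAS [MA.Sg] : SpecBAS := by
  intro F h
  refine ⟨F.q_mul, h.q_nonneg, fun v hv => h.q_pos hv, fun v Z hv => h.mem_bx hv, ?_, ?_, ?_,
    fun v w hv hw => h.dir_mul hv hw, fun v hv => h.norm_dir hv, Fm.f_eq_or, Fm.f_neg,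
    fun v w hc => h.f_mul hc⟩
  · intro v X Z
    simp only [ann, mem_filter]
    constructor
    · rintro ⟨_, h1⟩; exact h1
    · intro h1; exact ⟨h.mem_bx h1.2.2, h1⟩
  · intro x N
    simp only [G1, mem_filter, mem_product]
    constructor
    · rintro ⟨_, h1⟩; exact h1
    · intro h1
      have hb : 0 < F.b x.1 x.2 := lt_of_le_of_lt (by positivity) h1.2.1
      have h2 := h.q_snd_lt (Or.inl h1.1) hb h1.2.2.2.1
      have ha : ((F.a.natAbs : ℕ) : ℤ) = F.a := by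
        rw [Int.natCast_natAbs, abs_of_pos h.2]
      refine ⟨⟨h.mem_bx ?_, h.mem_bx ?_⟩, h1⟩
      · push_cast
        have := h.2
        have := h1.2.2.2.2
        have := h1.2.2.1
        rw [abs_of_pos h.2]
        linarith
      · push_cast
        rw [abs_of_pos h.2]
        have := h1.2.2.1
        have : (0 : ℤ) ≤ N := by positivity
        linarith
  · intro x Y Z
    simp only [Eb, mem_filter, mem_product]
    constructor
    · rintro ⟨_, h1⟩; exact h1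
    · intro h1
      have hb : 0 < F.b x.1 x.2 := lt_of_le_of_lt (by positivity) h1.2.1
      have h2 := h.q_snd_lt h1.1 hb h1.2.2.1
      refine ⟨⟨h.mem_bx ?_, h.mem_bx ?_⟩, h1⟩
      · push_cast
        rw [abs_of_pos h.2]
        have := h.2
        have := h1.2.2.2.2.1
        linarith
      · push_cast
        rw [abs_of_pos h.2]
        have := h1.2.2.2.2.1
        have := h1.2.2.1
        linarith

end

end Pool.Agent.Lib.MP391708.SG
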