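import Pool.Agent.Lib.MP_391708_nt.SG.Spec
import Pool.Agent.Lib.MP_391708_nt.MA.Spec

/-!
# Module BRI of group S: from `MA.Prin` to `PRIN F`, `F = g (x² + b x y + c y²)`
-/

set_option autoImplicit false

namespace Pool.Agent.Lib.MP391708.SG

open Finset Filter Topology
open Pool.Agent.Lib.MP391708.Eqd (V cross)
open Pool.Agent.Lib.MP391708.MA (Sg gs qn lt Prin)
open scoped Classical

namespace BRI

/-- the root in the upper half plane -/
lemma root {b c : ℤ} {τ : ℂ} (ht : 0 < τ.im) (hq : τ ^ 2 = (b : ℂ) * τ - (c : ℂ)) :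
    2 * τ.re = b ∧ 4 * τ.im ^ 2 = 4 * c - (b : ℝ) ^ 2 := by
  have h1 := congrArg Complex.im hq
  have h2 := congrArg Complex.re hq
  simp only [sq, Complex.mul_re, Complex.mul_im, Complex.sub_re, Complex.sub_im,
    Complex.intCast_re, Complex.intCast_im, zero_mul, sub_zero, add_zero] at h1 h2
  have h3 : 2 * τ.re = b := by
    have h4 : (2 * τ.re - b) * τ.im = 0 := by linarith
    rcases mul_eq_zero.1 h4 with h5 | h5
    · linarith
    · exact absurd h5 ht.ne'
  refine ⟨h3, ?_⟩
  rw [← h3] at h2 ⊢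
  nlinarith

lemma norm_lt {b c : ℤ} {τ : ℂ} (ht : 0 < τ.im) (hq : τ ^ 2 = (b : ℂ) * τ - (c : ℂ)) (v : V) :
    ‖lt 1 τ v‖ ^ 2 = (qn b c v : ℝ) := by
  obtain ⟨h1, h2⟩ := root ht hq
  rw [← Complex.normSq_eq_norm_sq, Complex.normSq_apply]
  simp only [lt, mul_one, Complex.add_re, Complex.add_im, Complex.mul_re, Complex.mul_im,
    Complex.intCast_re, Complex.intCast_im, zero_mul, sub_zero, add_zero, zero_add, qn]
  push_cast
  linear_combination ((v.1 : ℝ) * v.2 + (v.2 : ℝ) ^ 2 * (2 * τ.re + b) / 4) * h1 +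
    ((v.2 : ℝ) ^ 2 / 4) * h2

end BRI

open BRI

theorem specBRI [Sg] (hB : SpecBAS) (b c g : ℤ) (τ : ℂ) (hg : 0 < g) (a : ℕ) (ha : 0 < a)
    (h4 : g ^ 2 * (4 * c - b ^ 2) = 4 * (a : ℤ)) (ht : 0 < τ.im)
    (hq : τ ^ 2 = (b : ℂ) * τ - (c : ℂ)) (h : Prin b c τ) :
    ∃ F : Fm, F.Pd ∧ F.Amb ∧ F.a = a ∧ PRIN F := by
  have heven : (2 : ℤ) ∣ g * b := by
    have h1 : (2 : ℤ) ∣ (g * b) ^ 2 := ⟨2 * g ^ 2 * c - 2 * a, by linear_combination (-1 : ℤ) * h4⟩
    exact Int.prime_two.dvd_of_dvd_pow h1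
  obtain ⟨β, hβ⟩ := heven
  set F : Fm := ⟨g, β, g * c⟩ with hF
  have hFa : F.a = a := by
    have h1 : 4 * F.a = 4 * (a : ℤ) := by
      rw [← h4]
      simp only [hF, Fm.a]
      linear_combination (g * b + 2 * β) * hβ
    linarith
  have haZ : (0 : ℤ) < a := by exact_mod_cast ha
  have hPd : F.Pd := ⟨hg, by rw [hFa]; exact haZ⟩
  have hFq : ∀ v : V, F.q v = g * qn b c v := by
    intro v
    simp only [hF, Fm.q, qn]
    linear_combination (-(v.1 * v.2)) * hβ
  obtain ⟨-, hq0, hqpos, -, hann, -, -, -, -, hpm, -, -⟩ := hB F hPd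
  have hqnpos : ∀ v : V, v ≠ 0 → 0 < qn b c v := by
    intro v hv
    have h1 := hqpos v hv
    rw [hFq] at h1
    exact (mul_pos_iff_of_pos_left hg).1 h1
  refine ⟨F, hPd, ?_, hFa, ?_⟩
  · refine ⟨fun v => (v.1 + b * v.2, -v.2), ?_, ?_, ?_⟩
    · intro v w hvw
      have e1 := congrArg Prod.fst hvw
      have e2 := congrArg Prod.snd hvw
      simp only at e1 e2
      have e3 : v.2 = w.2 := by linarith
      rw [e3] at e1
      exact Prod.ext (by linarith) e3
    · intro v w
      simp only [cross]; ring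
    · intro v w
      simp only [hF, Fm.b]
      linear_combination (v.1 * w.2 + v.2 * w.1 + b * v.2 * w.2) * hβ
  · -- the directions
    obtain ⟨hre, him⟩ := root ht hq
    have hgR : (0 : ℝ) < g := by exact_mod_cast hg
    have hsq : Real.sqrt (F.a : ℝ) = g * τ.im := by
      rw [hFa]
      have h1 : ((a : ℤ) : ℝ) = (g * τ.im) ^ 2 := by
        have h2 : (4 : ℝ) * ((a : ℤ) : ℝ) = (g : ℝ) ^ 2 * (4 * c - (b : ℝ) ^ 2) := by
          exact_mod_cast h4.symm
        rw [← him] at h2
        nlinarith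
      rw [h1, Real.sqrt_sq (by positivity)]
    have hdir : ∀ v : V, v ≠ 0 → dir F v = lt 1 τ v / ((‖lt 1 τ v‖ : ℝ) : ℂ) := by
      intro v hv
      have h1 : Real.sqrt ((F.A * F.q v : ℤ) : ℝ) = g * ‖lt 1 τ v‖ := by
        have h2 : ((F.A * F.q v : ℤ) : ℝ) = (g * ‖lt 1 τ v‖) ^ 2 := by
          rw [mul_pow, norm_lt ht hq, hFq]
          simp only [hF]
          push_cast
          ring
        rw [h2, Real.sqrt_sq (by positivity)]
      have h2 : (((F.A * v.1 + F.B * v.2 : ℤ) : ℂ) +
          Complex.I * (Real.sqrt (F.a : ℝ) : ℂ) * (v.2 : ℂ)) = (g : ℂ) * lt 1 τ v := by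
        rw [hsq]
        have h3 : (2 : ℝ) * β = g * b := by exact_mod_cast hβ.symm
        simp only [hF, lt]
        apply Complex.ext
        · simp only [Complex.add_re, Complex.mul_re, Complex.intCast_re, Complex.intCast_im,
            Complex.I_re, Complex.I_im, Complex.ofReal_re, Complex.ofReal_im, mul_one,
            Complex.add_im, Complex.mul_im]
          push_cast
          rw [← hre] at h3
          linear_combination ((v.2 : ℝ) / 2) * h3
        · simp only [Complex.add_re, Complex.mul_re, Complex.intCast_re, Complex.intCast_im,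
            Complex.I_re, Complex.I_im, Complex.ofReal_re, Complex.ofReal_im, mul_one,
            Complex.add_im, Complex.mul_im]
          ring
      unfold dir
      rw [h1, h2]
      push_cast
      rw [mul_div_mul_left _ _ (by exact_mod_cast hg.ne')]
    -- the signs
    have hlg : lam g * lam g = 1 := MA.gs_mul_self _
    have hf : ∀ v : V, v ≠ 0 → (F.f v : ℂ) = (lam g : ℂ) *
        ((gs (qn b c v).natAbs : ℤ) : ℂ) := by
      intro v hv
      have h1 : F.f v = lam g * lam (qn b c v) := by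
        unfold Fm.f
        rw [hFq]
        unfold lam
        rw [Int.natAbs_mul, MA.gs_mul (Int.natAbs_ne_zero.2 hg.ne')
          (Int.natAbs_ne_zero.2 (hqnpos v hv).ne')]
      rw [h1]
      unfold lam
      push_cast
      ring
    have hnlg : ‖(lam g : ℂ)‖ = 1 := by
      have h1 : ‖(lam g : ℂ)‖ * ‖(lam g : ℂ)‖ = 1 := by
        rw [← norm_mul]
        have : (lam g : ℂ) * (lam g : ℂ) = 1 := by exact_mod_cast hlg
        rw [this, norm_one]
      nlinarith [norm_nonneg (lam g : ℂ)]
    intro C ε hε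
    rcases Nat.lt_or_ge 1 C with hC | hC
    · obtain ⟨H₀, hH₀⟩ := h C ε (by exact_mod_cast hC) hε
      refine ⟨⌈(g : ℝ) * H₀⌉₊, fun H hH hH1 => ?_⟩
      have hHR : (g : ℝ) * H₀ ≤ H := (Nat.le_ceil _).trans (by exact_mod_cast hH)
      have hHR1 : (0 : ℝ) < H := by exact_mod_cast hH1
      have h5 := hH₀ (H / g) (by rw [le_div_iff₀ hgR]; linarith)
      have htend : Tendsto (fun X : ℕ => (X : ℝ) / g) atTop atTop :=
        tendsto_natCast_atTop_atTop.atTop_div_const hgR
      filter_upwards [htend.eventually h5] with X hX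
      have h6 := hX (ann F X (C * X)) ?_
      · have hfl : ⌊(X : ℝ) / g / (H / g)⌋₊ = X / H := by
          rw [div_div_div_cancel_right₀ hgR.ne']
          exact Nat.floor_div_eq_div X H
        rw [hfl] at h6
        have h7 : ∀ k : ℤ, ‖∑ v ∈ ann F X (C * X), (F.f v : ℂ) * dir F v ^ k‖ =
            ‖∑ p ∈ ann F X (C * X),
              ((gs (qn b c p).natAbs : ℤ) : ℂ) *
                (lt 1 τ p / ((‖lt 1 τ p‖ : ℝ) : ℂ)) ^ k‖ := by
          intro k
          have h8 : ∑ v ∈ ann F X (C * X), (F.f v : ℂ) * dir F v ^ k = (lam g : ℂ) *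
              ∑ p ∈ ann F X (C * X),
              ((gs (qn b c p).natAbs : ℤ) : ℂ) *
                (lt 1 τ p / ((‖lt 1 τ p‖ : ℝ) : ℂ)) ^ k := by
            rw [mul_sum]
            refine sum_congr rfl fun v hv => ?_
            have hv0 : v ≠ 0 := by
              rw [hann] at hv
              rintro rfl
              obtain ⟨x, y, hxy⟩ := hv.1
              simp at hxy
            rw [hf v hv0, hdir v hv0]
            ring
          rw [h8, norm_mul, hnlg, one_mul]
        simp_rw [h7]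
        refine h6.trans ?_
        apply mul_le_mul_of_nonneg_left _ hε.le
        have hg1 : (1 : ℝ) ≤ g := by exact_mod_cast hg
        have hX0 : (0 : ℝ) ≤ X := Nat.cast_nonneg X
        exact pow_le_pow_left₀ (by positivity) (div_le_self hX0 hg1) 2
      · intro p
        rw [hann, hFq]
        unfold prim
        rw [Int.isCoprime_iff_gcd_eq_one, div_lt_iff₀ hgR, mul_div_assoc', le_div_iff₀ hgR]
        have e1 : ((X : ℤ) < g * qn b c p) ↔ ((X : ℝ) < (qn b c p : ℝ) * g) := by
          rw [mul_comm (qn b c p : ℝ)]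
          exact_mod_cast Iff.rfl
        have e2 : (g * qn b c p ≤ ((C * X : ℕ) : ℤ)) ↔ ((qn b c p : ℝ) * g ≤ (C : ℝ) * X) := by
          rw [mul_comm (qn b c p : ℝ)]
          exact_mod_cast Iff.rfl
        rw [e1, e2]
    · refine ⟨1, fun H _ _ => ?_⟩
      filter_upwards with X
      have hemp : ann F X (C * X) = ∅ := by
        rw [eq_empty_iff_forall_notMem]
        intro v hv
        rw [hann] at hv
        have h1 : ((C * X : ℕ) : ℤ) ≤ X := by
          have : C * X ≤ 1 * X := Nat.mul_le_mul_right _ hC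
          exact_mod_cast (by simpa using this)
        omega
      rw [hemp]
      simp only [sum_empty, norm_zero]
      have : (0 : ℝ) ≤ ε * (X : ℝ) ^ 2 := by positivity
      simpa using this

end Pool.Agent.Lib.MP391708.SG
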