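import Pool.Agent.Lib.MP_391708_nt.Eqd.Defs

/-!
# The chain lemma

`Q` is a positive definite binary form.  If `f v ≠ f v'` for two primitive vectors of comparable size
with small `cross v v'`, then `f s ≠ f t` for a unimodular pair `s, t` of comparable size with
`M < Q s ≤ 3 M`, `M = Bil s t`, and `s, t` determine `v, v'` up to a bounded number of choices.
-/

set_option autoImplicit false

namespace Pool.Agent.Lib.MP391708.SG

open Finset
open Pool.Agent.Lib.MP391708.Eqd (V cross)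

/-- the quadratic form -/
def Qr (A B C : ℝ) (v : V) : ℝ := A * (v.1 : ℝ) ^ 2 + 2 * B * v.1 * v.2 + C * (v.2 : ℝ) ^ 2

/-- its bilinear form -/
def Bil (A B C : ℝ) (v w : V) : ℝ :=
  A * v.1 * w.1 + B * ((v.1 : ℝ) * w.2 + (v.2 : ℝ) * w.1) + C * v.2 * w.2

/-- primitive -/
def Pv (v : V) : Prop := IsCoprime v.1 v.2

section ident

variable (A B C : ℝ)

lemma Q_mul (v w : V) :
    Qr A B C v * Qr A B C w = Bil A B C v w ^ 2 + (A * C - B ^ 2) * ((cross v w : ℤ) : ℝ) ^ 2 := by
  simp only [Qr, Bil, cross]; push_cast; ring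

lemma Bil_comm (v w : V) : Bil A B C v w = Bil A B C w v := by
  simp only [Bil]; ring

lemma Bil_self (v : V) : Bil A B C v v = Qr A B C v := by
  simp only [Bil, Qr]; ring

lemma Q_sub (v w : V) :
    Qr A B C (v - w) = Qr A B C v - 2 * Bil A B C v w + Qr A B C w := by
  simp only [Qr, Bil, Prod.fst_sub, Prod.snd_sub]; push_cast; ring

lemma Bil_sub_left (u v w : V) : Bil A B C (u - v) w = Bil A B C u w - Bil A B C v w := by
  simp only [Bil, Prod.fst_sub, Prod.snd_sub]; push_cast; ring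

lemma Bil_sub_right (u v w : V) : Bil A B C w (u - v) = Bil A B C w u - Bil A B C w v := by
  simp only [Bil, Prod.fst_sub, Prod.snd_sub]; push_cast; ring

end ident

lemma cross_swap (v w : V) : cross v w = -cross w v := by simp only [cross]; ring

lemma cross_self (v : V) : cross v v = 0 := by simp only [cross]; ring

lemma cross_sub_left (u v w : V) : cross (u - v) w = cross u w - cross v w := by
  simp only [cross, Prod.fst_sub, Prod.snd_sub]; ring

lemma cross_sub_right (u v w : V) : cross w (u - v) = cross w u - cross w v := by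
  simp only [cross, Prod.fst_sub, Prod.snd_sub]; ring

/-- Plücker -/
lemma pl1 (v v' u : V) : cross v v' * u.1 = cross u v' * v.1 + cross v u * v'.1 := by
  simp only [cross]; ring
lemma pl2 (v v' u : V) : cross v v' * u.2 = cross u v' * v.2 + cross v u * v'.2 := by
  simp only [cross]; ring

lemma pl_cross (v v' u w : V) :
    cross v v' * cross w u = cross u v' * cross w v + cross v u * cross w v' := by
  simp only [cross]; ring

lemma pl_Bil (A B C : ℝ) (v v' u w : V) :
    ((cross v v' : ℤ) : ℝ) * Bil A B C u w =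
      ((cross u v' : ℤ) : ℝ) * Bil A B C v w + ((cross v u : ℤ) : ℝ) * Bil A B C v' w := by
  simp only [cross, Bil]; push_cast; ring

lemma pl_Q (A B C : ℝ) (v v' u : V) :
    ((cross v v' : ℤ) : ℝ) ^ 2 * Qr A B C u =
      ((cross u v' : ℤ) : ℝ) ^ 2 * Qr A B C v + 2 * ((cross u v' : ℤ) : ℝ) * ((cross v u : ℤ) : ℝ) *
        Bil A B C v v' + ((cross v u : ℤ) : ℝ) ^ 2 * Qr A B C v' := by
  simp only [cross, Bil, Qr]; push_cast; ring

/-- a critical pair -/
structure Crit (A B C : ℝ) (X1 X2 : ℝ) (s t : V) : Prop where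
  un : |cross s t| = 1
  lt : Bil A B C s t < Qr A B C s
  le : Qr A B C s ≤ 3 * Bil A B C s t
  s1 : X1 ≤ Qr A B C s
  s2 : Qr A B C s ≤ X2
  t1 : X1 ≤ Qr A B C t
  t2 : Qr A B C t ≤ X2

/-- the descent -/
lemma descent {A B C : ℝ} (hD : 0 < A * C - B ^ 2) {X1 X2 : ℝ}
    (hX1 : 0 < X1) (hX : 2 * (A * C - B ^ 2) ≤ X1 ^ 2) (f : V → ℝ) :
    ∀ (n : ℕ) (v w : V), |cross v w| = 1 → 0 < Bil A B C v w → X1 ≤ Qr A B C w →
      Qr A B C w ≤ Qr A B C v → Qr A B C v ≤ X2 → Bil A B C v w ≤ n * Qr A B C w → f v ≠ f w →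
      ∃ j : ℕ, j ≤ n ∧ ∃ s t : V, Crit A B C X1 X2 s t ∧ f s ≠ f t ∧
        s = v - (j : ℤ) • w ∧ (t = w ∨ t = v - ((j + 1 : ℕ) : ℤ) • w) := by
  intro n
  induction n with
  | zero =>
    intro v w _ hB _ _ _ hn _
    simp only [Nat.cast_zero, zero_mul] at hn
    exact absurd hB (not_lt.mpr hn)
  | succ n ih =>
    intro v w hc hB hw hwv hv hn hf
    have hid := Q_mul A B C v w
    have hc2 : ((cross v w : ℤ) : ℝ) ^ 2 = 1 := by
      have : (cross v w) ^ 2 = 1 := by
        rw [← sq_abs, hc]; norm_num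
      exact_mod_cast this
    rw [hc2, mul_one] at hid
    set q := Qr A B C v with hq
    set r := Qr A B C w with hr
    set b := Bil A B C v w with hb
    set D := A * C - B ^ 2 with hDD
    have hr0 : 0 < r := lt_of_lt_of_le hX1 hw
    have hbq : b < q := by
      by_contra hcon
      push Not at hcon
      nlinarith
    by_cases h3 : q ≤ 3 * b
    · refine ⟨0, Nat.zero_le _, v, w, ⟨hc, hbq, h3, hw.trans hwv, hv, hw, hwv.trans hv⟩, hf, ?_, ?_⟩
      · simp
      · left; rfl
    · push Not at h3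
      have hbr : r < b := by
        by_contra hcon
        push Not at hcon
        have h1 : X1 ^ 2 ≤ r ^ 2 := by nlinarith
        have h2 : r ^ 2 ≤ q * r := by nlinarith
        have h4 : D ≤ b ^ 2 := by nlinarith
        have h5 : 3 * b * r < b ^ 2 + D := by nlinarith
        have h6 : 2 * (b * r) < D := by nlinarith
        have h7 : 0 < b * r := mul_pos hB hr0
        have h8 : 2 * D ^ 2 ≤ (b * r) ^ 2 := by
          rw [mul_pow]; nlinarith
        nlinarith
      set v' : V := v - w with hv'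
      have hQv' : Qr A B C v' = q - 2 * b + r := by rw [hv', Q_sub]
      have hBv' : Bil A B C v' w = b - r := by rw [hv', Bil_sub_left, Bil_self]
      have hBvv' : Bil A B C v v' = q - b := by rw [hv', Bil_sub_right, Bil_self]
      have hcv' : cross v' w = cross v w := by rw [hv', cross_sub_left, cross_self, sub_zero]
      have hcvv' : cross v v' = - cross v w := by rw [hv', cross_sub_right, cross_self, zero_sub]
      by_cases hff : f v = f v'
      · obtain ⟨j, hj, s, t, hcr, hst, hs, ht⟩ := ih v' w (by rw [hcv']; exact hc)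
          (by rw [hBv']; linarith) hw (by rw [hQv']; linarith) (by rw [hQv']; linarith)
          (by rw [hBv']; push_cast at hn; linarith) (by rw [← hff]; exact hf)
        refine ⟨j + 1, by omega, s, t, hcr, hst, ?_, ?_⟩
        · rw [hs, hv']; push_cast; module
        · rcases ht with ht | ht
          · left; exact ht
          · right; rw [ht, hv']; push_cast; module
      · refine ⟨0, Nat.zero_le _, v, v', ⟨?_, ?_, ?_, hw.trans hwv, hv, ?_, ?_⟩, hff, ?_, ?_⟩
        · rw [hcvv', abs_neg]; exact hc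
        · rw [hBvv']; linarith
        · rw [hBvv']; linarith
        · rw [hQv']; linarith
        · rw [hQv']; linarith
        · simp
        · right; rw [hv']; push_cast; module

/-- the triangle of `v, v'` -/
def Tri (v v' x : V) : Prop := 0 ≤ cross v x ∧ 0 ≤ cross x v' ∧ cross v x + cross x v' ≤ cross v v'

lemma cone {A B C : ℝ} (hA : ∀ v : V, Pv v → 0 < Qr A B C v) (f : V → ℝ) :
    ∀ (c : ℕ) (v v' : V), 0 < c → Pv v → Pv v' → cross v v' = c → 0 < Bil A B C v v' → f v ≠ f v' →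
      ∃ x y : V, cross x y = 1 ∧ f x ≠ f y ∧ Tri v v' x ∧ Tri v v' y := by
  intro c
  induction c using Nat.strong_induction_on with
  | _ c ih =>
    intro v v' hc0 hv hv' hc hB hf
    rcases Nat.eq_or_lt_of_le (Nat.one_le_iff_ne_zero.mpr hc0.ne') with h1 | h1
    · refine ⟨v, v', by rw [hc, ← h1]; rfl, hf, ⟨?_, ?_, ?_⟩, ⟨?_, ?_, ?_⟩⟩ <;>
        simp [cross_self, hc]
    · -- c ≥ 2
      obtain ⟨a, b, hab⟩ := hv
      -- u0 with cross v u0 = 1
      set u0 : V := (-b, a) with hu0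
      have hcu0 : cross v u0 = 1 := by
        rw [hu0]; simp only [cross]; linarith
      set k : ℤ := - (cross u0 v' / (c : ℤ)) with hk
      set u : V := u0 + k • v with hu
      have hcu : cross v u = 1 := by
        rw [hu]; simp only [cross, Prod.fst_add, Prod.snd_add, Prod.smul_fst, Prod.smul_snd,
          smul_eq_mul] at hcu0 ⊢
        linarith
      have hcu' : cross u v' = cross u0 v' % (c : ℤ) := by
        have e1 : cross u v' = cross u0 v' + k * cross v v' := by
          rw [hu]; simp only [cross, Prod.fst_add, Prod.snd_add, Prod.smul_fst, Prod.smul_snd,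
            smul_eq_mul]
          ring
        rw [e1, hc, hk]
        have := Int.emod_add_mul_ediv (cross u0 v') (c : ℤ)
        linarith
      have hcpos : (0 : ℤ) < (c : ℤ) := by exact_mod_cast hc0
      have hα0 : 0 ≤ cross u v' := by rw [hcu']; exact Int.emod_nonneg _ hcpos.ne'
      have hαc : cross u v' < c := by rw [hcu']; exact Int.emod_lt_of_pos _ hcpos
      have hp1 := pl1 v v' u
      have hp2 := pl2 v v' u
      rw [hc, hcu, one_mul] at hp1 hp2
      have hαne : cross u v' ≠ 0 := by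
        intro h0
        rw [h0, zero_mul, zero_add] at hp1 hp2
        obtain ⟨a', b', hab'⟩ := hv'
        have : (c : ℤ) ∣ 1 := ⟨a' * u.1 + b' * u.2, by
          rw [← hab', ← hp1, ← hp2]; ring⟩
        have h2 := Int.le_of_dvd one_pos this
        have : (1 : ℤ) < c := by exact_mod_cast h1
        linarith
      have hα1 : 1 ≤ cross u v' := by
        rcases lt_or_eq_of_le hα0 with h | h
        · exact h
        · exact absurd h.symm hαne
      obtain ⟨α, hα⟩ := Int.eq_ofNat_of_zero_le hα0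
      have hPu : Pv u := ⟨-v.2, v.1, by
        have := hcu; simp only [cross] at this; linarith⟩
      have hQv' : 0 < Qr A B C v' := hA v' hv'
      have hBu : 0 < Bil A B C u v' := by
        have h := pl_Bil A B C v v' u v'
        rw [hc, hcu, Bil_self] at h
        have hcr : (0 : ℝ) < ((c : ℤ) : ℝ) := by exact_mod_cast hc0
        have hαr : (0 : ℝ) < ((cross u v' : ℤ) : ℝ) := by
          exact_mod_cast (lt_of_lt_of_le one_pos hα1)
        have h3 : 0 < ((c : ℤ) : ℝ) * Bil A B C u v' := by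
          rw [h]; push_cast; nlinarith [mul_pos hαr hB]
        exact (mul_pos_iff_of_pos_left hcr).mp h3
      by_cases hfu : f v = f u
      · obtain ⟨x, y, hxy, hfxy, hx, hy⟩ := ih α (by
            have : (α : ℤ) < c := lt_of_eq_of_lt hα.symm hαc
            exact_mod_cast this) u v' (by
            have : (0 : ℤ) < (α : ℤ) := lt_of_lt_of_eq (lt_of_lt_of_le one_pos hα1) hα
            exact_mod_cast this) hPu hv' hα hBu (by rw [← hfu]; exact hf)
        have key : ∀ z : V, Tri u v' z → Tri v v' z := by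
          rintro z ⟨h1, h2, h3⟩
          have e1 := pl_cross u v' z v
          rw [hcu, hc] at e1
          have hα' : 0 < cross u v' := by linarith
          have h5 : 0 ≤ cross v z := by
            by_contra hcon
            push Not at hcon
            have : cross u v' * cross v z < 0 := mul_neg_of_pos_of_neg hα' hcon
            nlinarith [mul_nonneg h1 hcpos.le]
          refine ⟨h5, h2, ?_⟩
          rw [hc]
          by_contra hcon
          push Not at hcon
          have h6 : cross u v' * c < cross u v' * (cross v z + cross z v') :=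
            mul_lt_mul_of_pos_left hcon hα'
          have h7 : cross u v' * (cross v z + cross z v') ≤ c * (cross u z + cross z v') := by
            rw [mul_add, e1]
            nlinarith [mul_nonneg h2 (by linarith : (0 : ℤ) ≤ c - 1 - cross u v')]
          have h8 : c * (cross u z + cross z v') ≤ c * cross u v' :=
            mul_le_mul_of_nonneg_left h3 hcpos.le
          linarith
        exact ⟨x, y, hxy, hfxy, key x hx, key y hy⟩
      · refine ⟨v, u, hcu, hfu, ⟨?_, ?_, ?_⟩, ⟨?_, ?_, ?_⟩⟩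
        · rw [cross_self]
        · rw [hc]; exact hcpos.le
        · rw [cross_self, hc]; simp
        · rw [hcu]; norm_num
        · exact hα0
        · rw [hcu, hc]; linarith

/-- sizes in the triangle -/
lemma tri_size {A B C X L : ℝ} (hX : 0 < X) (hD : 0 < A * C - B ^ 2) {v v' x : V}
    (hc : 0 < cross v v') (hB : 0 < Bil A B C v v') (h1 : X ≤ Qr A B C v)
    (h2 : Qr A B C v ≤ L * X) (h3 : X ≤ Qr A B C v') (h4 : Qr A B C v' ≤ L * X)
    (hx : Tri v v' x) (hx0 : x ≠ 0) :
    X ≤ ((cross v v' : ℤ) : ℝ) ^ 2 * Qr A B C x ∧ Qr A B C x ≤ L * X := by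
  obtain ⟨t1, t2, t3⟩ := hx
  have hid := Q_mul A B C v v'
  have hpq := pl_Q A B C v v' x
  have hp1 := pl1 v v' x
  have hp2 := pl2 v v' x
  have hs : 1 ≤ cross x v' + cross v x := by
    by_contra hcon
    push Not at hcon
    have e1 : cross x v' = 0 := by omega
    have e2 : cross v x = 0 := by omega
    rw [e1, e2, zero_mul, zero_mul, add_zero] at hp1 hp2
    apply hx0
    ext
    · simpa using (mul_eq_zero.mp hp1).resolve_left hc.ne'
    · simpa using (mul_eq_zero.mp hp2).resolve_left hc.ne'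
  have c1 : (0 : ℝ) ≤ ((cross x v' : ℤ) : ℝ) := by exact_mod_cast t2
  have c2 : (0 : ℝ) ≤ ((cross v x : ℤ) : ℝ) := by exact_mod_cast t1
  have c3 : (0 : ℝ) < ((cross v v' : ℤ) : ℝ) := by exact_mod_cast hc
  have c4 : ((cross v x : ℤ) : ℝ) + ((cross x v' : ℤ) : ℝ) ≤ ((cross v v' : ℤ) : ℝ) := by
    exact_mod_cast t3
  have c5 : (1 : ℝ) ≤ ((cross x v' : ℤ) : ℝ) ^ 2 + ((cross v x : ℤ) : ℝ) ^ 2 := by
    have : 1 ≤ cross x v' ^ 2 + cross v x ^ 2 := by
      rcases Int.lt_or_le 0 (cross x v') with h | h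
      · nlinarith [sq_nonneg (cross v x)]
      · have h5 : 1 ≤ cross v x := by omega
        nlinarith [sq_nonneg (cross x v')]
    exact_mod_cast this
  set p := ((cross x v' : ℤ) : ℝ)
  set r := ((cross v x : ℤ) : ℝ)
  set c := ((cross v v' : ℤ) : ℝ)
  set q := Qr A B C v
  set q' := Qr A B C v'
  set b := Bil A B C v v'
  have hbL : b ≤ L * X := by
    by_contra hcon
    push Not at hcon
    have hL : 0 < L * X := lt_of_lt_of_le hX (h1.trans h2)
    have h5 : (L * X) ^ 2 < b ^ 2 := by nlinarith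
    have h6 : q * q' ≤ (L * X) ^ 2 := by
      have := mul_le_mul h2 h4 (hX.le.trans h3) hL.le
      nlinarith
    nlinarith [mul_nonneg hD.le (sq_nonneg c)]
  constructor
  · rw [hpq]
    nlinarith [mul_nonneg (mul_nonneg c1 c2) hB.le, mul_nonneg (sq_nonneg p) (sub_nonneg.mpr h1),
      mul_nonneg (sq_nonneg r) (sub_nonneg.mpr h3), mul_nonneg (sub_nonneg.mpr c5) hX.le]
  · have h7 : c ^ 2 * Qr A B C x ≤ c ^ 2 * (L * X) := by
      rw [hpq]
      have h8 : p ^ 2 * q + 2 * p * r * b + r ^ 2 * q' ≤ (p + r) ^ 2 * (L * X) := by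
        nlinarith [mul_nonneg (mul_nonneg c1 c2) (sub_nonneg.mpr hbL),
          mul_nonneg (sq_nonneg p) (sub_nonneg.mpr h2), mul_nonneg (sq_nonneg r)
          (sub_nonneg.mpr h4)]
      have h9 : (p + r) ^ 2 ≤ c ^ 2 := by nlinarith
      have hL : 0 ≤ L * X := hX.le.trans (h1.trans h2)
      nlinarith [mul_le_mul_of_nonneg_right h9 hL]
    exact le_of_mul_le_mul_left h7 (by positivity)

/-- the bilinear form in the triangle -/
lemma tri_Bil {A B C : ℝ} {v v' x y : V} (hc : 0 < cross v v')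
    (hB : 0 < Bil A B C v v') (h1 : 0 < Qr A B C v) (h3 : 0 < Qr A B C v')
    (hx : Tri v v' x) (hy : Tri v v' y) (hxy : cross x y = 1) : 0 < Bil A B C x y := by
  have e1 := pl_Bil A B C v v' x y
  have e2 := pl_Bil A B C v v' y v
  have e3 := pl_Bil A B C v v' y v'
  rw [Bil_self] at e2 e3
  rw [Bil_comm A B C v y, Bil_comm A B C v' y] at e1
  rw [Bil_comm A B C v' v] at e2
  obtain ⟨t1, t2, _⟩ := hx
  obtain ⟨s1, s2, _⟩ := hy
  have hpl := pl_cross v v' x y
  have hs : 1 ≤ cross x v' + cross v x := by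
    by_contra hcon
    push Not at hcon
    have f1 : cross x v' = 0 := by omega
    have f2 : cross v x = 0 := by omega
    have := pl_cross v v' x y
    rw [f1, f2, zero_mul, zero_mul, add_zero, cross_swap y x, hxy] at this
    omega
  have hs' : 1 ≤ cross y v' + cross v y := by
    by_contra hcon
    push Not at hcon
    have f1 : cross y v' = 0 := by omega
    have f2 : cross v y = 0 := by omega
    have := pl_cross v v' y x
    rw [f1, f2, zero_mul, zero_mul, add_zero, hxy] at this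
    omega
  have c1 : (0 : ℝ) ≤ ((cross x v' : ℤ) : ℝ) := by exact_mod_cast t2
  have c2 : (0 : ℝ) ≤ ((cross v x : ℤ) : ℝ) := by exact_mod_cast t1
  have c3 : (0 : ℝ) < ((cross v v' : ℤ) : ℝ) := by exact_mod_cast hc
  have c4 : (0 : ℝ) ≤ ((cross y v' : ℤ) : ℝ) := by exact_mod_cast s2
  have c5 : (0 : ℝ) ≤ ((cross v y : ℤ) : ℝ) := by exact_mod_cast s1
  have d1 : (1 : ℝ) ≤ ((cross x v' : ℤ) : ℝ) + ((cross v x : ℤ) : ℝ) := by exact_mod_cast hs
  have d2 : (1 : ℝ) ≤ ((cross y v' : ℤ) : ℝ) + ((cross v y : ℤ) : ℝ) := by exact_mod_cast hs'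
  set p := ((cross x v' : ℤ) : ℝ)
  set r := ((cross v x : ℤ) : ℝ)
  set p' := ((cross y v' : ℤ) : ℝ)
  set r' := ((cross v y : ℤ) : ℝ)
  set c := ((cross v v' : ℤ) : ℝ)
  set q := Qr A B C v
  set q' := Qr A B C v'
  set b := Bil A B C v v'
  have h5 : c * (c * Bil A B C x y) = p * p' * q + (p * r' + r * p') * b + r * r' * q' := by
    rw [e1, mul_add, ← mul_assoc, ← mul_assoc, mul_comm c p, mul_comm c r, mul_assoc, mul_assoc,
      e2, e3]
    ring
  obtain ⟨m, hm0, hmq, hmb, hmq'⟩ : ∃ m : ℝ, 0 < m ∧ m ≤ q ∧ m ≤ b ∧ m ≤ q' :=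
    ⟨min q (min b q'), lt_min h1 (lt_min hB h3), min_le_left _ _,
      (min_le_right _ _).trans (min_le_left _ _), (min_le_right _ _).trans (min_le_right _ _)⟩
  have h6 : m ≤ c * (c * Bil A B C x y) := by
    rw [h5]
    have g1 : m * (p * p') ≤ p * p' * q := by
      rw [mul_comm]; exact mul_le_mul_of_nonneg_left hmq (mul_nonneg c1 c4)
    have g2 : m * (p * r' + r * p') ≤ (p * r' + r * p') * b := by
      rw [mul_comm]
      exact mul_le_mul_of_nonneg_left hmb (add_nonneg (mul_nonneg c1 c5) (mul_nonneg c2 c4))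
    have g3 : m * (r * r') ≤ r * r' * q' := by
      rw [mul_comm]; exact mul_le_mul_of_nonneg_left hmq' (mul_nonneg c2 c5)
    have g4 : 1 ≤ (p + r) * (p' + r') := by nlinarith
    nlinarith
  have h7 : 0 < c * Bil A B C x y := (mul_pos_iff_of_pos_left c3).mp (lt_of_lt_of_le hm0 h6)
  exact (mul_pos_iff_of_pos_left c3).mp h7

lemma Q_pos {A B C : ℝ} (hA : 0 < A) (hD : 0 < A * C - B ^ 2) {v : V} (hv : v ≠ 0) :
    0 < Qr A B C v := by
  have h : A * Qr A B C v = (A * v.1 + B * v.2) ^ 2 + (A * C - B ^ 2) * (v.2 : ℝ) ^ 2 := by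
    simp only [Qr]; ring
  have h2 : 0 < A * Qr A B C v := by
    rw [h]
    by_cases h0 : v.2 = 0
    · have h1 : v.1 ≠ 0 := by
        intro h1; apply hv; ext <;> simp [h0, h1]
      have h3 : (v.1 : ℝ) ≠ 0 := by exact_mod_cast h1
      rw [h0]
      simp only [Int.cast_zero, mul_zero, add_zero]
      positivity
    · have h3 : (v.2 : ℝ) ≠ 0 := by exact_mod_cast h0
      positivity
  exact (mul_pos_iff_of_pos_left hA).mp h2

lemma Pv.ne_zero {v : V} (hv : Pv v) : v ≠ 0 := by
  rintro rfl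
  obtain ⟨a, b, h⟩ := hv
  simp at h

/-- parallel primitive vectors -/
lemma Pv.cross_ne {A B C : ℝ} {v v' : V} (hA : 0 < A) (hD : 0 < A * C - B ^ 2) (hv : Pv v)
    (hv' : Pv v') (hB : 0 < Bil A B C v v') (hne : v ≠ v') : cross v v' ≠ 0 := by
  intro hc
  obtain ⟨a, b, hab⟩ := hv
  obtain ⟨a', b', hab'⟩ := hv'
  have h0 : v.1 * v'.2 = v.2 * v'.1 := by simp only [cross] at hc; linarith
  set m : ℤ := a * v'.1 + b * v'.2 with hm
  set n : ℤ := a' * v.1 + b' * v.2 with hn
  have e1 : v'.1 = m * v.1 := by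
    rw [hm]; linear_combination (-v'.1) * hab - b * h0
  have e2 : v'.2 = m * v.2 := by
    rw [hm]; linear_combination (-v'.2) * hab + a * h0
  have e3 : m * n = 1 := by
    have : n * m = a' * v'.1 + b' * v'.2 := by rw [e1, e2, hn]; ring
    rw [mul_comm, this, hab']
  have hQ : 0 < Qr A B C v := Q_pos hA hD (Pv.ne_zero ⟨a, b, hab⟩)
  have e4 : Bil A B C v v' = m * Qr A B C v := by
    simp only [Bil, Qr, e1, e2]; push_cast; ring
  have h5 : 0 < (m : ℝ) := by
    rw [e4] at hB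
    exact (mul_pos_iff_of_pos_right hQ).mp hB
  have h6 : 0 < m := by exact_mod_cast h5
  have h7 : m = 1 := by
    rcases Int.isUnit_iff.mp (IsUnit.of_mul_eq_one n e3) with h | h
    · exact h
    · omega
  apply hne
  ext
  · rw [e1, h7, one_mul]
  · rw [e2, h7, one_mul]

/-- one pair -/
lemma one_pair {A B C : ℝ} (hA : 0 < A) (hD : 0 < A * C - B ^ 2) (K L : ℕ) (hK : 0 < K)
    {X : ℝ} (hX0 : 0 < X) (hX : 2 * (A * C - B ^ 2) * (K : ℝ) ^ 4 ≤ X ^ 2) (f : V → ℝ) (v v' : V)
    (hv : Pv v) (hv' : Pv v') (hc0 : 0 < cross v v') (hcK : cross v v' ≤ K)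
    (hB : 0 < Bil A B C v v')
    (h1 : X ≤ Qr A B C v) (h2 : Qr A B C v ≤ L * X) (h3 : X ≤ Qr A B C v')
    (h4 : Qr A B C v' ≤ L * X) (hf : f v ≠ f v') :
    ∃ s t : V, Crit A B C (X / (K : ℝ) ^ 2) (L * X) s t ∧ f s ≠ f t ∧
      |cross v s| ≤ K * (L * K + 2) ∧ |cross v t| ≤ K * (L * K + 2) ∧
      |cross v' s| ≤ K * (L * K + 2) ∧ |cross v' t| ≤ K * (L * K + 2) := by
  obtain ⟨c, hc⟩ := Int.eq_ofNat_of_zero_le hc0.le
  have hKr : (0 : ℝ) < K := by exact_mod_cast hK
  have hL1 : 1 ≤ L := by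
    by_contra hcon
    have : L = 0 := by omega
    rw [this] at h2
    simp only [Nat.cast_zero, zero_mul] at h2
    linarith
  obtain ⟨x, y, hxy, hfxy, hx, hy⟩ := cone (fun v hv => Q_pos hA hD hv.ne_zero) f c v v'
    (by have : (0 : ℤ) < (c : ℤ) := lt_of_lt_of_eq hc0 hc
        exact_mod_cast this) hv hv' hc hB hf
  have hx0 : x ≠ 0 := by rintro rfl; simp [cross] at hxy
  have hy0 : y ≠ 0 := by rintro rfl; simp [cross] at hxy
  obtain ⟨sx1, sx2⟩ := tri_size hX0 hD hc0 hB h1 h2 h3 h4 hx hx0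
  obtain ⟨sy1, sy2⟩ := tri_size hX0 hD hc0 hB h1 h2 h3 h4 hy hy0
  have hBxy := tri_Bil hc0 hB (lt_of_lt_of_le hX0 h1) (lt_of_lt_of_le hX0 h3) hx hy hxy
  have hcr : (0 : ℝ) < ((cross v v' : ℤ) : ℝ) := by exact_mod_cast hc0
  have hcKr : ((cross v v' : ℤ) : ℝ) ≤ K := by exact_mod_cast hcK
  have hc2 : ((cross v v' : ℤ) : ℝ) ^ 2 ≤ (K : ℝ) ^ 2 := pow_le_pow_left₀ hcr.le hcKr 2
  have tx1 : X / (K : ℝ) ^ 2 ≤ Qr A B C x := by
    rw [div_le_iff₀ (by positivity)]
    have := mul_le_mul_of_nonneg_right hc2 (Q_pos hA hD hx0).le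
    linarith
  have ty1 : X / (K : ℝ) ^ 2 ≤ Qr A B C y := by
    rw [div_le_iff₀ (by positivity)]
    have := mul_le_mul_of_nonneg_right hc2 (Q_pos hA hD hy0).le
    linarith
  have hX1 : 0 < X / (K : ℝ) ^ 2 := by positivity
  have hX2 : 2 * (A * C - B ^ 2) ≤ (X / (K : ℝ) ^ 2) ^ 2 := by
    rw [div_pow, le_div_iff₀ (by positivity)]
    calc 2 * (A * C - B ^ 2) * ((K : ℝ) ^ 2) ^ 2 = 2 * (A * C - B ^ 2) * (K : ℝ) ^ 4 := by ring
      _ ≤ X ^ 2 := hX
  -- the bilinear bound
  have hbb : ∀ u w : V, |cross u w| = 1 → X / (K : ℝ) ^ 2 ≤ Qr A B C w → Qr A B C u ≤ L * X →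
      0 < Bil A B C u w → Bil A B C u w ≤ ((L * K : ℕ) : ℝ) * Qr A B C w := by
    intro u w huw hw hu hb
    have hw0 : 0 < Qr A B C w := lt_of_lt_of_le hX1 hw
    have hid := Q_mul A B C u w
    have h5 : Bil A B C u w ^ 2 ≤ Qr A B C u * Qr A B C w := by
      rw [hid]
      have := mul_nonneg hD.le (sq_nonneg ((cross u w : ℤ) : ℝ))
      linarith
    have h6 : L * X ≤ (L * (K : ℝ) ^ 2) * Qr A B C w := by
      have : X ≤ (K : ℝ) ^ 2 * Qr A B C w := by
        rw [div_le_iff₀ (by positivity)] at hw; linarith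
      have hLr : (0 : ℝ) ≤ L := Nat.cast_nonneg _
      nlinarith
    have h7 : Qr A B C u * Qr A B C w ≤ (((L * K : ℕ) : ℝ) * Qr A B C w) ^ 2 := by
      have hLr : (1 : ℝ) ≤ L := by exact_mod_cast hL1
      push_cast
      calc Qr A B C u * Qr A B C w ≤ ((L * (K : ℝ) ^ 2) * Qr A B C w) * Qr A B C w :=
            mul_le_mul_of_nonneg_right (hu.trans h6) hw0.le
        _ = L * ((K : ℝ) ^ 2 * Qr A B C w ^ 2) := by ring
        _ ≤ (L : ℝ) ^ 2 * ((K : ℝ) ^ 2 * Qr A B C w ^ 2) :=
            mul_le_mul_of_nonneg_right (by nlinarith) (by positivity)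
        _ = (L * K * Qr A B C w) ^ 2 := by ring
    exact le_of_sq_le_sq (h5.trans h7) (by positivity)
  -- cross products
  have cx : ∀ z : V, Tri v v' z → |cross v z| ≤ K ∧ |cross v' z| ≤ K := by
    rintro z ⟨g1, g2, g3⟩
    rw [abs_of_nonneg g1, cross_swap v' z, abs_neg, abs_of_nonneg g2]
    constructor <;> linarith
  have hPK : (0 : ℤ) ≤ K := Int.natCast_nonneg _
  have hPL : (0 : ℤ) ≤ L := Int.natCast_nonneg _
  have fin : ∀ u w : V, |cross u w| = 1 → 0 < Bil A B C u w → X / (K : ℝ) ^ 2 ≤ Qr A B C w →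
      Qr A B C w ≤ Qr A B C u → Qr A B C u ≤ L * X → f u ≠ f w → |cross v u| ≤ K ∧ |cross v' u| ≤ K →
      |cross v w| ≤ K ∧ |cross v' w| ≤ K → ∃ s t : V, Crit A B C (X / (K : ℝ) ^ 2) (L * X) s t ∧
      f s ≠ f t ∧ |cross v s| ≤ K * (L * K + 2) ∧ |cross v t| ≤ K * (L * K + 2) ∧
      |cross v' s| ≤ K * (L * K + 2) ∧ |cross v' t| ≤ K * (L * K + 2) := by
    intro u w g1 g2 g3 g4 g5 g6 g7 g8
    obtain ⟨j, hj, s, t, hcr, hst, hs, ht⟩ := descent hD hX1 hX2 f (L * K) u w g1 g2 g3 g4 g5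
      (hbb u w g1 g3 g5 g2) g6
    have bd : ∀ (z : V) (i : ℕ), i ≤ L * K + 1 → |cross z u| ≤ K → |cross z w| ≤ K →
        |cross z (u - (i : ℤ) • w)| ≤ K * (L * K + 2) := by
      intro z i hi k1 k2
      have e1 : cross z (u - (i : ℤ) • w) = cross z u - i * cross z w := by
        simp only [cross, Prod.fst_sub, Prod.snd_sub, Prod.smul_fst, Prod.smul_snd, smul_eq_mul]
        ring
      rw [e1]
      have hi' : (i : ℤ) ≤ L * K + 1 := by exact_mod_cast hi
      have hi0 : (0 : ℤ) ≤ i := Int.natCast_nonneg _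
      calc |cross z u - i * cross z w| ≤ |cross z u| + |(i : ℤ) * cross z w| := abs_sub _ _
        _ = |cross z u| + i * |cross z w| := by rw [abs_mul, abs_of_nonneg hi0]
        _ ≤ K + (L * K + 1) * K := add_le_add k1 (mul_le_mul hi' k2 (abs_nonneg _) (by positivity))
        _ = K * (L * K + 2) := by ring
    have bw : ∀ z : V, |cross z w| ≤ K → |cross z w| ≤ K * (L * K + 2) := by
      intro z hz
      refine hz.trans ?_
      nlinarith [mul_nonneg hPK (mul_nonneg hPL hPK)]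
    refine ⟨s, t, hcr, hst, ?_, ?_, ?_, ?_⟩
    · rw [hs]; exact bd v j (by omega) g7.1 g8.1
    · rcases ht with ht | ht
      · rw [ht]; exact bw v g8.1
      · rw [ht]; exact bd v (j + 1) (by omega) g7.1 g8.1
    · rw [hs]; exact bd v' j (by omega) g7.2 g8.2
    · rcases ht with ht | ht
      · rw [ht]; exact bw v' g8.2
      · rw [ht]; exact bd v' (j + 1) (by omega) g7.2 g8.2
  rcases le_total (Qr A B C y) (Qr A B C x) with hle | hle
  · exact fin x y (by rw [hxy]; norm_num) hBxy ty1 hle sx2 hfxy (cx x hx) (cx y hy)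
  · exact fin y x (by rw [cross_swap, hxy]; norm_num) (by rw [Bil_comm]; exact hBxy) tx1 hle sy2
      (Ne.symm hfxy) (cx y hy) (cx x hx)

/-- the pairs of the conclusion determine the vector -/
lemma det_v {s t v w : V} (hst : |cross s t| = 1) (h1 : cross v s = cross w s)
    (h2 : cross v t = cross w t) : v = w := by
  have e : ∀ z : V, cross s t * z.1 = cross z t * s.1 + cross s z * t.1 := fun z => pl1 s t z
  have e' : ∀ z : V, cross s t * z.2 = cross z t * s.2 + cross s z * t.2 := fun z => pl2 s t z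
  have hne : cross s t ≠ 0 := by
    intro h; rw [h] at hst; simp at hst
  ext
  · apply mul_left_cancel₀ hne
    rw [e v, e w, h2, cross_swap s v, cross_swap s w, h1]
  · apply mul_left_cancel₀ hne
    rw [e' v, e' w, h2, cross_swap s v, cross_swap s w, h1]

/-- **The chain lemma.** -/
theorem chain {A B C : ℝ} (hA : 0 < A) (hD : 0 < A * C - B ^ 2) (K L : ℕ) :
    ∃ (X0 : ℝ) (c : ℕ), ∀ X : ℝ, X0 ≤ X → ∀ (f : V → ℝ) (S : Finset (V × V)),
      (∀ x ∈ S, Pv x.1 ∧ Pv x.2 ∧ |cross x.1 x.2| ≤ K ∧ 0 < Bil A B C x.1 x.2 ∧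
        X ≤ Qr A B C x.1 ∧ Qr A B C x.1 ≤ L * X ∧ X ≤ Qr A B C x.2 ∧ Qr A B C x.2 ≤ L * X ∧
        f x.1 ≠ f x.2) →
      ∃ T : Finset (V × V), S.card ≤ c * T.card ∧
        ∀ y ∈ T, Crit A B C (X / (K : ℝ) ^ 2) (L * X) y.1 y.2 ∧ f y.1 ≠ f y.2 := by
  classical
  set D := A * C - B ^ 2 with hDD
  set P : ℤ := K * (L * K + 2) with hP
  refine ⟨1 + 2 * D * (K : ℝ) ^ 4, ((Icc (-P) P ×ˢ Icc (-P) P) ×ˢ (Icc (-P) P ×ˢ Icc (-P) P)).card,
    ?_⟩
  intro X hX f S hS
  have hX0 : 0 < X := by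
    have : 0 ≤ 2 * D * (K : ℝ) ^ 4 := by positivity
    linarith
  have hX1 : 2 * D * (K : ℝ) ^ 4 ≤ X ^ 2 := by
    have h1 : 1 ≤ X := by
      have : 0 ≤ 2 * D * (K : ℝ) ^ 4 := by positivity
      linarith
    nlinarith
  have key : ∀ x ∈ S, ∃ y : V × V, Crit A B C (X / (K : ℝ) ^ 2) (L * X) y.1 y.2 ∧ f y.1 ≠ f y.2 ∧
      |cross x.1 y.1| ≤ P ∧ |cross x.1 y.2| ≤ P ∧ |cross x.2 y.1| ≤ P ∧ |cross x.2 y.2| ≤ P := by
    intro x hx
    obtain ⟨p1, p2, hcK, hB, q1, q2, q3, q4, hf⟩ := hS x hx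
    have hne : x.1 ≠ x.2 := fun h => hf (by rw [h])
    have hc := p1.cross_ne hA hD p2 hB hne
    have hK : 0 < K := by
      have h1 : 0 < |cross x.1 x.2| := abs_pos.mpr hc
      have h2 : (0 : ℤ) < K := lt_of_lt_of_le h1 hcK
      exact_mod_cast h2
    rcases lt_or_gt_of_ne hc with h | h
    · rw [abs_of_neg h, ← cross_swap] at hcK
      rw [cross_swap] at h
      obtain ⟨s, t, hcr, hst, r1, r2, r3, r4⟩ := one_pair hA hD K L hK hX0 hX1 f x.2 x.1 p2 p1
        (by linarith) hcK (by rw [Bil_comm]; exact hB) q3 q4 q1 q2 (Ne.symm hf)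
      exact ⟨(s, t), hcr, hst, r3, r4, r1, r2⟩
    · rw [abs_of_pos h] at hcK
      obtain ⟨s, t, hcr, hst, r1, r2, r3, r4⟩ := one_pair hA hD K L hK hX0 hX1 f x.1 x.2 p1 p2
        h hcK hB q1 q2 q3 q4 hf
      exact ⟨(s, t), hcr, hst, r1, r2, r3, r4⟩
  choose! φ hφ using key
  refine ⟨S.image φ, ?_, ?_⟩
  · rw [mul_comm]
    refine Finset.card_le_mul_card_image S _ ?_ |>.trans (le_of_eq (mul_comm _ _))
    intro y hy
    refine Finset.card_le_card_of_injOn (fun x => ((cross x.1 y.1, cross x.1 y.2),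
      (cross x.2 y.1, cross x.2 y.2))) ?_ ?_
    · intro x hx
      simp only [Finset.coe_filter, Set.mem_ofPred_eq] at hx
      obtain ⟨hxS, hxy⟩ := hx
      obtain ⟨_, _, g1, g2, g3, g4⟩ := hφ x hxS
      rw [hxy] at g1 g2 g3 g4
      simp only [Finset.coe_product, Finset.coe_Icc, Set.mem_prod, Set.mem_Icc]
      exact ⟨⟨abs_le.mp g1, abs_le.mp g2⟩, ⟨abs_le.mp g3, abs_le.mp g4⟩⟩
    · intro x hx x' hx' hxx
      simp only [Finset.coe_filter, Set.mem_ofPred_eq] at hx hx'
      obtain ⟨hxS, hxy⟩ := hx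
      obtain ⟨hcr, _⟩ := hφ x hxS
      rw [hxy] at hcr
      simp only [Prod.mk.injEq] at hxx
      obtain ⟨⟨a1, a2⟩, ⟨a3, a4⟩⟩ := hxx
      exact Prod.ext (det_v hcr.un a1 a2) (det_v hcr.un a3 a4)
  · intro y hy
    obtain ⟨x, hx, rfl⟩ := Finset.mem_image.mp hy
    exact ⟨(hφ x hx).1, (hφ x hx).2.1⟩

/-- **The chain lemma**, with an improper automorphism: the pairs have `cross = -1`. -/
theorem chain' {A B C : ℝ} (hA : 0 < A) (hD : 0 < A * C - B ^ 2) (K L : ℕ) (σ : V → V)
    (hσQ : ∀ v, Qr A B C (σ v) = Qr A B C v) (hσB : ∀ v w, Bil A B C (σ v) (σ w) = Bil A B C v w)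
    (hσc : ∀ v w, cross (σ v) (σ w) = -cross v w) :
    ∃ (X0 : ℝ) (c : ℕ), ∀ X : ℝ, X0 ≤ X → ∀ (f : V → ℝ) (S : Finset (V × V)),
      (∀ v, f (σ v) = f v) →
      (∀ x ∈ S, Pv x.1 ∧ Pv x.2 ∧ |cross x.1 x.2| ≤ K ∧ 0 < Bil A B C x.1 x.2 ∧
        X ≤ Qr A B C x.1 ∧ Qr A B C x.1 ≤ L * X ∧ X ≤ Qr A B C x.2 ∧ Qr A B C x.2 ≤ L * X ∧
        f x.1 ≠ f x.2) →
      ∃ T : Finset (V × V), S.card ≤ c * T.card ∧
        ∀ y ∈ T, cross y.1 y.2 = -1 ∧ Crit A B C (X / (K : ℝ) ^ 2) (L * X) y.1 y.2 ∧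
          f y.1 ≠ f y.2 := by
  classical
  have hinj : ∀ v w : V, σ v = σ w → ∀ u, cross v u = cross w u := by
    intro v w h u
    have h1 := hσc v u
    have h2 := hσc w u
    rw [h] at h1
    linarith
  have hinj' : ∀ v w : V, σ v = σ w → v = w := by
    intro v w h
    have := hinj v w h
    have a1 := this (0, 1)
    have a2 := this (1, 0)
    simp only [cross] at a1 a2
    ext <;> linarith
  obtain ⟨X0, c, h⟩ := chain hA hD K L
  refine ⟨X0, c * 2, ?_⟩
  intro X hX f S hf hS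
  obtain ⟨T, hT, hT'⟩ := h X hX f S hS
  set ρ : V × V → V × V := fun y => if cross y.1 y.2 = -1 then y else (σ y.1, σ y.2) with hρ
  refine ⟨T.image ρ, ?_, ?_⟩
  · have h2 : T.card ≤ 2 * (T.image ρ).card := by
      refine Finset.card_le_mul_card_image T _ ?_
      intro z _
      have : ({x ∈ T | ρ x = z}) ⊆ ({x ∈ T | cross x.1 x.2 = -1 ∧ x = z}) ∪
          ({x ∈ T | (σ x.1, σ x.2) = z}) := by
        intro x hx
        simp only [Finset.mem_filter, Finset.mem_union] at hx ⊢
        by_cases h0 : cross x.1 x.2 = -1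
        · left
          refine ⟨hx.1, h0, ?_⟩
          have := hx.2
          rw [hρ] at this
          simpa [h0] using this
        · right
          refine ⟨hx.1, ?_⟩
          have := hx.2
          rw [hρ] at this
          simpa [h0] using this
      refine (Finset.card_le_card this).trans ((Finset.card_union_le _ _).trans ?_)
      have c1 : ({x ∈ T | cross x.1 x.2 = -1 ∧ x = z} : Finset (V × V)).card ≤ 1 := by
        rw [Finset.card_le_one]
        intro a ha b hb
        simp only [Finset.mem_filter] at ha hb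
        rw [ha.2.2, hb.2.2]
      have c2 : ({x ∈ T | (σ x.1, σ x.2) = z} : Finset (V × V)).card ≤ 1 := by
        rw [Finset.card_le_one]
        intro a ha b hb
        simp only [Finset.mem_filter] at ha hb
        have := ha.2.trans hb.2.symm
        simp only [Prod.mk.injEq] at this
        exact Prod.ext (hinj' _ _ this.1) (hinj' _ _ this.2)
      omega
    calc S.card ≤ c * T.card := hT
      _ ≤ c * (2 * (T.image ρ).card) := Nat.mul_le_mul_left _ h2
      _ = c * 2 * (T.image ρ).card := by ring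
  · intro y hy
    obtain ⟨x, hx, rfl⟩ := Finset.mem_image.mp hy
    obtain ⟨hc, hff⟩ := hT' x hx
    by_cases h0 : cross x.1 x.2 = -1
    · have : ρ x = x := by rw [hρ]; simp [h0]
      rw [this]
      exact ⟨h0, hc, hff⟩
    · have : ρ x = (σ x.1, σ x.2) := by rw [hρ]; simp [h0]
      rw [this]
      have h1 : cross x.1 x.2 = 1 := by
        rcases (abs_eq (by norm_num : (0 : ℤ) ≤ 1)).mp hc.un with h | h
        · exact h
        · exact absurd h h0
      refine ⟨by rw [hσc, h1], ⟨?_, ?_, ?_, ?_, ?_, ?_, ?_⟩, ?_⟩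
      · rw [hσc, abs_neg]; exact hc.un
      · simp only [hσB, hσQ]; exact hc.lt
      · simp only [hσB, hσQ]; exact hc.le
      · simp only [hσQ]; exact hc.s1
      · simp only [hσQ]; exact hc.s2
      · simp only [hσQ]; exact hc.t1
      · simp only [hσQ]; exact hc.t2
      · simp only [hf]; exact hff

end Pool.Agent.Lib.MP391708.SG
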