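import Pool.Agent.Lib.MP_391708_nt.SG.Spec
import Pool.Agent.Lib.MP_391708_nt.SG.Chain

/-!
# Close pairs: modules CHN and CLO
-/

set_option autoImplicit false

namespace Pool.Agent.Lib.MP391708.SG

open Finset Filter Topology
open Pool.Agent.Lib.MP391708.Eqd (V cross)
open scoped Classical

lemma Qr_eq (F : Fm) (v : V) : Qr F.A F.B F.C v = ((F.q v : ℤ) : ℝ) := by
  simp only [Qr, Fm.q]; push_cast; ring

lemma Bil_eq (F : Fm) (v w : V) : Bil F.A F.B F.C v w = ((F.b v w : ℤ) : ℝ) := by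
  simp only [Bil, Fm.b]; push_cast; ring

/-- CHN -/
theorem specCHN [MA.Sg] (hBAS : SpecBAS) : SpecCHN := by
  intro F hF C K hC hK
  obtain ⟨_, _, _, _, hann, _, hEb, _⟩ := hBAS F hF
  have hA : (0 : ℝ) < (F.A : ℝ) := by exact_mod_cast hF.1
  have hD : (0 : ℝ) < (F.A : ℝ) * F.C - (F.B : ℝ) ^ 2 := by
    have := hF.2
    simp only [Fm.a] at this
    exact_mod_cast this
  obtain ⟨X0, c, h⟩ := chain hA hD K C
  refine ⟨4 * K ^ 2, c, by positivity, ?_⟩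
  filter_upwards [eventually_ge_atTop (⌈X0⌉₊ + 1)] with X hX
  have hX1 : X0 ≤ (X : ℝ) := by
    have h1 : X0 ≤ (⌈X0⌉₊ : ℝ) := Nat.le_ceil _
    have h2 : ((⌈X0⌉₊ + 1 : ℕ) : ℝ) ≤ X := by exact_mod_cast hX
    push_cast at h2
    linarith
  have hX0 : 0 < X := by omega
  obtain ⟨T, hT, hT'⟩ := h X hX1 (fun v => ((F.f v : ℤ) : ℝ))
    ((ann F X (C * X) ×ˢ ann F X (C * X)).filter (fun x =>
      |cross x.1 x.2| ≤ K ∧ 0 < F.b x.1 x.2 ∧ F.f x.1 ≠ F.f x.2)) (by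
    intro x hx
    simp only [Finset.mem_filter, Finset.mem_product, hann] at hx
    obtain ⟨⟨⟨p1, a1, a2⟩, ⟨p2, a3, a4⟩⟩, b1, b2, b3⟩ := hx
    refine ⟨p1, p2, b1, ?_, ?_, ?_, ?_, ?_, ?_⟩
    · rw [Bil_eq]; exact_mod_cast b2
    · rw [Qr_eq]; exact_mod_cast a1.le
    · rw [Qr_eq]; exact_mod_cast a2
    · rw [Qr_eq]; exact_mod_cast a3.le
    · rw [Qr_eq]; exact_mod_cast a4
    · exact_mod_cast b3)
  refine hT.trans (Nat.mul_le_mul_left c (Finset.card_le_card ?_))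
  intro y hy
  obtain ⟨hc, hf⟩ := hT' y hy
  rw [hEb]
  have h1 := hc.lt
  have h2 := hc.le
  have h3 := hc.s1
  have h4 := hc.s2
  rw [Bil_eq, Qr_eq] at h1
  rw [Bil_eq, Qr_eq] at h2
  rw [Qr_eq] at h3 h4
  refine ⟨?_, ?_, by exact_mod_cast h1, by exact_mod_cast h2, by exact_mod_cast h4, ?_⟩
  · rcases (abs_eq (by norm_num : (0 : ℤ) ≤ 1)).mp hc.un with h | h
    · right; exact h
    · left; exact h
  · have hKr : (0 : ℝ) < K := by exact_mod_cast hK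
    have h5 : ((X / (4 * K ^ 2) : ℕ) : ℝ) ≤ (X : ℝ) / (4 * (K : ℝ) ^ 2) := by
      have := @Nat.cast_div_le ℝ _ _ _ X (4 * K ^ 2)
      push_cast at this
      exact this
    have hXr : (0 : ℝ) < X := by exact_mod_cast hX0
    have h6 : (X : ℝ) / (4 * (K : ℝ) ^ 2) < (X : ℝ) / (K : ℝ) ^ 2 / 3 := by
      rw [div_div]
      apply div_lt_div_of_pos_left hXr (by positivity)
      nlinarith [sq_nonneg (K : ℝ), mul_pos hKr hKr]
    have h7 : ((X / (4 * K ^ 2) : ℕ) : ℝ) < ((F.b y.1 y.2 : ℤ) : ℝ) := by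
      have : (X : ℝ) / (K : ℝ) ^ 2 / 3 ≤ ((F.b y.1 y.2 : ℤ) : ℝ) := by linarith
      linarith
    have h8 : ((((X / (4 * K ^ 2) : ℕ) : ℤ)) : ℝ) < ((F.b y.1 y.2 : ℤ) : ℝ) := by
      rw [Int.cast_natCast]; exact h7
    exact Int.cast_lt.mp h8
  · intro h0
    apply hf
    simp only [h0]

/-- CLO -/
theorem specCLO [MA.Sg] (hBAS : SpecBAS) (hCHN : SpecCHN) : SpecCLO := by
  intro F hF C K hC hK δ hδ
  obtain ⟨hid, _, hqpos, _, hann, _, _, _, _, _, hneg, _⟩ := hBAS F hF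
  obtain ⟨D, c, hD, h⟩ := hCHN F hF C K hC hK
  refine ⟨D, δ / (2 * c + 1), hD, by positivity, ?_⟩
  filter_upwards [h, eventually_ge_atTop (F.a.natAbs * K ^ 2 + 1)] with X hX hXK hE
  set P := (ann F X (C * X) ×ˢ ann F X (C * X)).filter (fun x =>
      |cross x.1 x.2| ≤ K ∧ 0 < F.b x.1 x.2 ∧ F.f x.1 ≠ F.f x.2) with hP
  have hb0 : ∀ x ∈ (ann F X (C * X) ×ˢ ann F X (C * X)), |cross x.1 x.2| ≤ K →
      F.b x.1 x.2 ≠ 0 := by
    intro x hx hcr h0
    simp only [Finset.mem_product, hann] at hx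
    obtain ⟨⟨_, a1, _⟩, ⟨_, a3, _⟩⟩ := hx
    have e := hid x.1 x.2
    rw [h0] at e
    have h1 : cross x.1 x.2 ^ 2 ≤ (K : ℤ) ^ 2 := by
      rw [← sq_abs]
      exact pow_le_pow_left₀ (abs_nonneg _) hcr 2
    have ha : (0 : ℤ) < F.a := hF.2
    have h2 : F.a * cross x.1 x.2 ^ 2 ≤ F.a * (K : ℤ) ^ 2 := mul_le_mul_of_nonneg_left h1 ha.le
    have h3 : F.a * (K : ℤ) ^ 2 < X := by
      have : ((F.a.natAbs * K ^ 2 + 1 : ℕ) : ℤ) ≤ X := by exact_mod_cast hXK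
      push_cast at this
      rw [abs_of_pos ha] at this
      linarith
    have h4 : (0 : ℤ) < X := by nlinarith [sq_nonneg (K : ℤ)]
    have h5 : (X : ℤ) * X ≤ F.q x.1 * F.q x.2 := mul_le_mul a1.le a3.le h4.le (h4.le.trans a1.le)
    have h6 : (X : ℤ) ≤ X * X := by nlinarith
    nlinarith
  have hsub : ((ann F X (C * X) ×ˢ ann F X (C * X)).filter (fun x =>
      |cross x.1 x.2| ≤ K ∧ F.f x.1 ≠ F.f x.2)) ⊆ P ∪ P.image (fun x => (x.1, -x.2)) := by
    intro x hx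
    simp only [Finset.mem_filter] at hx
    obtain ⟨hx1, hx2, hx3⟩ := hx
    have hb := hb0 x hx1 hx2
    rcases lt_or_gt_of_ne hb with hlt | hgt
    · rw [Finset.mem_union]; right
      rw [Finset.mem_image]
      refine ⟨(x.1, -x.2), ?_, by simp⟩
      rw [hP, Finset.mem_filter]
      simp only [Finset.mem_product, hann] at hx1 ⊢
      obtain ⟨hp1, ⟨p2, a3, a4⟩⟩ := hx1
      have eq : F.q (-x.2) = F.q x.2 := by
        simp only [Fm.q, Prod.fst_neg, Prod.snd_neg]; ring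
      have ec : cross x.1 (-x.2) = -cross x.1 x.2 := by
        simp only [cross, Prod.fst_neg, Prod.snd_neg]; ring
      have eb : F.b x.1 (-x.2) = -F.b x.1 x.2 := by
        simp only [Fm.b, Prod.fst_neg, Prod.snd_neg]; ring
      refine ⟨⟨hp1, ⟨?_, ?_, ?_⟩⟩, ?_, ?_, ?_⟩
      · obtain ⟨u, w, huw⟩ := p2
        exact ⟨-u, -w, by simp only [Prod.fst_neg, Prod.snd_neg]; linarith⟩
      · rw [eq]; exact a3
      · rw [eq]; exact a4
      · rw [ec, abs_neg]; exact hx2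
      · rw [eb]; linarith
      · rw [hneg]; exact hx3
    · rw [Finset.mem_union]; left
      rw [hP, Finset.mem_filter]
      exact ⟨hx1, hx2, hgt, hx3⟩
  have hcard : ((ann F X (C * X) ×ˢ ann F X (C * X)).filter (fun x =>
      |cross x.1 x.2| ≤ K ∧ F.f x.1 ≠ F.f x.2)).card ≤ 2 * (c * (Eb F (X / D) (C * X)).card) := by
    refine (Finset.card_le_card hsub).trans ((Finset.card_union_le _ _).trans ?_)
    have := Finset.card_image_le (s := P) (f := fun x : V × V => (x.1, -x.2))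
    omega
  have hcr : (((ann F X (C * X) ×ˢ ann F X (C * X)).filter (fun x =>
      |cross x.1 x.2| ≤ K ∧ F.f x.1 ≠ F.f x.2)).card : ℝ) ≤
      2 * (c * ((Eb F (X / D) (C * X)).card : ℝ)) := by exact_mod_cast hcard
  refine hcr.trans ?_
  have hc0 : (0 : ℝ) ≤ c := Nat.cast_nonneg _
  have h1 : c * ((Eb F (X / D) (C * X)).card : ℝ) ≤ c * (δ / (2 * c + 1) * X) :=
    mul_le_mul_of_nonneg_left hE hc0
  have h2 : 2 * (c * (δ / (2 * c + 1) * X)) ≤ δ * X := by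
    have h3 : 2 * c * (δ / (2 * c + 1)) ≤ δ := by
      rw [mul_div_assoc', div_le_iff₀ (by positivity)]
      nlinarith
    have hXr : (0 : ℝ) ≤ X := Nat.cast_nonneg _
    calc 2 * (c * (δ / (2 * c + 1) * X)) = (2 * c * (δ / (2 * c + 1))) * X := by ring
      _ ≤ δ * X := mul_le_mul_of_nonneg_right h3 hXr
  linarith

end Pool.Agent.Lib.MP391708.SG
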