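import Pool.Agent.Lib.MP_391708_nt.SG.Spec

/-!
# DYA: dyadic decomposition and the improper automorphism
-/

set_option autoImplicit false

namespace Pool.Agent.Lib.MP391708.SG

open Finset Filter Topology
open Pool.Agent.Lib.MP391708.Eqd (V cross)
open scoped Classical

theorem specDYA [MA.Sg] (hBAS : SpecBAS) : SpecDYA := by
  intro F hF hA hE
  obtain ⟨C, D, ε, hC, hD, hε, hev⟩ := hE
  obtain ⟨-, -, -, -, -, hG, hEb, -, -, hf, -, hfl⟩ := hBAS F hF
  obtain ⟨s, hsi, hsc, hsb⟩ := hA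
  have hsq : ∀ v, F.q (s v) = F.q v := by
    intro v
    have h := hsb v v
    have e1 : ∀ u, F.b u u = F.q u := fun u => by unfold Fm.b Fm.q; ring
    rw [e1, e1] at h
    exact h
  obtain ⟨J, hJ⟩ : ∃ J : ℕ, 2 * C * D ≤ 2 ^ J := ⟨2 * C * D, Nat.lt_two_pow_self.le⟩
  have hJ0 : 0 < J := by
    rcases Nat.eq_zero_or_pos J with h | h
    · rw [h] at hJ
      have : 0 < C * D := Nat.mul_pos hC hD
      have : 2 * C * D = 2 * (C * D) := by ring
      omega
    · exact h
  refine ⟨4 * C * D, ε / (4 * C * J), by positivity, by positivity, ?_⟩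
  -- `X = N / C`
  obtain ⟨X₀, hX₀⟩ := eventually_atTop.1 hev
  refine eventually_atTop.2 ⟨C * (X₀ + 2 * D + 2), fun N hN => ?_⟩
  set X := N / C with hX
  have hXC : C * X ≤ N := by rw [hX]; exact Nat.mul_div_le N C
  have hXC' : N < C * (X + 1) := by
    rw [hX]
    have := Nat.lt_mul_div_succ N hC
    exact this
  have hXlb : X₀ + 2 * D + 2 ≤ X := by
    rw [hX, Nat.le_div_iff_mul_le hC]
    rw [mul_comm]; exact hN
  have hX2 : N ≤ 2 * C * X := by nlinarith
  have hcard := hX₀ X (by omega)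
  -- `Y = X / D`
  set Y := X / D with hY
  have hYD : X ≤ 2 * D * Y := by
    have h1 := Nat.lt_mul_div_succ X hD
    rw [← hY] at h1
    have h2 : D * (Y + 1) = D * Y + D := by ring
    have h3 : 2 * D * Y = D * Y + D * Y := by ring
    have h4 : D ≤ D * Y := by
      by_contra h
      push Not at h
      omega
    omega
  have hYle : Y ≤ X := Nat.div_le_self _ _
  -- pigeonhole
  set E := Eb F Y (C * X) with hEdef
  set P : ℕ → Finset (V × V) := fun j =>
    E.filter (fun x => ((2 ^ j * Y : ℕ) : ℤ) < F.b x.1 x.2 ∧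
      F.b x.1 x.2 ≤ 2 * ((2 ^ j * Y : ℕ) : ℤ)) with hP
  have hcov : E ⊆ (range J).biUnion P := by
    intro x hx
    have hx' := (hEb x Y (C * X)).1 hx
    obtain ⟨-, h1, h2, -, h4, -⟩ := hx'
    have hbpos : 0 ≤ F.b x.1 x.2 := le_trans (by positivity) h1.le
    obtain ⟨m, hm⟩ := Int.eq_ofNat_of_zero_le hbpos
    have hm1 : Y < m := by rw [hm] at h1; exact_mod_cast h1
    have hm2 : m < C * X := by
      have : (m : ℤ) < (C * X : ℕ) := by rw [← hm]; exact lt_of_lt_of_le h2 h4
      exact_mod_cast this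
    have hYJ : C * X ≤ 2 ^ J * Y := by
      calc C * X ≤ C * (2 * D * Y) := Nat.mul_le_mul_left _ hYD
        _ = 2 * C * D * Y := by ring
        _ ≤ 2 ^ J * Y := Nat.mul_le_mul_right _ hJ
    -- least `j` with `m ≤ 2 ^ (j+1) Y`
    have hex : ∃ j, m ≤ 2 ^ j * Y := ⟨J, by omega⟩
    set k := Nat.find hex with hk
    have hk1 : m ≤ 2 ^ k * Y := Nat.find_spec hex
    have hk0 : k ≠ 0 := by
      intro h
      rw [h] at hk1
      simp at hk1
      omega
    have hkJ : k ≤ J := Nat.find_min' hex (by omega)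
    obtain ⟨j, hj⟩ := Nat.exists_eq_succ_of_ne_zero hk0
    have hj1 : 2 ^ j * Y < m := by
      have := Nat.find_min hex (m := j) (by rw [← hk]; omega)
      omega
    rw [mem_biUnion]
    refine ⟨j, mem_range.2 (by omega), ?_⟩
    rw [hP]
    simp only [mem_filter]
    refine ⟨hx, ?_, ?_⟩
    · rw [hm]; exact_mod_cast hj1
    · rw [hm]
      rw [hj] at hk1
      have : m ≤ 2 * (2 ^ j * Y) := by
        calc m ≤ 2 ^ j.succ * Y := hk1
          _ = 2 * (2 ^ j * Y) := by rw [pow_succ]; ring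
      exact_mod_cast this
  have hXpos : (0 : ℝ) < X := by
    have : 0 < X := by omega
    exact_mod_cast this
  have hex : ∃ j ∈ range J, ε * X / J ≤ ((P j).card : ℝ) := by
    by_contra hcon
    push Not at hcon
    have h1 : (E.card : ℝ) ≤ ∑ j ∈ range J, ((P j).card : ℝ) := by
      have := (card_le_card hcov).trans card_biUnion_le
      exact_mod_cast this
    have h2 : ∑ j ∈ range J, ((P j).card : ℝ) < ∑ j ∈ range J, ε * X / J :=
      Finset.sum_lt_sum_of_nonempty ⟨0, mem_range.2 hJ0⟩ hcon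
    have h3 : ∑ j ∈ range J, ε * X / J = ε * X := by
      rw [sum_const, card_range, nsmul_eq_mul]
      have : (J : ℝ) ≠ 0 := by exact_mod_cast hJ0.ne'
      field_simp
    linarith
  obtain ⟨j, -, hj⟩ := hex
  set N' := 2 ^ j * Y with hN'
  have hJR : (0 : ℝ) < J := by exact_mod_cast hJ0
  have hCR : (0 : ℝ) < C := by exact_mod_cast hC
  have hpos : (0 : ℝ) < ((P j).card : ℝ) := lt_of_lt_of_le (by positivity) hj
  have hne : (P j).Nonempty := by
    rw [← card_pos]
    exact_mod_cast hpos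
  have hN'N : N' ≤ N := by
    obtain ⟨x, hx⟩ := hne
    rw [hP] at hx
    simp only [mem_filter] at hx
    obtain ⟨hx, h1, -⟩ := hx
    obtain ⟨-, -, h2, -, h4, -⟩ := (hEb x Y (C * X)).1 hx
    have : ((2 ^ j * Y : ℕ) : ℤ) < (C * X : ℕ) := lt_of_lt_of_le (h1.trans h2) h4
    have : 2 ^ j * Y < C * X := by exact_mod_cast this
    omega
  have hYN' : Y ≤ N' := by
    rw [hN']
    exact Nat.le_mul_of_pos_left _ (by positivity)
  refine ⟨N', ?_, hN'N, ?_⟩
  · calc N ≤ 2 * C * X := hX2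
      _ ≤ 2 * C * (2 * D * Y) := Nat.mul_le_mul_left _ hYD
      _ = 4 * C * D * Y := by ring
      _ ≤ 4 * C * D * N' := Nat.mul_le_mul_left _ hYN'
  -- the two orientations
  set G := (G1 F N').filter (fun x => lam (F.b x.1 x.2 ^ 2 + F.a) = -1) with hGdef
  have hsign : ∀ x : V × V, (cross x.1 x.2 = -1 ∨ cross x.1 x.2 = 1) → F.f x.1 ≠ F.f x.2 →
      lam (F.b x.1 x.2 ^ 2 + F.a) = -1 := by
    intro x hx hne
    rw [← hfl x.1 x.2 hx.symm]
    rcases hf x.1 with h1 | h1 <;> rcases hf x.2 with h2 | h2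
    · exact absurd (h1.trans h2.symm) hne
    · rw [h1, h2]; norm_num
    · rw [h1, h2]; norm_num
    · exact absurd (h1.trans h2.symm) hne
  have hA1 : ((P j).filter (fun x => cross x.1 x.2 = -1)).card ≤ G.card := by
    apply card_le_card
    intro x hx
    rw [mem_filter] at hx
    obtain ⟨hx, hc⟩ := hx
    rw [hP] at hx
    simp only [mem_filter] at hx
    obtain ⟨hx, h1, h2⟩ := hx
    obtain ⟨g1, -, g3, g4, -, g6⟩ := (hEb x Y (C * X)).1 hx
    rw [hGdef, mem_filter]
    exact ⟨(hG x N').2 ⟨hc, h1, h2, g3, g4⟩, hsign x g1 g6⟩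
  have hA2 : ((P j).filter (fun x => ¬ cross x.1 x.2 = -1)).card ≤ G.card := by
    apply card_le_card_of_injOn (fun x => (s x.1, s x.2))
    · intro x hx
      rw [mem_coe, mem_filter] at hx
      obtain ⟨hx, hc⟩ := hx
      rw [hP] at hx
      simp only [mem_filter] at hx
      obtain ⟨hx, h1, h2⟩ := hx
      obtain ⟨g1, -, g3, g4, -, g6⟩ := (hEb x Y (C * X)).1 hx
      have hc1 : cross x.1 x.2 = 1 := by tauto
      rw [mem_coe, hGdef, mem_filter]
      refine ⟨(hG _ N').2 ⟨?_, ?_, ?_, ?_, ?_⟩, ?_⟩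
      · simp only [hsc, hc1]
      · simp only [hsb]; exact h1
      · simp only [hsb]; exact h2
      · simp only [hsb, hsq]; exact g3
      · simp only [hsb, hsq]; exact g4
      · simp only [hsb]; exact hsign x g1 g6
    · intro x _ y _ hxy
      simp only [Prod.mk.injEq] at hxy
      exact Prod.ext (hsi hxy.1) (hsi hxy.2)
  have hsplit : (P j).card = ((P j).filter (fun x => cross x.1 x.2 = -1)).card +
      ((P j).filter (fun x => ¬ cross x.1 x.2 = -1)).card :=
    (card_filter_add_card_filter_not _).symm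
  have hPG : ((P j).card : ℝ) ≤ 2 * (G.card : ℝ) := by
    have : (P j).card ≤ 2 * G.card := by omega
    exact_mod_cast this
  have hN'X : (N' : ℝ) ≤ 2 * C * X := by
    have : N' ≤ 2 * C * X := hN'N.trans hX2
    exact_mod_cast this
  calc ε / (4 * C * J) * N' ≤ ε / (4 * C * J) * (2 * C * X) :=
        mul_le_mul_of_nonneg_left hN'X (by positivity)
    _ = ε * X / J / 2 := by field_simp; ring
    _ ≤ (G.card : ℝ) := by linarith

end Pool.Agent.Lib.MP391708.SG
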