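import Pool.Agent.Lib.MP_391708_nt.SG.Spec

/-!
# Group S, FEJ: the Fejér kernel
-/

set_option autoImplicit false

namespace Pool.Agent.Lib.MP391708.SG

open Finset Filter Topology
open Pool.Agent.Lib.MP391708.Eqd (V cross)
open scoped Classical ComplexConjugate

noncomputable section

namespace FejM

variable {α : Type*}

/-- the kernel -/
def ker (u : α → ℂ) (J : ℕ) (v w : α) : ℝ :=
  ‖∑ l ∈ range J, ((u v * conj (u w)) ^ 2) ^ l‖ ^ 2

lemma ker_nonneg (u : α → ℂ) (J : ℕ) (v w : α) : 0 ≤ ker u J v w := by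
  unfold ker; positivity

def Su (A : Finset α) (f : α → ℝ) (u : α → ℂ) (k : ℤ) : ℂ := ∑ v ∈ A, (f v : ℂ) * u v ^ k

lemma conj_inv {z : ℂ} (hz : ‖z‖ = 1) : conj z = z⁻¹ := by
  rw [Complex.inv_def, Complex.normSq_eq_norm_sq, hz]
  simp

lemma ker_eq {u : α → ℂ} (J : ℕ) {v w : α} (hv : ‖u v‖ = 1) (hw : ‖u w‖ = 1) :
    ((ker u J v w : ℝ) : ℂ) = ∑ l ∈ range J, ∑ l' ∈ range J,
      u v ^ (2 * ((l : ℤ) - l')) * conj (u w ^ (2 * ((l : ℤ) - l'))) := by
  have hv0 : u v ≠ 0 := fun h => by rw [h, norm_zero] at hv; exact zero_ne_one hv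
  have hw0 : u w ≠ 0 := fun h => by rw [h, norm_zero] at hw; exact zero_ne_one hw
  unfold ker
  rw [← Complex.normSq_eq_norm_sq, Complex.normSq_eq_conj_mul_self, mul_comm, map_sum, sum_mul_sum]
  refine sum_congr rfl fun l _ => sum_congr rfl fun l' _ => ?_
  have hcw := conj_inv hw
  have hcv := conj_inv hv
  simp only [map_pow, map_mul, map_zpow₀, Complex.conj_conj]
  simp only [hcw, hcv]
  rw [mul_sub, zpow_sub₀ hv0, zpow_sub₀ (inv_ne_zero hw0)]
  simp only [zpow_mul, zpow_natCast, zpow_ofNat]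
  have a1 : (u v)⁻¹ ^ 2 * u v ^ 2 = 1 := by field_simp
  have a2 : (u w)⁻¹ ^ 2 * u w ^ 2 = 1 := by field_simp
  simp only [mul_pow, inv_pow, div_eq_mul_inv, inv_inv]
  ring

lemma sum_ker (A : Finset α) (f : α → ℝ) (u : α → ℂ) (hu : ∀ v ∈ A, ‖u v‖ = 1) (J : ℕ) :
    ∑ v ∈ A, ∑ w ∈ A, f v * f w * ker u J v w =
      ∑ l ∈ range J, ∑ l' ∈ range J, ‖Su A f u (2 * ((l : ℤ) - l'))‖ ^ 2 := by
  have h1 : ((∑ v ∈ A, ∑ w ∈ A, f v * f w * ker u J v w : ℝ) : ℂ) =
      ∑ v ∈ A, ∑ w ∈ A, ∑ l ∈ range J, ∑ l' ∈ range J,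
        ((f v : ℂ) * u v ^ (2 * ((l : ℤ) - l'))) * (f w * conj (u w ^ (2 * ((l : ℤ) - l')))) := by
    push_cast
    refine sum_congr rfl fun v hv => sum_congr rfl fun w hw => ?_
    rw [ker_eq J (hu v hv) (hu w hw), mul_sum]
    refine sum_congr rfl fun l _ => ?_
    rw [mul_sum]
    refine sum_congr rfl fun l' _ => ?_
    ring
  have h2 : ((∑ l ∈ range J, ∑ l' ∈ range J, ‖Su A f u (2 * ((l : ℤ) - l'))‖ ^ 2 : ℝ) : ℂ) =
      ∑ l ∈ range J, ∑ l' ∈ range J, ∑ v ∈ A, ∑ w ∈ A,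
        ((f v : ℂ) * u v ^ (2 * ((l : ℤ) - l'))) * (f w * conj (u w ^ (2 * ((l : ℤ) - l')))) := by
    push_cast
    refine sum_congr rfl fun l _ => sum_congr rfl fun l' _ => ?_
    rw [← Complex.ofReal_pow, ← Complex.normSq_eq_norm_sq, Complex.normSq_eq_conj_mul_self, mul_comm]
    unfold Su
    rw [map_sum, sum_mul_sum]
    refine sum_congr rfl fun v _ => sum_congr rfl fun w _ => ?_
    rw [map_mul, Complex.conj_ofReal]
  have h3 : ((∑ v ∈ A, ∑ w ∈ A, f v * f w * ker u J v w : ℝ) : ℂ) =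
      ((∑ l ∈ range J, ∑ l' ∈ range J, ‖Su A f u (2 * ((l : ℤ) - l'))‖ ^ 2 : ℝ) : ℂ) := by
    rw [h1, h2]
    calc _ = ∑ v ∈ A, ∑ l ∈ range J, ∑ w ∈ A, ∑ l' ∈ range J,
          ((f v : ℂ) * u v ^ (2 * ((l : ℤ) - l'))) *
            (f w * conj (u w ^ (2 * ((l : ℤ) - l')))) :=
          sum_congr rfl fun v _ => sum_comm
      _ = ∑ l ∈ range J, ∑ v ∈ A, ∑ w ∈ A, ∑ l' ∈ range J,
          ((f v : ℂ) * u v ^ (2 * ((l : ℤ) - l'))) *
            (f w * conj (u w ^ (2 * ((l : ℤ) - l')))) := sum_comm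
      _ = ∑ l ∈ range J, ∑ v ∈ A, ∑ l' ∈ range J, ∑ w ∈ A,
          ((f v : ℂ) * u v ^ (2 * ((l : ℤ) - l'))) *
            (f w * conj (u w ^ (2 * ((l : ℤ) - l')))) :=
          sum_congr rfl fun l _ => sum_congr rfl fun v _ => sum_comm
      _ = _ := sum_congr rfl fun l _ => sum_comm
  exact_mod_cast h3

lemma dbl_le (g : ℤ → ℝ) (hg : ∀ k, 0 ≤ g k) (J M : ℕ) (h : 2 * J ≤ M) :
    ∑ l ∈ range J, ∑ l' ∈ range J, g (2 * ((l : ℤ) - l')) ≤
      J * (g 0 + ∑ k ∈ (Icc (-(M : ℤ)) M).filter (fun k => k ≠ 0), g k) := by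
  have h1 : ∀ l ∈ range J, ∑ l' ∈ range J, g (2 * ((l : ℤ) - l')) ≤
      g 0 + ∑ k ∈ (Icc (-(M : ℤ)) M).filter (fun k => k ≠ 0), g k := by
    intro l hl
    rw [mem_range] at hl
    have hinj : Set.InjOn (fun l' : ℕ => 2 * ((l : ℤ) - l')) (range J) := by
      intro x _ y _ hxy
      simp only at hxy
      omega
    rw [← sum_image (f := g) (g := fun l' : ℕ => 2 * ((l : ℤ) - l')) hinj]
    have hsub : (range J).image (fun l' : ℕ => 2 * ((l : ℤ) - l')) ⊆ Icc (-(M : ℤ)) M := by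
      intro k hk
      rw [mem_image] at hk
      obtain ⟨l', hl', rfl⟩ := hk
      rw [mem_range] at hl'
      rw [mem_Icc]
      constructor <;> omega
    refine (sum_le_sum_of_subset_of_nonneg hsub (fun k _ _ => hg k)).trans (le_of_eq ?_)
    have h0 : (0 : ℤ) ∈ Icc (-(M : ℤ)) M := by rw [mem_Icc]; constructor <;> omega
    rw [← add_sum_erase _ _ h0]
    congr 1
    refine sum_congr ?_ fun _ _ => rfl
    ext k
    simp only [mem_erase, mem_filter]
    tauto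
  refine (sum_le_sum h1).trans (le_of_eq ?_)
  rw [sum_const, card_range, nsmul_eq_mul]

lemma le_dbl (g : ℤ → ℝ) (hg : ∀ k, 0 ≤ g k) (J : ℕ) :
    J * g 0 ≤ ∑ l ∈ range J, ∑ l' ∈ range J, g (2 * ((l : ℤ) - l')) := by
  have h1 : ∀ l ∈ range J, g 0 ≤ ∑ l' ∈ range J, g (2 * ((l : ℤ) - l')) := by
    intro l hl
    have := single_le_sum (f := fun l' : ℕ => g (2 * ((l : ℤ) - l'))) (fun l' _ => hg _) hl
    simpa using this
  refine (le_of_eq ?_).trans (sum_le_sum h1)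
  rw [sum_const, card_range, nsmul_eq_mul]

lemma ker_le {u : α → ℂ} (J : ℕ) {v w : α} (hv : ‖u v‖ = 1) (hw : ‖u w‖ = 1) :
    ker u J v w ≤ (J : ℝ) ^ 2 := by
  unfold ker
  have h1 : ‖∑ l ∈ range J, ((u v * conj (u w)) ^ 2) ^ l‖ ≤ J := by
    refine (norm_sum_le _ _).trans (le_of_eq ?_)
    simp [hv, hw]
  exact pow_le_pow_left₀ (norm_nonneg _) h1 2

lemma ker_im {u : α → ℂ} (J : ℕ) {v w : α} (hv : ‖u v‖ = 1) (hw : ‖u w‖ = 1) :
    ker u J v w * (u v * conj (u w)).im ^ 2 ≤ 1 := by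
  set ρ : ℂ := u v * conj (u w) with hρ
  have hρ1 : ‖ρ‖ = 1 := by rw [hρ, norm_mul, RCLike.norm_conj, hv, hw, one_mul]
  have h1 : (∑ l ∈ range J, (ρ ^ 2) ^ l) * (ρ ^ 2 - 1) = (ρ ^ 2) ^ J - 1 := geom_sum_mul _ _
  have h2 : ρ ^ 2 - 1 = ρ * (2 * Complex.I * (ρ.im : ℂ)) := by
    have h3 : ρ * conj ρ = 1 := by
      rw [Complex.mul_conj, Complex.normSq_eq_norm_sq, hρ1]; simp
    have h4 : ρ - conj ρ = 2 * Complex.I * (ρ.im : ℂ) := by
      rw [Complex.sub_conj]; push_cast; ring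
    rw [← h4, mul_sub, h3]; ring
  have h3 : ‖ρ ^ 2 - 1‖ = 2 * |ρ.im| := by
    rw [h2, norm_mul, hρ1, one_mul, norm_mul, norm_mul, Complex.norm_I, Complex.norm_real]
    simp
  have h4 : ‖(ρ ^ 2) ^ J - 1‖ ≤ 2 := by
    refine (norm_sub_le _ _).trans ?_
    rw [norm_pow, norm_pow, hρ1]
    norm_num
  have h5 : ‖∑ l ∈ range J, (ρ ^ 2) ^ l‖ * |ρ.im| ≤ 1 := by
    have := congrArg (fun z : ℂ => ‖z‖) h1
    simp only [norm_mul] at this
    rw [h3] at this
    linarith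
  unfold ker
  rw [← hρ]
  calc ‖∑ l ∈ range J, (ρ ^ 2) ^ l‖ ^ 2 * ρ.im ^ 2 =
      (‖∑ l ∈ range J, (ρ ^ 2) ^ l‖ * |ρ.im|) ^ 2 := by rw [mul_pow _ |ρ.im| 2, sq_abs]
    _ ≤ 1 ^ 2 := pow_le_pow_left₀ (by positivity) h5 2
    _ = 1 := one_pow 2

end FejM

open FejM

/-- the sum over the far vectors -/
lemma far_sum (A : Finset V) (v : V) (K m : ℕ) (hK : 0 < K)
    (h : ∀ c : ℤ, (A.filter (fun w => cross v w = c)).card ≤ m) :
    ∑ w ∈ A.filter (fun w => ¬ |cross v w| ≤ K), (((cross v w : ℤ) : ℝ) ^ 2)⁻¹ ≤ 2 * m / K := by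
  set M : ℕ := K + ∑ w ∈ A, (cross v w).natAbs with hM
  set A' := A.filter (fun w => ¬ |cross v w| ≤ K) with hA'
  have hmaps : ∀ w ∈ A', (cross v w).natAbs ∈ Ioc K M := by
    intro w hw
    rw [hA', mem_filter] at hw
    rw [mem_Ioc]
    constructor
    · have := hw.2
      rw [Int.abs_eq_natAbs] at this
      omega
    · have : (cross v w).natAbs ≤ ∑ w ∈ A, (cross v w).natAbs :=
        single_le_sum (f := fun w => (cross v w).natAbs) (fun _ _ => Nat.zero_le _) hw.1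
      omega
  rw [← sum_fiberwise_of_maps_to hmaps]
  have h1 : ∀ i ∈ Ioc K M, ∑ w ∈ A'.filter (fun w => (cross v w).natAbs = i),
      (((cross v w : ℤ) : ℝ) ^ 2)⁻¹ ≤ 2 * m * ((i : ℝ) ^ 2)⁻¹ := by
    intro i _
    have h2 : ∀ w ∈ A'.filter (fun w => (cross v w).natAbs = i),
        (((cross v w : ℤ) : ℝ) ^ 2)⁻¹ = ((i : ℝ) ^ 2)⁻¹ := by
      intro w hw
      rw [mem_filter] at hw
      have h3 : ((cross v w : ℤ) : ℝ) ^ 2 = (i : ℝ) ^ 2 := by
        have : (cross v w) ^ 2 = (i : ℤ) ^ 2 := by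
          rw [← hw.2]; exact (Int.natAbs_sq _).symm
        exact_mod_cast this
      rw [h3]
    rw [sum_congr rfl h2, sum_const, nsmul_eq_mul]
    refine mul_le_mul_of_nonneg_right ?_ (by positivity)
    have h4 : A'.filter (fun w => (cross v w).natAbs = i) ⊆
        A.filter (fun w => cross v w = (i : ℤ)) ∪ A.filter (fun w => cross v w = -(i : ℤ)) := by
      intro w hw
      rw [mem_filter, hA', mem_filter] at hw
      rw [mem_union, mem_filter, mem_filter]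
      have h5 := hw.2
      rcases Int.natAbs_eq (cross v w) with h6 | h6
      · left; exact ⟨hw.1.1, by rw [h6, h5]⟩
      · right; exact ⟨hw.1.1, by rw [h6, h5]⟩
    have h5 := (card_le_card h4).trans (card_union_le _ _)
    have h6 := h (i : ℤ)
    have h7 := h (-(i : ℤ))
    have : (A'.filter (fun w => (cross v w).natAbs = i)).card ≤ 2 * m := by omega
    exact_mod_cast this
  refine (sum_le_sum h1).trans ?_
  rw [← mul_sum]
  have h2 : ∑ i ∈ Ioc K M, ((i : ℝ) ^ 2)⁻¹ ≤ (K : ℝ)⁻¹ - (M : ℝ)⁻¹ :=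
    sum_Ioc_inv_sq_le_sub (by omega) (by omega)
  have h3 : (0 : ℝ) ≤ (M : ℝ)⁻¹ := by positivity
  have h4 : ∑ i ∈ Ioc K M, ((i : ℝ) ^ 2)⁻¹ ≤ (K : ℝ)⁻¹ := by linarith
  calc 2 * (m : ℝ) * ∑ i ∈ Ioc K M, ((i : ℝ) ^ 2)⁻¹ ≤ 2 * m * (K : ℝ)⁻¹ :=
        mul_le_mul_of_nonneg_left h4 (by positivity)
    _ = 2 * m / K := by rw [div_eq_mul_inv]

lemma fej_arith {n p m J X κ W : ℝ} (hn : n = p + m) (hp : 0 ≤ p) (_hm : 0 ≤ m) (hJ : 0 < J)
    (hX : 0 ≤ X) (hκ : 0 < κ) (h2J : 2 * J ≤ X)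
    (hW : 2 * (n * W) ≤ J * (κ ^ 2 * X ^ 2))
    (h : J * n ^ 2 ≤ J * ((p - m) ^ 2 + κ ^ 2 * X ^ 2) + 2 * (J ^ 2 * (κ ^ 2 * X) + n * W)) :
    p ≤ κ * X ∨ m ≤ κ * X := by
  have h1 : 2 * J * (J * κ ^ 2 * X) ≤ X * (J * κ ^ 2 * X) :=
    mul_le_mul_of_nonneg_right h2J (by positivity)
  have h2 : J * n ^ 2 ≤ J * ((p - m) ^ 2 + 3 * (κ ^ 2 * X ^ 2)) := by nlinarith
  have h3 : n ^ 2 ≤ (p - m) ^ 2 + 3 * (κ ^ 2 * X ^ 2) := le_of_mul_le_mul_left h2 hJ
  have h4 : 4 * (p * m) ≤ 3 * (κ * X) ^ 2 := by rw [hn] at h3; nlinarith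
  have h0 : 0 ≤ κ * X := by positivity
  by_contra hcon
  push Not at hcon
  have h5 : (κ * X) * (κ * X) ≤ p * m := mul_le_mul hcon.1.le hcon.2.le h0 hp
  have h6 : (κ * X) ^ 2 ≤ 0 := by nlinarith
  have h7 : κ * X = 0 := by
    have : (κ * X) ^ 2 = 0 := le_antisymm h6 (sq_nonneg _)
    exact pow_eq_zero_iff (two_ne_zero) |>.1 this
  rw [h7] at hcon
  have h8 : 0 < p * m := mul_pos hcon.1 hcon.2
  rw [h7] at h4
  nlinarith

theorem specFEJ [MA.Sg] (hBAS : SpecBAS) (hPRS : SpecPRS) : SpecFEJ := by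
  intro F hF hP C hC κ hκ
  obtain ⟨-, -, -, -, hann, -, -, hdir, hdir1, hf, -, -⟩ := hBAS F hF
  obtain ⟨-, ⟨c₀, hc₀, hup⟩, hfib⟩ := hPRS F hF
  obtain ⟨H₀, hH₀⟩ := hP C (κ ^ 2) (by positivity)
  obtain ⟨H, hHH, hH⟩ : ∃ H : ℕ, H₀ ≤ H ∧ 0 < H := ⟨max H₀ 1, le_max_left _ _, by omega⟩
  have hHe := hH₀ H hHH hH
  have hCr : (0 : ℝ) < C := by exact_mod_cast hC
  have hHr : (0 : ℝ) < H := by exact_mod_cast hH
  have ha : (0 : ℝ) < F.a := by exact_mod_cast hF.2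
  obtain ⟨K₀, hK₀⟩ := exists_nat_gt (16 * c₀ * C ^ 3 * (2 * C + 1) * H / (F.a * κ ^ 2))
  set K : ℕ := K₀ + 1 with hKdef
  have hKr : (0 : ℝ) < K := by rw [hKdef]; positivity
  have hK : 16 * c₀ * C ^ 3 * (2 * C + 1) * H ≤ F.a * κ ^ 2 * K := by
    have h1 : (K₀ : ℝ) ≤ K := by rw [hKdef]; push_cast; linarith
    have h2 := hK₀.trans_le h1
    rw [div_lt_iff₀ (by positivity)] at h2
    linarith
  refine ⟨K, κ ^ 2, by omega, by positivity, ?_⟩
  filter_upwards [hHe, eventually_ge_atTop (4 * H)] with X hS hXH hbad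
  have hX0 : 0 < X := by omega
  have hXr : (0 : ℝ) < X := by exact_mod_cast hX0
  set A : Finset V := ann F X (C * X) with hA
  set J : ℕ := X / (2 * H) with hJdef
  have hJM : 2 * J ≤ X / H := by
    rw [Nat.le_div_iff_mul_le hH, hJdef]
    calc 2 * (X / (2 * H)) * H = X / (2 * H) * (2 * H) := by ring
      _ ≤ X := Nat.div_mul_le_self _ _
  have h2J : 2 * J ≤ X := hJM.trans (Nat.div_le_self _ _)
  have h4J : X ≤ 4 * H * J := by
    have h1 : X < 2 * H * (J + 1) := by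
      have := Nat.lt_mul_div_succ X (show 0 < 2 * H by omega)
      rw [hJdef]; exact this
    have h2 : 2 * H * (J + 1) = 2 * H * J + 2 * H := by ring
    have h3 : 4 * H * J = 2 * (2 * H * J) := by ring
    omega
  have hJ0 : 0 < J := by
    rcases Nat.eq_zero_or_pos J with h | h
    · rw [h] at h4J; omega
    · exact h
  have hJr : (0 : ℝ) < J := by exact_mod_cast hJ0
  have h2Jr : 2 * (J : ℝ) ≤ X := by exact_mod_cast h2J
  have h4Jr : (X : ℝ) ≤ 4 * H * J := by exact_mod_cast h4J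
  have hmem : ∀ v ∈ A, v ≠ 0 ∧ (0 : ℝ) ≤ F.q v ∧ (F.q v : ℝ) ≤ C * X := by
    intro v hv
    rw [hA, hann] at hv
    refine ⟨?_, ?_, ?_⟩
    · rintro rfl
      have := hv.2.1
      simp only [Fm.q, Prod.fst_zero, Prod.snd_zero] at this
      norm_num at this
      omega
    · have : (0 : ℤ) ≤ F.q v := by have := hv.2.1; omega
      exact_mod_cast this
    · have := hv.2.2
      exact_mod_cast this
  have hu : ∀ v ∈ A, ‖dir F v‖ = 1 := fun v hv => hdir1 v (hmem v hv).1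
  -- the far kernel
  have hker : ∀ v ∈ A, ∀ w ∈ A, ker (dir F) J v w * (F.a * ((cross v w : ℤ) : ℝ) ^ 2) ≤
      (C * X : ℝ) ^ 2 := by
    intro v hv w hw
    obtain ⟨hv0, hv1, hv2⟩ := hmem v hv
    obtain ⟨hw0, hw1, hw2⟩ := hmem w hw
    have h1 := hdir v w hv0 hw0
    have h2 := congrArg Complex.im h1
    rw [Complex.im_mul_ofReal] at h2
    have h3 : (((F.b v w : ℤ) : ℂ) - Complex.I * (Real.sqrt (F.a : ℝ) : ℂ) *
        ((cross v w : ℤ) : ℂ)).im = -(Real.sqrt (F.a : ℝ) * ((cross v w : ℤ) : ℝ)) := by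
      simp
    rw [h3] at h2
    have h4 : (dir F v * conj (dir F w)).im ^ 2 * ((F.q v * F.q w : ℤ) : ℝ) =
        F.a * ((cross v w : ℤ) : ℝ) ^ 2 := by
      have h5 := congrArg (fun t : ℝ => t ^ 2) h2
      simp only [mul_pow, neg_sq] at h5
      rw [Real.sq_sqrt ha.le, Real.sq_sqrt (by push_cast; positivity)] at h5
      exact h5
    have h5 := ker_im J (hu v hv) (hu w hw)
    have h6 : (0 : ℝ) ≤ ((F.q v * F.q w : ℤ) : ℝ) := by push_cast; positivity
    calc ker (dir F) J v w * (F.a * ((cross v w : ℤ) : ℝ) ^ 2) =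
        (ker (dir F) J v w * (dir F v * conj (dir F w)).im ^ 2) * ((F.q v * F.q w : ℤ) : ℝ) := by
          rw [← h4]; ring
      _ ≤ 1 * ((F.q v * F.q w : ℤ) : ℝ) := mul_le_mul_of_nonneg_right h5 h6
      _ ≤ (C * X : ℝ) ^ 2 := by
          push_cast
          rw [one_mul, sq]
          exact mul_le_mul hv2 hw2 hw1 (by positivity)
  set W : ℝ := (C * X) ^ 2 / F.a * (2 * ((2 * C + 1 : ℕ) : ℝ) / K) with hWdef
  have hfar : ∀ v ∈ A, ∑ w ∈ A.filter (fun w => ¬ |cross v w| ≤ K), ker (dir F) J v w ≤ W := by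
    intro v hv
    have h1 : ∀ w ∈ A.filter (fun w => ¬ |cross v w| ≤ K), ker (dir F) J v w ≤
        (C * X) ^ 2 / F.a * (((cross v w : ℤ) : ℝ) ^ 2)⁻¹ := by
      intro w hw
      rw [mem_filter] at hw
      have hc : cross v w ≠ 0 := by
        intro h
        apply hw.2
        rw [h, abs_zero]
        positivity
      have hcr : ((cross v w : ℤ) : ℝ) ≠ 0 := by exact_mod_cast hc
      have hc2 : 0 < ((cross v w : ℤ) : ℝ) ^ 2 := by positivity
      have h2 := hker v hv w hw.1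
      rw [← div_eq_mul_inv, div_div, le_div_iff₀ (by positivity)]
      exact h2
    refine (sum_le_sum h1).trans ?_
    rw [← mul_sum, hWdef]
    refine mul_le_mul_of_nonneg_left ?_ (by positivity)
    exact far_sum A v K (2 * C + 1) (by omega) (fun c => hfib C X c hC hX0 v hv)
  -- the sums
  set f' : V → ℝ := fun v => ((F.f v : ℤ) : ℝ) with hf'
  have hval : ∀ v, f' v = 1 ∨ f' v = -1 := by
    intro v
    rcases hf v with h | h
    · left; simp only [hf', h]; norm_num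
    · right; simp only [hf', h]; norm_num
  have hT1 := sum_ker A f' (dir F) hu J
  have hT0 := sum_ker A (fun _ => 1) (dir F) hu J
  have hup1 : ∑ v ∈ A, ∑ w ∈ A, f' v * f' w * ker (dir F) J v w ≤
      J * (‖Su A f' (dir F) 0‖ ^ 2 + κ ^ 2 * X ^ 2) := by
    rw [hT1]
    refine (dbl_le (fun k => ‖Su A f' (dir F) k‖ ^ 2) (fun k => by positivity) J (X / H) hJM).trans ?_
    refine mul_le_mul_of_nonneg_left ?_ hJr.le
    refine add_le_add le_rfl ?_
    refine le_trans (le_of_eq ?_) hS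
    refine sum_congr rfl fun k _ => ?_
    unfold Su
    simp only [hf', Complex.ofReal_intCast]
  have hlow0 : J * (A.card : ℝ) ^ 2 ≤ ∑ v ∈ A, ∑ w ∈ A, ker (dir F) J v w := by
    have h1 : ∑ v ∈ A, ∑ w ∈ A, ker (dir F) J v w =
        ∑ v ∈ A, ∑ w ∈ A, (1 : ℝ) * 1 * ker (dir F) J v w := by simp
    rw [h1, hT0]
    refine le_trans (le_of_eq ?_)
      (le_dbl (fun k => ‖Su A (fun _ => 1) (dir F) k‖ ^ 2) (fun k => by positivity) J)
    unfold Su
    simp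
  have hdiff : ∑ v ∈ A, ∑ w ∈ A, ker (dir F) J v w -
      ∑ v ∈ A, ∑ w ∈ A, f' v * f' w * ker (dir F) J v w ≤
      2 * ((J : ℝ) ^ 2 * (κ ^ 2 * X) + A.card * W) := by
    have h1 : ∀ v ∈ A, ∀ w ∈ A, ker (dir F) J v w - f' v * f' w * ker (dir F) J v w ≤
        2 * ((J : ℝ) ^ 2 * (if |cross v w| ≤ K ∧ F.f v ≠ F.f w then 1 else 0) +
          (if ¬ |cross v w| ≤ K then ker (dir F) J v w else 0)) := by
      intro v hv w hw
      have hk0 := ker_nonneg (dir F) J v w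
      have hk1 := ker_le J (hu v hv) (hu w hw)
      have hJ2 : (0 : ℝ) ≤ (J : ℝ) ^ 2 := by positivity
      by_cases hc : |cross v w| ≤ K
      · by_cases he : F.f v = F.f w
        · have h2 : f' v * f' w = 1 := by
            have h3 : f' v = f' w := by simp only [hf', he]
            rw [h3]
            rcases hval w with h | h <;> rw [h] <;> norm_num
          rw [h2]
          simp [he, hc]
        · have h2 : -1 ≤ f' v * f' w := by
            rcases hval v with h | h <;> rcases hval w with h' | h' <;> rw [h, h'] <;> norm_num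
          rw [if_pos ⟨hc, he⟩, if_neg (not_not.2 hc)]
          nlinarith
      · have h2 : -1 ≤ f' v * f' w := by
          rcases hval v with h | h <;> rcases hval w with h' | h' <;> rw [h, h'] <;> norm_num
        rw [if_neg (fun h => hc h.1), if_pos hc]
        nlinarith
    rw [← sum_sub_distrib]
    have h2 : ∑ v ∈ A, (∑ w ∈ A, ker (dir F) J v w - ∑ w ∈ A, f' v * f' w * ker (dir F) J v w) ≤
        ∑ v ∈ A, ∑ w ∈ A, 2 * ((J : ℝ) ^ 2 * (if |cross v w| ≤ K ∧ F.f v ≠ F.f w then 1 else 0) +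
          (if ¬ |cross v w| ≤ K then ker (dir F) J v w else 0)) := by
      refine sum_le_sum fun v hv => ?_
      rw [← sum_sub_distrib]
      exact sum_le_sum fun w hw => h1 v hv w hw
    refine h2.trans ?_
    have h3 : ∑ v ∈ A, ∑ w ∈ A, 2 * ((J : ℝ) ^ 2 * (if |cross v w| ≤ K ∧ F.f v ≠ F.f w then 1 else 0) +
          (if ¬ |cross v w| ≤ K then ker (dir F) J v w else 0)) =
        2 * ((J : ℝ) ^ 2 * (∑ v ∈ A, ∑ w ∈ A,
          (if |cross v w| ≤ K ∧ F.f v ≠ F.f w then (1 : ℝ) else 0)) +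
          ∑ v ∈ A, ∑ w ∈ A, (if ¬ |cross v w| ≤ K then ker (dir F) J v w else 0)) := by
      simp only [← mul_sum, sum_add_distrib]
    rw [h3]
    refine mul_le_mul_of_nonneg_left (add_le_add ?_ ?_) (by norm_num)
    · refine mul_le_mul_of_nonneg_left ?_ (by positivity)
      refine le_trans (le_of_eq ?_) hbad
      rw [← sum_product' A A (fun v w => if |cross v w| ≤ K ∧ F.f v ≠ F.f w then (1 : ℝ) else 0),
        sum_boole]
    · have h4 : ∀ v ∈ A, ∑ w ∈ A, (if ¬ |cross v w| ≤ K then ker (dir F) J v w else 0) ≤ W := by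
        intro v hv
        rw [← sum_filter]
        exact hfar v hv
      refine (sum_le_sum h4).trans (le_of_eq ?_)
      rw [sum_const, nsmul_eq_mul]
  -- the two counts
  set p : ℝ := ((A.filter (fun v => F.f v ≠ -1)).card : ℝ) with hp
  set m : ℝ := ((A.filter (fun v => F.f v ≠ 1)).card : ℝ) with hm
  have hpm : (A.card : ℝ) = p + m := by
    have h1 : ∀ v ∈ A, (1 : ℝ) = (if F.f v ≠ -1 then 1 else 0) + (if F.f v ≠ 1 then 1 else 0) := by
      intro v _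
      rcases hf v with h | h <;> rw [h] <;> norm_num
    have h2 := sum_congr rfl h1
    rw [sum_add_distrib, sum_boole, sum_boole, sum_const, nsmul_eq_mul, mul_one] at h2
    exact h2
  have hS0 : ‖Su A f' (dir F) 0‖ ^ 2 = (p - m) ^ 2 := by
    have h1 : ∀ v ∈ A, f' v = (if F.f v ≠ -1 then 1 else 0) - (if F.f v ≠ 1 then 1 else 0) := by
      intro v _
      simp only [hf']
      rcases hf v with h | h <;> rw [h] <;> norm_num
    have h2 := sum_congr rfl h1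
    rw [sum_sub_distrib, sum_boole, sum_boole] at h2
    have h3 : Su A f' (dir F) 0 = ((p - m : ℝ) : ℂ) := by
      rw [hp, hm, ← h2]
      unfold Su
      simp
    rw [h3, Complex.norm_real, Real.norm_eq_abs, sq_abs]
  have hn : (A.card : ℝ) ≤ c₀ * (C * X) := by
    have := hup X (C * X) (Nat.mul_pos hC hX0)
    push_cast at this
    exact this
  have hfin : p ≤ κ * X ∨ m ≤ κ * X := by
    refine fej_arith (n := (A.card : ℝ)) (J := J) (W := W) hpm (by positivity) (by positivity) hJr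
      hXr.le hκ h2Jr ?_ ?_
    · have hW0 : 0 ≤ W := by rw [hWdef]; positivity
      have h1 : (A.card : ℝ) * W ≤ c₀ * (C * X) * W := mul_le_mul_of_nonneg_right hn hW0
      have h2 : c₀ * (C * X) * W = (16 * c₀ * C ^ 3 * (2 * C + 1) * H) * (X ^ 3) / (F.a * K * 8 * H) := by
        rw [hWdef]; push_cast; field_simp; ring
      have h3 : (16 * c₀ * C ^ 3 * (2 * C + 1) * H) * (X : ℝ) ^ 3 / (F.a * K * 8 * H) ≤
          (F.a * κ ^ 2 * K) * X ^ 3 / (F.a * K * 8 * H) := by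
        refine div_le_div_of_nonneg_right ?_ (by positivity)
        exact mul_le_mul_of_nonneg_right hK (by positivity)
      have h4 : (F.a * κ ^ 2 * K) * (X : ℝ) ^ 3 / (F.a * K * 8 * H) = κ ^ 2 * X ^ 3 / (8 * H) := by
        field_simp
      have h5 : κ ^ 2 * (X : ℝ) ^ 3 / (8 * H) ≤ J * (κ ^ 2 * X ^ 2) / 2 := by
        rw [div_le_div_iff₀ (by positivity) (by norm_num)]
        have h6 : κ ^ 2 * (X : ℝ) ^ 3 * 2 = (2 * κ ^ 2 * X ^ 2) * X := by ring
        have h7 : J * (κ ^ 2 * (X : ℝ) ^ 2) * (8 * H) = (2 * κ ^ 2 * X ^ 2) * (4 * H * J) := by ring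
        rw [h6, h7]
        exact mul_le_mul_of_nonneg_left h4Jr (by positivity)
      linarith
    · rw [← hS0]
      linarith
  rcases hfin with h | h
  · exact ⟨-1, Or.inr rfl, h⟩
  · exact ⟨1, Or.inl rfl, h⟩

end

end Pool.Agent.Lib.MP391708.SG
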