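import Pool.Agent.Lib.MP_391708_nt.SG.Spec
import Pool.Agent.Lib.MP_391708_nt.Eqd.Low

/-!
# LOW: lower bound for the number of critical pairs with `q ≤ 2 b`

For a coprime pair `(c, c')` in the box `(Y, 11/10 Y] × (2/3 Y, 22/30 Y]` take `v = (c, κ c - d)`,
`w = (c', κ c' - d')`, where `c d' - d c' = 1`, `0 ≤ d < c`, and `κ` is a large integer (so that the form
is almost constant on the cone).  Then `cross v w = -1` and `c b(v, w) = c' q(v) + O(c)`.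
-/

set_option autoImplicit false

namespace Pool.Agent.Lib.MP391708.SG

open Finset Filter Topology
open Pool.Agent.Lib.MP391708.Eqd (V cross)
open scoped Classical

noncomputable section

namespace LowM

variable {F : Fm}

lemma C_pos (hF : F.Pd) : 0 < F.C := by
  obtain ⟨hA, ha⟩ := hF
  unfold Fm.a at ha
  by_contra hc
  push Not at hc
  nlinarith [sq_nonneg F.B]

lemma q_mul (v w : V) : F.q v * F.q w = F.b v w ^ 2 + F.a * cross v w ^ 2 := by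
  unfold Fm.q Fm.b Fm.a cross; ring

lemma mem_bx (hF : F.Pd) {v : V} {Z : ℕ} (h : F.q v ≤ Z) : v ∈ bx F Z := by
  have hC := C_pos hF
  obtain ⟨hA, ha⟩ := hF
  have e1 : F.A * F.q v = (F.A * v.1 + F.B * v.2) ^ 2 + F.a * v.2 ^ 2 := by
    unfold Fm.q Fm.a; ring
  have e2 : F.C * F.q v = (F.C * v.2 + F.B * v.1) ^ 2 + F.a * v.1 ^ 2 := by
    unfold Fm.q Fm.a; ring
  have hZ : (0 : ℤ) ≤ Z := Int.natCast_nonneg Z
  have f1 : F.A * F.q v ≤ F.A * Z := mul_le_mul_of_nonneg_left h hA.le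
  have f2 : F.C * F.q v ≤ F.C * Z := mul_le_mul_of_nonneg_left h hC.le
  have g1 : v.2 ^ 2 ≤ F.a * v.2 ^ 2 := by nlinarith [sq_nonneg v.2]
  have g2 : v.1 ^ 2 ≤ F.a * v.1 ^ 2 := by nlinarith [sq_nonneg v.1]
  have k1 : v.2 ^ 2 ≤ (F.A + F.C) * Z := by
    have : 0 ≤ F.C * (Z : ℤ) := mul_nonneg hC.le hZ
    nlinarith [sq_nonneg (F.A * v.1 + F.B * v.2)]
  have k2 : v.1 ^ 2 ≤ (F.A + F.C) * Z := by
    have : 0 ≤ F.A * (Z : ℤ) := mul_nonneg hA.le hZ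
    nlinarith [sq_nonneg (F.C * v.2 + F.B * v.1)]
  have key : ∀ t : ℤ, t ^ 2 ≤ (F.A + F.C) * Z → -((F.A + F.C) * Z) ≤ t ∧ t ≤ (F.A + F.C) * Z := by
    intro t ht
    have h1 : |t| ≤ t ^ 2 := by
      rw [← sq_abs]
      rcases eq_or_ne t 0 with rfl | h0
      · simp
      · have : 1 ≤ |t| := Int.one_le_abs h0
        nlinarith
    exact abs_le.1 (h1.trans ht)
  unfold bx
  rw [mem_product, mem_Icc, mem_Icc]
  exact ⟨key _ k2, key _ k1⟩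

lemma mem_G1 (hF : F.Pd) {x : V × V} {N : ℕ} (h1 : cross x.1 x.2 = -1)
    (h2 : (N : ℤ) < F.b x.1 x.2) (h3 : F.b x.1 x.2 ≤ 2 * N) (h4 : F.b x.1 x.2 < F.q x.1)
    (h5 : F.q x.1 ≤ 3 * F.b x.1 x.2) : x ∈ G1 F N := by
  have hq := q_mul (F := F) x.1 x.2
  have ha : 0 < F.a := hF.2
  have hN : (0 : ℤ) ≤ N := Int.natCast_nonneg N
  have habs : ((F.a.natAbs : ℕ) : ℤ) = F.a := Int.natAbs_of_nonneg ha.le
  unfold G1
  rw [mem_filter, mem_product]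
  refine ⟨⟨mem_bx hF ?_, mem_bx hF ?_⟩, h1, h2, h3, h4, h5⟩
  · push_cast
    have : (0 : ℤ) ≤ |F.a| := abs_nonneg _
    linarith
  · push_cast
    rw [abs_of_pos ha]
    rw [h1] at hq
    by_contra hc
    push Not at hc
    have hb1 : 1 ≤ F.b x.1 x.2 := by linarith
    have hq1 : F.b x.1 x.2 + 1 ≤ F.q x.1 := h4
    have hq2 : F.b x.1 x.2 + F.a ≤ F.q x.2 := by linarith
    have : (F.b x.1 x.2 + 1) * (F.b x.1 x.2 + F.a) ≤ F.q x.1 * F.q x.2 :=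
      mul_le_mul hq1 hq2 (by linarith) (by linarith)
    nlinarith

/-- the pair of vectors of a coprime pair -/
def vw (κ : ℤ) (x : ℕ × ℕ) : V × V :=
  (((x.1 : ℤ), κ * x.1 - (Eqd.Low.bz x.1 x.2).1), ((x.2 : ℤ), κ * x.2 - (Eqd.Low.bz x.1 x.2).2))

lemma vw_inj {κ : ℤ} {x y : ℕ × ℕ} (h : vw κ x = vw κ y) : x = y := by
  unfold vw at h
  simp only [Prod.mk.injEq] at h
  exact Prod.ext (by exact_mod_cast h.1.1) (by exact_mod_cast h.2.1)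

/-- the constants: `P` the value of the form at `(1, κ)`, `L = |B| + C κ` -/
lemma consts (hF : F.Pd) : ∃ κ P L : ℤ, 1 ≤ κ ∧ 1 ≤ L ∧ 20 * L ≤ P ∧
    P = F.A + 2 * F.B * κ + F.C * κ ^ 2 ∧ |F.B| + F.C * κ = L ∧ F.C ≤ 2 * (F.B + F.C * κ) := by
  have hC := C_pos hF
  have hA := hF.1
  have hB := abs_nonneg F.B
  have hB1 := neg_abs_le F.B
  obtain ⟨β, hβ⟩ : ∃ β : ℤ, β = |F.B| := ⟨_, rfl⟩
  rw [← hβ] at hB hB1
  have hCβ : β ≤ F.C * β := by nlinarith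
  refine ⟨21 + 22 * β, F.A + 2 * F.B * (21 + 22 * β) + F.C * (21 + 22 * β) ^ 2,
    β + F.C * (21 + 22 * β), by linarith, by nlinarith, ?_, rfl, by rw [hβ], ?_⟩
  · have h1 : -β * (21 + 22 * β) ≤ F.B * (21 + 22 * β) :=
      mul_le_mul_of_nonneg_right hB1 (by linarith)
    have h2 : β * (21 + 22 * β) ≤ F.C * β * (21 + 22 * β) :=
      mul_le_mul_of_nonneg_right hCβ (by linarith)
    have h3 : 0 ≤ F.C * β := mul_nonneg hC.le hB
    have h4 : 0 ≤ F.C * β * β := mul_nonneg h3 hB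
    nlinarith
  · nlinarith

/-- sizes of `q v` and `b v w` -/
lemma sizes (hF : F.Pd) {κ P L : ℤ} (hκ : 1 ≤ κ) (_hL : 1 ≤ L) (hPL : 20 * L ≤ P)
    (hP : P = F.A + 2 * F.B * κ + F.C * κ ^ 2) (hLd : |F.B| + F.C * κ = L)
    (hC2 : F.C ≤ 2 * (F.B + F.C * κ)) {x : ℕ × ℕ} (hx : 0 < x.1) (hcop : Nat.Coprime x.1 x.2) :
    cross (vw κ x).1 (vw κ x).2 = -1 ∧
    9 * P * (x.1 : ℤ) ^ 2 ≤ 10 * F.q (vw κ x).1 ∧ F.q (vw κ x).1 ≤ P * (x.1 : ℤ) ^ 2 ∧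
    (x.2 : ℤ) * F.q (vw κ x).1 - L * x.1 ≤ F.b (vw κ x).1 (vw κ x).2 * x.1 ∧
    F.b (vw κ x).1 (vw κ x).2 * x.1 ≤ (x.2 : ℤ) * F.q (vw κ x).1 + L * x.1 := by
  obtain ⟨a1, a2⟩ := Eqd.Low.bz_spec hx hcop
  obtain ⟨d, hd⟩ : ∃ d : ℤ, d = ((Eqd.Low.bz x.1 x.2).1 : ℤ) := ⟨_, rfl⟩
  obtain ⟨d', hd'⟩ : ∃ d' : ℤ, d' = ((Eqd.Low.bz x.1 x.2).2 : ℤ) := ⟨_, rfl⟩
  obtain ⟨c, hc⟩ : ∃ c : ℤ, c = (x.1 : ℤ) := ⟨_, rfl⟩
  obtain ⟨c', hc'⟩ : ∃ c' : ℤ, c' = (x.2 : ℤ) := ⟨_, rfl⟩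
  have b1 : d < c := by rw [hd, hc]; exact_mod_cast a1
  have b0 : 0 ≤ d := by rw [hd]; positivity
  have b2 : c * d' = 1 + d * c' := by rw [hd, hc, hd', hc']; exact_mod_cast a2
  have hv : vw κ x = ((c, κ * c - d), (c', κ * c' - d')) := by
    unfold vw; rw [hd, hc, hd', hc']
  rw [hv, ← hc, ← hc']
  have hCp := C_pos hF
  have hBabs := abs_nonneg F.B
  have hB1 := neg_abs_le F.B
  have hB2 := le_abs_self F.B
  have hc0 : 0 < c := by linarith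
  have hq : F.q (c, κ * c - d) = P * c ^ 2 - d * (2 * c * (F.B + F.C * κ) - F.C * d) := by
    rw [hP]; unfold Fm.q; ring
  have hcr : cross (c, κ * c - d) (c', κ * c' - d') = -1 := by
    unfold cross; linear_combination -b2
  have hb : F.b (c, κ * c - d) (c', κ * c' - d') * c =
      c' * F.q (c, κ * c - d) - (F.B * c + F.C * (κ * c - d)) := by
    unfold Fm.b Fm.q
    linear_combination (-F.B * c - F.C * (κ * c - d)) * b2
  have hs0 : 0 ≤ F.B + F.C * κ := by linarith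
  have hd1 : F.C * d ≤ F.C * c := mul_le_mul_of_nonneg_left b1.le hCp.le
  have hd2 : 0 ≤ F.C * d := mul_nonneg hCp.le b0
  have hd3 : F.C * c ≤ 2 * (F.B + F.C * κ) * c := mul_le_mul_of_nonneg_right hC2 hc0.le
  have hw0 : 0 ≤ 2 * c * (F.B + F.C * κ) - F.C * d := by linarith
  have hw1 : 2 * c * (F.B + F.C * κ) - F.C * d ≤ 2 * c * L := by
    have : c * (F.B + F.C * κ) ≤ c * L := by
      apply mul_le_mul_of_nonneg_left _ hc0.le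
      linarith
    linarith
  have hw2 : d * (2 * c * (F.B + F.C * κ) - F.C * d) ≤ c * (2 * c * L) :=
    mul_le_mul b1.le hw1 hw0 hc0.le
  have hw3 : 0 ≤ d * (2 * c * (F.B + F.C * κ) - F.C * d) := mul_nonneg b0 hw0
  have hPc : 20 * L * c ^ 2 ≤ P * c ^ 2 := mul_le_mul_of_nonneg_right hPL (sq_nonneg c)
  have he1 : F.B * c + F.C * (κ * c - d) ≤ L * c := by
    rw [← hLd]
    have : F.B * c ≤ |F.B| * c := mul_le_mul_of_nonneg_right hB2 hc0.le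
    linarith
  have he2 : -(L * c) ≤ F.B * c + F.C * (κ * c - d) := by
    rw [← hLd]
    have h1 : -|F.B| * c ≤ F.B * c := mul_le_mul_of_nonneg_right hB1 hc0.le
    have h2 : 0 ≤ F.C * κ * c := by positivity
    have h3 : F.C * c ≤ F.C * κ * c := by
      apply mul_le_mul_of_nonneg_right _ hc0.le
      nlinarith
    linarith
  refine ⟨hcr, ?_, ?_, ?_, ?_⟩
  · rw [hq]; nlinarith
  · rw [hq]; linarith
  · rw [hb]; linarith
  · rw [hb]; linarith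

lemma vw_mem (hF : F.Pd) {κ P L : ℤ} (hκ : 1 ≤ κ) (hL : 1 ≤ L) (hPL : 20 * L ≤ P)
    (hP : P = F.A + 2 * F.B * κ + F.C * κ ^ 2) (hLd : |F.B| + F.C * κ = L)
    (hC2 : F.C ≤ 2 * (F.B + F.C * κ)) {Y N : ℕ} (hY : 10 ≤ Y)
    (h1 : 18 * (N : ℝ) ≤ 10 * (P * (Y : ℝ) ^ 2)) (h2 : (P : ℝ) * (Y : ℝ) ^ 2 ≤ 2 * N)
    (h3 : 100 * (P : ℝ) ≤ N)
    {x : ℕ × ℕ} (hx1 : Y < x.1) (hx1' : (x.1 : ℝ) ≤ 11 / 10 * Y)
    (hx2 : 2 / 3 * (Y : ℝ) < x.2) (hx2' : (x.2 : ℝ) ≤ 2 / 3 * (11 / 10) * Y)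
    (hcop : Nat.Coprime x.1 x.2) :
    vw κ x ∈ (G1 F N).filter (fun x => F.q x.1 ≤ 2 * F.b x.1 x.2) := by
  have hx0 : 0 < x.1 := by omega
  obtain ⟨s1, s2, s3, s4, s5⟩ := sizes hF hκ hL hPL hP hLd hC2 hx0 hcop
  obtain ⟨q, hq⟩ : ∃ q : ℝ, q = ((F.q (vw κ x).1 : ℤ) : ℝ) := ⟨_, rfl⟩
  obtain ⟨b, hb⟩ : ∃ b : ℝ, b = ((F.b (vw κ x).1 (vw κ x).2 : ℤ) : ℝ) := ⟨_, rfl⟩
  obtain ⟨c, hc⟩ : ∃ c : ℝ, c = (x.1 : ℝ) := ⟨_, rfl⟩
  obtain ⟨c', hc'⟩ : ∃ c' : ℝ, c' = (x.2 : ℝ) := ⟨_, rfl⟩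
  obtain ⟨p, hp⟩ : ∃ p : ℝ, p = (P : ℝ) := ⟨_, rfl⟩
  obtain ⟨l, hl⟩ : ∃ l : ℝ, l = (L : ℝ) := ⟨_, rfl⟩
  obtain ⟨y, hy⟩ : ∃ y : ℝ, y = (Y : ℝ) := ⟨_, rfl⟩
  obtain ⟨n, hn⟩ : ∃ n : ℝ, n = (N : ℝ) := ⟨_, rfl⟩
  have t2 : 9 * p * c ^ 2 ≤ 10 * q := by rw [hp, hc, hq]; exact_mod_cast s2
  have t3 : q ≤ p * c ^ 2 := by rw [hp, hc, hq]; exact_mod_cast s3
  have t4 : c' * q - l * c ≤ b * c := by rw [hc', hc, hq, hb, hl]; exact_mod_cast s4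
  have t5 : b * c ≤ c' * q + l * c := by rw [hc', hc, hq, hb, hl]; exact_mod_cast s5
  have u1 : y < c := by rw [hy, hc]; exact_mod_cast hx1
  rw [← hc, ← hy] at hx1'
  rw [← hc', ← hy] at hx2 hx2'
  rw [← hp, ← hy, ← hn] at h1
  rw [← hp, ← hy, ← hn] at h2
  rw [← hp, ← hn] at h3
  have hl1 : 1 ≤ l := by rw [hl]; exact_mod_cast hL
  have hpl : 20 * l ≤ p := by rw [hp, hl]; exact_mod_cast hPL
  have hy10 : 10 ≤ y := by rw [hy]; exact_mod_cast hY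
  have hc0 : 0 < c := by linarith
  have hp0 : 0 < p := by linarith
  have hc'0 : 0 < c' := by nlinarith
  have hc2 : 100 ≤ c ^ 2 := by nlinarith
  have hq1 : 10 * l ≤ q := by
    have e1 : 9 * p * 100 ≤ 9 * p * c ^ 2 := mul_le_mul_of_nonneg_left hc2 (by linarith)
    linarith
  have hq0 : 0 < q := by linarith
  -- `b < q`
  have k1 : b < q := by
    have : b * c < q * c := by
      have e1 : c / 5 * q ≤ (c - c') * q := by
        apply mul_le_mul_of_nonneg_right _ hq0.le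
        linarith
      have e2 : l * c < c / 5 * q := by nlinarith
      nlinarith
    exact lt_of_mul_lt_mul_right this hc0.le
  have k2 : q ≤ 2 * b := by
    have : q * c ≤ 2 * b * c := by
      have e1 : c / 5 * q ≤ (2 * c' - c) * q := by
        apply mul_le_mul_of_nonneg_right _ hq0.le
        linarith
      have e2 : 2 * l * c ≤ c / 5 * q := by nlinarith
      nlinarith
    exact le_of_mul_le_mul_right this hc0
  have cc1 : 2 / 3 * y ^ 2 ≤ c * c' := by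
    calc 2 / 3 * y ^ 2 = y * (2 / 3 * y) := by ring
      _ ≤ c * c' := mul_le_mul u1.le hx2.le (by positivity) hc0.le
  have cc2 : c * c' ≤ 121 / 150 * y ^ 2 := by
    calc c * c' ≤ (11 / 10 * y) * (2 / 3 * (11 / 10) * y) :=
          mul_le_mul hx1' hx2' hc'0.le (by positivity)
      _ = 121 / 150 * y ^ 2 := by ring
  have k3 : n < b := by
    have e1 : 9 / 10 * p * (c * c') - l ≤ b := by
      have : (9 / 10 * p * (c * c') - l) * c ≤ b * c := by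
        have : c' * (9 / 10 * p * c ^ 2) ≤ c' * q := mul_le_mul_of_nonneg_left (by linarith) hc'0.le
        nlinarith
      exact le_of_mul_le_mul_right this hc0
    have e2 : p * (2 / 3 * y ^ 2) ≤ p * (c * c') := mul_le_mul_of_nonneg_left cc1 hp0.le
    nlinarith
  have k4 : b ≤ 2 * n := by
    have e1 : b ≤ p * (c * c') + l := by
      have : b * c ≤ (p * (c * c') + l) * c := by
        have : c' * q ≤ c' * (p * c ^ 2) := mul_le_mul_of_nonneg_left t3 hc'0.le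
        nlinarith
      exact le_of_mul_le_mul_right this hc0
    have e2 : p * (c * c') ≤ p * (121 / 150 * y ^ 2) := mul_le_mul_of_nonneg_left cc2 hp0.le
    nlinarith
  rw [hb, hq] at k1 k2
  rw [hb, hn] at k3 k4
  have m1 : F.b (vw κ x).1 (vw κ x).2 < F.q (vw κ x).1 := by exact_mod_cast k1
  have m2 : F.q (vw κ x).1 ≤ 2 * F.b (vw κ x).1 (vw κ x).2 := by exact_mod_cast k2
  have m3 : (N : ℤ) < F.b (vw κ x).1 (vw κ x).2 := by exact_mod_cast k3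
  have m4 : F.b (vw κ x).1 (vw κ x).2 ≤ 2 * N := by exact_mod_cast k4
  rw [mem_filter]
  have hN0 : (0 : ℤ) ≤ N := Int.natCast_nonneg N
  exact ⟨mem_G1 hF s1 m3 m4 m1 (by linarith), m2⟩

/-- choice of the box -/
lemma choose_Y {P : ℕ} (hP : 20 ≤ P) (Y₀ : ℕ) : ∀ᶠ N : ℕ in atTop, ∃ Y : ℕ, Y₀ ≤ Y ∧
    18 * (N : ℝ) ≤ 10 * (P * (Y : ℝ) ^ 2) ∧ (P : ℝ) * (Y : ℝ) ^ 2 ≤ 2 * N ∧
    100 * (P : ℝ) ≤ N := by
  filter_upwards [eventually_ge_atTop (800 * P ^ 2), eventually_ge_atTop (P * Y₀ ^ 2)]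
    with N hN1 hN2
  obtain ⟨m, hm⟩ : ∃ m : ℕ, m = 2 * N / P := ⟨_, rfl⟩
  obtain ⟨Y, hY⟩ : ∃ Y : ℕ, Y = Nat.sqrt m := ⟨_, rfl⟩
  have hP0 : 0 < P := by omega
  have hm1 : P * m ≤ 2 * N := by rw [hm]; exact Nat.mul_div_le _ _
  have hm2 : 2 * N < P * m + P := by
    rw [hm]
    have := Nat.lt_mul_div_succ (2 * N) hP0
    rw [Nat.mul_add, Nat.mul_one] at this
    exact this
  have hmN : Y₀ ^ 2 ≤ m := by
    rw [hm, Nat.le_div_iff_mul_le hP0]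
    linarith [mul_comm P (Y₀ ^ 2)]
  have hYY : Y₀ ≤ Y := by rw [hY, Nat.le_sqrt']; exact hmN
  have hY1 : Y ^ 2 ≤ m := hY ▸ Nat.sqrt_le' m
  have hY2 : m < (Y + 1) ^ 2 := hY ▸ Nat.lt_succ_sqrt' m
  clear hY hm hN2 hmN
  have hY1r : (Y : ℝ) ^ 2 ≤ m := by exact_mod_cast hY1
  have hY2r : (m : ℝ) + 1 ≤ ((Y : ℝ) + 1) ^ 2 := by exact_mod_cast hY2
  have hm1r : (P : ℝ) * m ≤ 2 * N := by exact_mod_cast hm1
  have hm2r : 2 * (N : ℝ) + 1 ≤ P * m + P := by exact_mod_cast hm2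
  have hN1r : 800 * (P : ℝ) ^ 2 ≤ N := by exact_mod_cast hN1
  have hPr : (20 : ℝ) ≤ P := by exact_mod_cast hP
  obtain ⟨y, hy⟩ : ∃ y : ℝ, y = (Y : ℝ) := ⟨_, rfl⟩
  obtain ⟨n, hn⟩ : ∃ n : ℝ, n = (N : ℝ) := ⟨_, rfl⟩
  obtain ⟨p, hp⟩ : ∃ p : ℝ, p = (P : ℝ) := ⟨_, rfl⟩
  obtain ⟨μ, hμ⟩ : ∃ μ : ℝ, μ = (m : ℝ) := ⟨_, rfl⟩
  have hy0 : 0 ≤ y := by rw [hy]; positivity
  refine ⟨Y, hYY, ?_, ?_, ?_⟩
  · rw [← hn, ← hp, ← hy]
    rw [← hy, ← hμ] at hY1r hY2r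
    rw [← hp, ← hn] at hN1r
    rw [← hp, ← hμ, ← hn] at hm1r hm2r
    rw [← hp] at hPr
    have hpy : p * y ^ 2 ≤ 2 * n := (mul_le_mul_of_nonneg_left hY1r (by linarith)).trans hm1r
    have hyn : 20 * (p * y) ≤ n := by
      have h0 : 0 ≤ n := le_trans (by positivity) hN1r
      have hsq : (20 * (p * y)) ^ 2 ≤ n ^ 2 := by
        calc (20 * (p * y)) ^ 2 = 400 * p * (p * y ^ 2) := by ring
          _ ≤ 400 * p * (2 * n) := mul_le_mul_of_nonneg_left hpy (by linarith)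
          _ = 800 * p * n := by ring
          _ ≤ 800 * p ^ 2 * n := by
              apply mul_le_mul_of_nonneg_right _ h0
              nlinarith
          _ ≤ n * n := mul_le_mul_of_nonneg_right hN1r h0
          _ = n ^ 2 := by ring
      exact le_of_sq_le_sq hsq h0
    have h5 : p * (μ - 2 * y) ≤ p * y ^ 2 := mul_le_mul_of_nonneg_left (by nlinarith) (by linarith)
    have h6 : p ≤ n / 100 := by nlinarith
    nlinarith
  · exact (mul_le_mul_of_nonneg_left hY1r (by positivity)).trans hm1r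
  · nlinarith

end LowM

open LowM

theorem specLOW : SpecLOW := by
  intro F hF
  obtain ⟨κ, P, L, hκ, hL, hPL, hP, hLd, hC2⟩ := consts hF
  obtain ⟨p, hp⟩ : ∃ p : ℕ, (p : ℤ) = P := ⟨P.toNat, Int.toNat_of_nonneg (by linarith)⟩
  have hp20 : 20 ≤ p := by
    have : (20 : ℤ) ≤ p := by rw [hp]; linarith
    exact_mod_cast this
  have hpr : (P : ℝ) = (p : ℝ) := by rw [← hp]; push_cast; rfl
  have hp0 : (0 : ℝ) < p := by
    have : (20 : ℝ) ≤ p := by exact_mod_cast hp20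
    linarith
  set t : ℝ := 2 / 3 with ht
  set ρ : ℝ := 11 / 10 with hρ
  set k : ℝ := 1 / 10 with hk
  set K₁ : ℝ := k + t * k + 1 with hK₁
  set K₂ : ℝ := 2 * K₁ * Real.sqrt ρ + ρ with hK₂
  obtain ⟨Y₀, hY₀⟩ : ∃ Y₀ : ℕ, ∀ Y : ℕ, Y₀ ≤ Y → 32 * K₂ / (t * k ^ 2) ≤ Real.sqrt Y := by
    have hlim : Tendsto (fun Y : ℕ => (Y : ℝ)) atTop atTop := tendsto_natCast_atTop_atTop
    exact eventually_atTop.mp ((Real.tendsto_sqrt_atTop.comp hlim).eventually_ge_atTop _)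
  refine ⟨t * k ^ 2 / 32 * (9 / 5 / p), by rw [ht, hk]; positivity, ?_⟩
  filter_upwards [choose_Y hp20 (Y₀ + 100)] with N hN
  obtain ⟨Y, hYY, g1, g2, g3⟩ := hN
  have hYr : (100 : ℝ) ≤ Y := by
    have : 100 ≤ Y := by omega
    exact_mod_cast this
  have hcnt := Eqd.Low.count_le (t := t) (ρ := ρ) (κ := k) (K₁ := K₁) (K₂ := K₂)
    (by rw [ht]; norm_num) (by rw [hρ]; norm_num) (by rw [hk, hρ]; norm_num) hK₁ hK₂ (Y := Y)
    (by omega) (by rw [hk]; linarith) (by rw [hk, ht]; linarith) (hY₀ Y (by omega))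
  have hcard : ((Ioc Y ⌊ρ * (Y : ℝ)⌋₊ ×ˢ Ioc ⌊t * (Y : ℝ)⌋₊ ⌊t * ρ * (Y : ℝ)⌋₊).filter
        (fun x => Nat.Coprime x.1 x.2)).card ≤
      ((G1 F N).filter (fun x => F.q x.1 ≤ 2 * F.b x.1 x.2)).card := by
    refine card_le_card_of_injOn (vw κ) ?_ ?_
    · intro x hx
      rw [mem_coe, mem_filter, mem_product, mem_Ioc, mem_Ioc] at hx
      obtain ⟨⟨⟨hx1, hx2⟩, hx3, hx4⟩, hx5⟩ := hx
      rw [mem_coe]
      refine vw_mem hF hκ hL hPL hP hLd hC2 (Y := Y) (by omega) (by rw [hpr]; exact g1)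
        (by rw [hpr]; exact g2) (by rw [hpr]; exact g3) hx1 ?_ ?_ ?_ hx5
      · exact (Nat.cast_le.mpr hx2).trans (Nat.floor_le (by positivity))
      · exact (Nat.floor_lt (by positivity)).mp hx3
      · exact (Nat.cast_le.mpr hx4).trans (Nat.floor_le (by positivity))
    · intro x _ y _ hxy
      exact vw_inj hxy
  have hcard' : (((Ioc Y ⌊ρ * (Y : ℝ)⌋₊ ×ˢ Ioc ⌊t * (Y : ℝ)⌋₊ ⌊t * ρ * (Y : ℝ)⌋₊).filter
        (fun x => Nat.Coprime x.1 x.2)).card : ℝ) ≤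
      (((G1 F N).filter (fun x => F.q x.1 ≤ 2 * F.b x.1 x.2)).card : ℝ) := by
    exact_mod_cast hcard
  refine le_trans ?_ (hcnt.trans hcard')
  have e1 : t * k ^ 2 / 32 * (9 / 5 / p) * (N : ℝ) = t * k ^ 2 / 32 * (9 / 5 / p * N) := by ring
  rw [e1]
  apply mul_le_mul_of_nonneg_left _ (by rw [ht, hk]; norm_num)
  have e2 : 9 / 5 / (p : ℝ) * N = (9 / 5 * N) / p := by ring
  rw [e2, div_le_iff₀ hp0]
  linarith [mul_comm (p : ℝ) ((Y : ℝ) ^ 2)]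

end

end Pool.Agent.Lib.MP391708.SG
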