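import Pool.Agent.Lib.MP_391708_nt.SG.Spec

/-!
# Group S: many bad edges, and the seeds of both signs
-/

set_option autoImplicit false

namespace Pool.Agent.Lib.MP391708.SG

open Finset Filter Topology
open Pool.Agent.Lib.MP391708.Eqd (V cross)
open scoped Classical

theorem specMIN [MA.Sg] (hCLO : SpecCLO) (hFEJ : SpecFEJ) (hALP : SpecALP) : SpecMIN := by
  rintro F hF hP ⟨n, hn⟩
  obtain ⟨C, c, hC, hc, hA⟩ := hALP F hF n hn
  obtain ⟨K, δ, hK, hδ, hE⟩ := hFEJ F hF hP C hC (c / 2) (by positivity)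
  obtain ⟨D, ε, hD, hε, hL⟩ := hCLO F hF C K hC hK δ hδ
  refine ⟨C, D, ε, hC, hD, hε, ?_⟩
  filter_upwards [hA, hE, hL, eventually_gt_atTop 0] with X h1 h2 h3 hX
  by_contra hcon
  obtain ⟨e, he, h4⟩ := h2 (h3 (not_le.1 hcon).le)
  have h5 := h1 e he
  have hXr : (0 : ℝ) < X := by exact_mod_cast hX
  have h6 : c * X ≤ c / 2 * X := h5.trans h4
  nlinarith [mul_pos hc hXr]

theorem specSEED [MA.Sg] (hDYA : SpecDYA) (hMIN : SpecMIN) (hTRI : SpecTRI)
    (hLOW : SpecLOW) (hNEG : SpecNEG) : SpecSEED := by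
  rintro F hF hA hP s ⟨x, y, hne, hs⟩
  have h1 : s = 1 ∨ s = -1 := by
    rw [← hs]
    exact MA.gs_eq_or _
  rcases h1 with rfl | rfl
  · exact hTRI F hF hA (hLOW F hF)
  · exact hDYA F hF hA (hMIN F hF hP (hNEG F.a hF.2 ⟨x, y, hne, hs⟩))

end Pool.Agent.Lib.MP391708.SG
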