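import Pool.Agent.Lib.MP_391708_nt.SG.BAS
import Pool.Agent.Lib.MP_391708_nt.Eqd.Low

/-!
# PRS: sizes of the annuli, pairs with a given cross product
-/

set_option autoImplicit false

namespace Pool.Agent.Lib.MP391708.SG

open Finset Filter Topology
open Pool.Agent.Lib.MP391708.Eqd (V cross)
open scoped Classical

noncomputable section

namespace PRS

variable {F : Fm}

lemma mem_ann (h : F.Pd) {v : V} {X Z : ℕ} :
    v ∈ ann F X Z ↔ prim v ∧ (X : ℤ) < F.q v ∧ F.q v ≤ Z := by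
  unfold ann
  rw [mem_filter]
  exact ⟨fun hv => hv.2, fun hv => ⟨h.mem_bx hv.2.2, hv⟩⟩

/-! ### given cross product -/

lemma same_cross {v v' v'' : V} (hv : prim v) (hc : cross v v' = cross v v'') :
    ∃ k : ℤ, v'.1 - v''.1 = k * v.1 ∧ v'.2 - v''.2 = k * v.2 := by
  obtain ⟨s, t, hst⟩ := hv
  unfold cross at hc
  refine ⟨s * (v'.1 - v''.1) + t * (v'.2 - v''.2), ?_, ?_⟩
  · linear_combination (-(v'.1 - v''.1)) * hst - t * hc
  · linear_combination (-(v'.2 - v''.2)) * hst + s * hc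

lemma b_diff {v v' v'' : V} {k : ℤ} (h1 : v'.1 - v''.1 = k * v.1) (h2 : v'.2 - v''.2 = k * v.2) :
    F.b v v' - F.b v v'' = k * F.q v := by
  unfold Fm.b Fm.q
  linear_combination (F.A * v.1 + F.B * v.2) * h1 + (F.B * v.1 + F.C * v.2) * h2

theorem card_cross (h : F.Pd) (C X : ℕ) (c : ℤ) (hC : 0 < C) (v : V) (hv : v ∈ ann F X (C * X)) :
    ((ann F X (C * X)).filter (fun v' => cross v v' = c)).card ≤ 2 * C + 1 := by
  obtain ⟨hp, hX, hZ⟩ := (mem_ann h).1 hv
  have hq : 0 < F.q v := lt_of_le_of_lt (Int.natCast_nonneg X) hX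
  have hcard : (Icc (-(C : ℤ)) (C : ℤ)).card = 2 * C + 1 := by
    rw [Int.card_Icc]; omega
  rw [← hcard]
  have hC1 : (1 : ℤ) ≤ C := by exact_mod_cast hC
  refine card_le_card_of_injOn (fun v' => F.b v v' / F.q v) ?_ ?_
  · intro v' hv'
    rw [mem_coe, mem_filter] at hv'
    obtain ⟨hv', -⟩ := hv'
    obtain ⟨-, hX', hZ'⟩ := (mem_ann h).1 hv'
    have e1 := F.q_mul v v'
    have e2 : 0 ≤ F.a * cross v v' ^ 2 := mul_nonneg h.2.le (sq_nonneg _)
    have e3 : F.q v' ≤ C * F.q v := by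
      push_cast at hZ'
      nlinarith
    have e4 : F.b v v' ^ 2 ≤ (C * F.q v) ^ 2 := by
      have : F.b v v' ^ 2 ≤ F.q v * F.q v' := by linarith
      have h2 : F.q v * F.q v' ≤ F.q v * (C * F.q v) := mul_le_mul_of_nonneg_left e3 hq.le
      have h3 : F.q v * (C * F.q v) ≤ (C * F.q v) * (C * F.q v) := by
        have : F.q v ≤ C * F.q v := by nlinarith
        exact mul_le_mul_of_nonneg_right this (by positivity)
      nlinarith
    have e5 := abs_le.1 (abs_le_of_sq_le_sq e4 (by positivity))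
    rw [mem_coe, mem_Icc]
    constructor
    · rw [Int.le_ediv_iff_mul_le hq]; linarith [e5.1]
    · exact Int.ediv_le_of_le_mul hq (by linarith [e5.2])
  · intro v' hv' v'' hv'' heq
    rw [mem_coe, mem_filter] at hv' hv''
    obtain ⟨k, h1, h2⟩ := same_cross (v := v) (v' := v') (v'' := v'') hp (hv'.2.trans hv''.2.symm)
    have h3 := b_diff (F := F) h1 h2
    simp only at heq
    have h4 := Int.emod_add_mul_ediv (F.b v v') (F.q v)
    have h5 := Int.emod_add_mul_ediv (F.b v v'') (F.q v)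
    have h6 := Int.emod_nonneg (F.b v v') hq.ne'
    have h7 := Int.emod_lt_of_pos (F.b v v') hq
    have h8 := Int.emod_nonneg (F.b v v'') hq.ne'
    have h9 := Int.emod_lt_of_pos (F.b v v'') hq
    rw [heq] at h4
    have h10 : k * F.q v < F.q v := by linarith
    have h11 : -F.q v < k * F.q v := by linarith
    have hk : k = 0 := by
      have a1 : k < 1 := by
        by_contra hcon
        push Not at hcon
        nlinarith
      have a2 : -1 < k := by
        by_contra hcon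
        push Not at hcon
        nlinarith
      omega
    rw [hk] at h1 h2
    refine Prod.ext ?_ ?_
    · linarith
    · linarith

/-! ### upper bound -/

lemma sq_le (h : F.Pd) {v : V} {Z : ℕ} (hZ : F.q v ≤ Z) :
    v.1 ^ 2 ≤ (F.A + F.C) * Z ∧ v.2 ^ 2 ≤ (F.A + F.C) * Z := by
  have hC := h.C_pos
  have hA := h.1
  have ha := h.2
  have h1 := F.A_mul_q v
  have h2 := F.C_mul_q v
  have hq := h.q_nonneg v
  have f1 : F.A * F.q v ≤ F.A * Z := mul_le_mul_of_nonneg_left hZ hA.le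
  have f2 : F.C * F.q v ≤ F.C * Z := mul_le_mul_of_nonneg_left hZ hC.le
  have f3 : 0 ≤ F.A * (Z : ℤ) := by positivity
  have f4 : 0 ≤ F.C * (Z : ℤ) := by positivity
  have g1 : v.2 ^ 2 ≤ F.a * v.2 ^ 2 := by nlinarith [sq_nonneg v.2]
  have g2 : v.1 ^ 2 ≤ F.a * v.1 ^ 2 := by nlinarith [sq_nonneg v.1]
  constructor
  · nlinarith [sq_nonneg (F.B * v.1 + F.C * v.2)]
  · nlinarith [sq_nonneg (F.A * v.1 + F.B * v.2)]

theorem card_upper (h : F.Pd) (X Z : ℕ) (hZ : 0 < Z) :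
    ((ann F X Z).card : ℝ) ≤ (9 * ((F.A + F.C : ℤ) : ℝ)) * Z := by
  have hC := h.C_pos
  have hA := h.1
  set T : ℕ := (F.A + F.C).toNat * Z with hT
  have hTc : ((T : ℕ) : ℤ) = (F.A + F.C) * Z := by
    rw [hT]; push_cast
    rw [Int.toNat_of_nonneg (by linarith)]
  have hT1 : 1 ≤ T := by
    have : (1 : ℤ) ≤ (T : ℤ) := by
      rw [hTc]
      have : (1 : ℤ) ≤ Z := by exact_mod_cast hZ
      nlinarith
    exact_mod_cast this
  set s : ℕ := Nat.sqrt T with hs
  have hs1 : 1 ≤ s := by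
    rw [hs]; exact Nat.le_sqrt.2 (by omega)
  have hs2 : s * s ≤ T := Nat.sqrt_le T
  have hsub : ann F X Z ⊆ Icc (-(s : ℤ)) s ×ˢ Icc (-(s : ℤ)) s := by
    intro v hv
    obtain ⟨-, -, hv⟩ := (mem_ann h).1 hv
    have h1 := sq_le h hv
    have key : ∀ t : ℤ, t ^ 2 ≤ (F.A + F.C) * Z → t ∈ Icc (-(s : ℤ)) s := by
      intro t ht
      have h2 : t.natAbs * t.natAbs ≤ T := by
        have : ((t.natAbs * t.natAbs : ℕ) : ℤ) ≤ (T : ℤ) := by
          rw [Int.natAbs_mul_self, hTc]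
          nlinarith
        exact_mod_cast this
      have h3 : t.natAbs ≤ s := Nat.le_sqrt.2 h2
      rw [mem_Icc]
      omega
    rw [mem_product]
    exact ⟨key _ h1.1, key _ h1.2⟩
  have h1 := card_le_card hsub
  rw [card_product, Int.card_Icc] at h1
  have h2 : ((s : ℤ) + 1 - -(s : ℤ)).toNat = 2 * s + 1 := by omega
  rw [h2] at h1
  have h3 : (2 * s + 1) * (2 * s + 1) ≤ 9 * T := by nlinarith
  have h4 : (ann F X Z).card ≤ 9 * T := h1.trans h3
  have h5 : ((T : ℕ) : ℝ) = ((F.A + F.C : ℤ) : ℝ) * Z := by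
    have := congrArg (fun z : ℤ => (z : ℝ)) hTc
    push_cast at this ⊢
    exact this
  calc ((ann F X Z).card : ℝ) ≤ ((9 * T : ℕ) : ℝ) := by exact_mod_cast h4
    _ = (9 * ((F.A + F.C : ℤ) : ℝ)) * Z := by push_cast; rw [h5]; push_cast; ring

/-! ### lower bound -/

lemma box_mem (h : F.Pd) {X m K x y : ℕ} (hX0 : 0 < X)
    (h1 : 100 * F.A * (m : ℤ) ^ 2 ≤ X) (h2 : (X : ℤ) < 100 * F.A * ((m : ℤ) + 1) ^ 2)
    (hKB : 100 * |F.B| ≤ K) (hKC : 100 * F.C ≤ K) (hx1 : 11 * (m + 1) < x) (hx2 : x ≤ 13 * m)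
    (hy : K * y ≤ m) (hcop : Nat.Coprime x y) :
    ((x : ℤ), (y : ℤ)) ∈ ann F X (2 * X) := by
  have hA := h.1
  have hC := h.C_pos
  have hx1' : 11 * ((m : ℤ) + 1) < x := by exact_mod_cast hx1
  have hx2' : (x : ℤ) ≤ 13 * m := by exact_mod_cast hx2
  have hy' : (K : ℤ) * y ≤ m := by exact_mod_cast hy
  have hm0 : (0 : ℤ) ≤ m := Int.natCast_nonneg m
  have hx0 : (0 : ℤ) ≤ x := Int.natCast_nonneg x
  have hy0 : (0 : ℤ) ≤ y := Int.natCast_nonneg y
  have hB : 100 * (|F.B| * y) ≤ m := by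
    have := mul_le_mul_of_nonneg_right hKB hy0
    linarith
  have hCy : 100 * (F.C * y) ≤ m := by
    have := mul_le_mul_of_nonneg_right hKC hy0
    linarith
  have hym : (y : ℤ) ≤ m := by
    have : (y : ℤ) ≤ F.C * y := by nlinarith
    have : (0 : ℤ) ≤ F.C * y := by positivity
    linarith
  have hmX : 100 * (m : ℤ) ^ 2 ≤ X := by
    have : 100 * (m : ℤ) ^ 2 ≤ 100 * F.A * (m : ℤ) ^ 2 := by
      have : 0 ≤ (m : ℤ) ^ 2 := sq_nonneg _
      nlinarith
    linarith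
  have hX0' : (0 : ℤ) < X := by exact_mod_cast hX0
  have hBxy : 100 * (|F.B| * (x * y)) ≤ 13 * (m : ℤ) ^ 2 := by
    have : (x : ℤ) * (100 * (|F.B| * y)) ≤ (13 * m) * m :=
      mul_le_mul hx2' hB (by positivity) (by positivity)
    nlinarith
  have hBxy1 : -(|F.B| * (x * y)) ≤ F.B * (x * y) ∧ F.B * (x * y) ≤ |F.B| * (x * y) := by
    have hxy : (0 : ℤ) ≤ x * y := by positivity
    constructor
    · have := mul_le_mul_of_nonneg_right (neg_abs_le F.B) hxy
      linarith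
    · exact mul_le_mul_of_nonneg_right (le_abs_self F.B) hxy
  have hCyy : 100 * (F.C * y ^ 2) ≤ (m : ℤ) ^ 2 := by
    have : (y : ℤ) * (100 * (F.C * y)) ≤ m * m := mul_le_mul hym hCy (by positivity) hm0
    nlinarith
  have hCyy0 : 0 ≤ F.C * (y : ℤ) ^ 2 := by positivity
  have hAx1 : 121 * (X : ℤ) ≤ 100 * (F.A * (x : ℤ) ^ 2) := by
    have e1 : (11 * ((m : ℤ) + 1)) ^ 2 ≤ (x : ℤ) ^ 2 := by
      apply pow_le_pow_left₀ (by positivity) hx1'.le
    have e2 : F.A * (11 * ((m : ℤ) + 1)) ^ 2 ≤ F.A * (x : ℤ) ^ 2 :=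
      mul_le_mul_of_nonneg_left e1 hA.le
    nlinarith
  have hAx2 : 100 * (F.A * (x : ℤ) ^ 2) ≤ 169 * X := by
    have e1 : (x : ℤ) ^ 2 ≤ (13 * (m : ℤ)) ^ 2 := pow_le_pow_left₀ hx0 hx2' 2
    have e2 : F.A * (x : ℤ) ^ 2 ≤ F.A * (13 * (m : ℤ)) ^ 2 := mul_le_mul_of_nonneg_left e1 hA.le
    nlinarith
  rw [mem_ann h]
  have hqe : F.q ((x : ℤ), (y : ℤ)) = F.A * (x : ℤ) ^ 2 + 2 * (F.B * (x * y)) + F.C * (y : ℤ) ^ 2 := by
    unfold Fm.q; ring
  rw [hqe]
  refine ⟨?_, ?_, ?_⟩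
  · exact Nat.isCoprime_iff_coprime.2 hcop
  · linarith [hBxy1.1]
  · push_cast
    linarith [hBxy1.2]

lemma real_bound {m K : ℝ} (hK : 1 ≤ K) (hm : (592 * K) ^ 2 ≤ m) (P Q R : ℝ)
    (hP : m ≤ P) (hP2 : P ≤ 2 * m) (hQ : m / (2 * K) ≤ Q) (hQ2 : Q ≤ m)
    (hR : R ≤ 3 / 4 * P * Q + (P + Q) * (2 * Real.sqrt (13 * m)) + 13 * m) :
    m ^ 2 / (16 * K) ≤ P * Q - R := by
  have hK0 : 0 < K := by linarith
  have hm1 : 1 ≤ m := by nlinarith
  have hm0 : 0 < m := by linarith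
  have hs0 : 0 ≤ Real.sqrt m := Real.sqrt_nonneg m
  have hs : Real.sqrt m * Real.sqrt m = m := Real.mul_self_sqrt hm0.le
  have hs1 : 592 * K ≤ Real.sqrt m := by
    have := Real.sqrt_le_sqrt hm
    rwa [Real.sqrt_sq (by positivity)] at this
  have h13 : Real.sqrt (13 * m) ≤ 4 * Real.sqrt m := by
    rw [Real.sqrt_mul (by norm_num)]
    refine mul_le_mul_of_nonneg_right ?_ hs0
    rw [Real.sqrt_le_left (by norm_num)]
    norm_num
  have hs1' : 1 ≤ Real.sqrt m := by nlinarith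
  have hPQ : m * (m / (2 * K)) ≤ P * Q :=
    mul_le_mul hP hQ (by positivity) (by linarith)
  have hPQ2 : (P + Q) * (2 * Real.sqrt (13 * m)) ≤ (3 * m) * (2 * (4 * Real.sqrt m)) := by
    refine mul_le_mul (by linarith) (by linarith) (by positivity) (by positivity)
  have hmm : 13 * m ≤ 13 * (m * Real.sqrt m) := by nlinarith
  have hfin : 37 * (m * Real.sqrt m) ≤ m ^ 2 / (16 * K) := by
    rw [le_div_iff₀ (by positivity)]
    have : m * Real.sqrt m * (592 * K) ≤ m * Real.sqrt m * Real.sqrt m :=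
      mul_le_mul_of_nonneg_left hs1 (by positivity)
    calc 37 * (m * Real.sqrt m) * (16 * K) = m * Real.sqrt m * (592 * K) := by ring
      _ ≤ m * Real.sqrt m * Real.sqrt m := this
      _ = m ^ 2 := by rw [mul_assoc, hs]; ring
  have h8 : m * (m / (2 * K)) = 8 * (m ^ 2 / (16 * K)) := by
    field_simp
    ring
  rw [h8] at hPQ
  have : 0 ≤ m ^ 2 / (16 * K) := by positivity
  nlinarith

theorem card_lower (h : F.Pd) :
    ∃ c : ℝ, 0 < c ∧ ∀ᶠ X : ℕ in atTop, c * X ≤ ((ann F X (2 * X)).card : ℝ) := by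
  have hA := h.1
  have hC := h.C_pos
  obtain ⟨A, hAe⟩ : ∃ A : ℕ, (A : ℤ) = F.A := ⟨F.A.toNat, Int.toNat_of_nonneg hA.le⟩
  have hA0 : 0 < A := by
    have : (0 : ℤ) < (A : ℤ) := by rw [hAe]; exact hA
    exact_mod_cast this
  set K : ℕ := 100 * (F.B.natAbs + F.C.natAbs + 1) with hK
  have hK1 : 1 ≤ K := by omega
  have hKB : 100 * |F.B| ≤ (K : ℤ) := by
    rw [hK]; push_cast
    have := abs_nonneg F.C
    linarith
  have hKC : 100 * F.C ≤ (K : ℤ) := by
    rw [hK]; push_cast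
    have := abs_nonneg F.B
    have := le_abs_self F.C
    linarith
  refine ⟨1 / (16 * K) / (400 * A), by positivity, ?_⟩
  filter_upwards [eventually_ge_atTop (100 * A * ((592 * K) ^ 2 * (592 * K) ^ 2))] with X hX
  set m : ℕ := Nat.sqrt (X / (100 * A)) with hm
  have hmM : (592 * K) ^ 2 ≤ m := by
    rw [hm, Nat.le_sqrt, Nat.le_div_iff_mul_le (by positivity)]
    nlinarith
  have hm1 : 592 * K ≤ m := by nlinarith
  have hmm : m * m ≤ X / (100 * A) := Nat.sqrt_le _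
  have h1 : 100 * A * (m * m) ≤ X := by
    have := (Nat.le_div_iff_mul_le (by positivity)).1 hmm
    nlinarith
  have h2 : X < 100 * A * ((m + 1) * (m + 1)) := by
    have h3 : X / (100 * A) < (m + 1) * (m + 1) := Nat.lt_succ_sqrt _
    have := (Nat.div_lt_iff_lt_mul (by positivity)).1 h3
    nlinarith
  have hX0 : 0 < X := by
    have : 0 < 100 * A * (m * m) := by
      have : 0 < m := by omega
      positivity
    omega
  have h1' : 100 * F.A * (m : ℤ) ^ 2 ≤ X := by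
    rw [← hAe]
    have : ((100 * A * (m * m) : ℕ) : ℤ) ≤ X := by exact_mod_cast h1
    push_cast at this
    nlinarith
  have h2' : (X : ℤ) < 100 * F.A * ((m : ℤ) + 1) ^ 2 := by
    rw [← hAe]
    have : (X : ℤ) < ((100 * A * ((m + 1) * (m + 1)) : ℕ) : ℤ) := by exact_mod_cast h2
    push_cast at this
    nlinarith
  -- the injection
  set Bx := Ioc (11 * (m + 1)) (13 * m) ×ˢ Ioc 0 (m / K) with hBx
  have hinj : (Bx.filter (fun x => Nat.Coprime x.1 x.2)).card ≤ (ann F X (2 * X)).card := by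
    refine card_le_card_of_injOn (fun x => ((x.1 : ℤ), (x.2 : ℤ))) ?_ ?_
    · intro x hx
      rw [mem_coe, mem_filter, hBx, mem_product, mem_Ioc, mem_Ioc] at hx
      obtain ⟨⟨⟨a1, a2⟩, a3, a4⟩, a5⟩ := hx
      refine box_mem (K := K) h hX0 h1' h2' hKB hKC a1 a2 ?_ a5
      exact (Nat.mul_le_mul_left K a4).trans (Nat.mul_div_le m K)
    · intro x _ y _ hxy
      simp only [Prod.mk.injEq, Nat.cast_inj] at hxy
      exact Prod.ext hxy.1 hxy.2
  have hsplit : (Bx.filter (fun x => Nat.Coprime x.1 x.2)).card +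
      (Bx.filter (fun x => ¬ Nat.Coprime x.1 x.2)).card = Bx.card :=
    card_filter_add_card_filter_not _
  have hcard : Bx.card = (13 * m - 11 * (m + 1)) * (m / K) := by
    rw [hBx, card_product, Nat.card_Ioc, Nat.card_Ioc, Nat.sub_zero]
  have hR := Eqd.Low.card_noncop (11 * (m + 1)) (13 * m) 0 (m / K)
  rw [Nat.sub_zero] at hR
  have hKR : (1 : ℝ) ≤ (K : ℝ) := by exact_mod_cast hK1
  have hdiv : (m : ℝ) / (2 * K) ≤ ((m / K : ℕ) : ℝ) := by
    have e1 : m < K * (m / K) + K := by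
      have := Nat.div_add_mod m K
      have := Nat.mod_lt m (show 0 < K by omega)
      omega
    have e2 : (m : ℝ) < K * ((m / K : ℕ) : ℝ) + K := by exact_mod_cast e1
    rw [div_le_iff₀ (by positivity)]
    have e3 : (592 * (K : ℝ)) ≤ m := by exact_mod_cast hm1
    nlinarith
  have key := real_bound (m := m) (K := K) hKR (by exact_mod_cast hmM)
    (((13 * m - 11 * (m + 1) : ℕ) : ℝ)) (((m / K : ℕ) : ℝ))
    (((Bx.filter (fun x => ¬ Nat.Coprime x.1 x.2)).card : ℝ))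
    (by
      have : m ≤ 13 * m - 11 * (m + 1) := by omega
      exact_mod_cast this)
    (by
      have : 13 * m - 11 * (m + 1) ≤ 2 * m := by omega
      exact_mod_cast this)
    hdiv
    (by exact_mod_cast Nat.div_le_self m K)
    (by
      have e := hR
      push_cast at e ⊢
      exact e)
  have hsplit' : ((Bx.filter (fun x => Nat.Coprime x.1 x.2)).card : ℝ) =
      ((13 * m - 11 * (m + 1) : ℕ) : ℝ) * ((m / K : ℕ) : ℝ) -
        ((Bx.filter (fun x => ¬ Nat.Coprime x.1 x.2)).card : ℝ) := by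
    have := hsplit
    rw [hcard] at this
    have h3 : (((Bx.filter (fun x => Nat.Coprime x.1 x.2)).card +
      (Bx.filter (fun x => ¬ Nat.Coprime x.1 x.2)).card : ℕ) : ℝ) =
        (((13 * m - 11 * (m + 1)) * (m / K) : ℕ) : ℝ) := by rw [this]
    push_cast at h3 ⊢
    linarith
  rw [← hsplit'] at key
  have hXm : (X : ℝ) ≤ 400 * A * (m : ℝ) ^ 2 := by
    have e1 : X ≤ 400 * A * (m * m) := by
      have : (m + 1) * (m + 1) ≤ 4 * (m * m) := by nlinarith
      have := Nat.mul_le_mul_left (100 * A) this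
      nlinarith
    have e2 : (X : ℝ) ≤ ((400 * A * (m * m) : ℕ) : ℝ) := by exact_mod_cast e1
    push_cast at e2
    nlinarith
  have hfin : 1 / (16 * K) / (400 * A) * (X : ℝ) ≤ (m : ℝ) ^ 2 / (16 * K) := by
    have hA0' : (0 : ℝ) < A := by exact_mod_cast hA0
    have : 1 / (16 * K) / (400 * A) * (X : ℝ) ≤ 1 / (16 * K) / (400 * A) * (400 * A * (m : ℝ) ^ 2) :=
      mul_le_mul_of_nonneg_left hXm (by positivity)
    refine this.trans (le_of_eq ?_)
    field_simp
  refine hfin.trans (key.trans ?_)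
  exact_mod_cast hinj

end PRS

theorem specPRS : SpecPRS := by
  intro F h
  refine ⟨PRS.card_lower h, ⟨9 * ((F.A + F.C : ℤ) : ℝ), ?_, fun X Z hZ => PRS.card_upper h X Z hZ⟩,
    fun C X c hC _ v hv => PRS.card_cross h C X c hC v hv⟩
  have h1 : (0 : ℤ) < F.A + F.C := add_pos h.1 h.C_pos
  have : (0 : ℝ) < ((F.A + F.C : ℤ) : ℝ) := by exact_mod_cast h1
  positivity

end

end Pool.Agent.Lib.MP391708.SG
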