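import Pool.Agent.Lib.MP_391708_nt.SG.BAS
import Pool.Agent.Lib.MP_391708_nt.SG.PRS
import Pool.Agent.Lib.MP_391708_nt.SG.BRI
import Pool.Agent.Lib.MP_391708_nt.SG.CHN
import Pool.Agent.Lib.MP_391708_nt.SG.ALP
import Pool.Agent.Lib.MP_391708_nt.SG.FEJ
import Pool.Agent.Lib.MP_391708_nt.SG.MIN
import Pool.Agent.Lib.MP_391708_nt.SG.DYA
import Pool.Agent.Lib.MP_391708_nt.SG.TRI
import Pool.Agent.Lib.MP_391708_nt.SG.LOW
import Pool.Agent.Lib.MP_391708_nt.SG.NEG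
import Pool.Agent.Lib.MP_391708_nt.MA.Main

/-!
# Group S: the seeds for every `a ≥ 1` and every sign taken by `x² + a y²`
-/

set_option autoImplicit false

namespace Pool.Agent.Lib.MP391708.SG

open Finset Filter Topology
open Pool.Agent.Lib.MP391708.MA (Sg gs)
open scoped Classical

theorem seed [Sg] : SpecSEED :=
  specSEED (specDYA specBAS)
    (specMIN (specCLO specBAS (specCHN specBAS)) (specFEJ specBAS specPRS) (specALP specBAS specPRS))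
    (specTRI specBAS) specLOW specNEG

/-- **The seeds**: for every `a ≥ 1` and every completely multiplicative sign function. -/
theorem seeds [Sg] {a : ℕ} (ha : 0 < a) : ∃ F : Fm, F.Pd ∧ F.a = a ∧
    ∀ s : ℤ, (∃ x y : ℤ, x ^ 2 + F.a * y ^ 2 ≠ 0 ∧ lam (x ^ 2 + F.a * y ^ 2) = s) →
      ∃ (T : ℕ) (c : ℝ), 0 < T ∧ 0 < c ∧ ∀ᶠ N : ℕ in atTop, ∃ N' : ℕ, N ≤ T * N' ∧ N' ≤ N ∧
        c * N' ≤ (((G1 F N').filter (fun x => lam (F.b x.1 x.2 ^ 2 + F.a) = s)).card : ℝ) := by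
  obtain ⟨b, c, g, τ, hg, h4, ht, hq, h⟩ := MA.specMA a ha
  obtain ⟨F, hF, hA, hFa, hP⟩ := specBRI specBAS b c g τ hg a ha h4 ht hq h
  exact ⟨F, hF, hFa, seed F hF hA hP⟩

end Pool.Agent.Lib.MP391708.SG
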