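import Pool.Agent.Lib.MP_391708_nt.SG.Spec

/-!
# NEG: there is `n` with `λ(n² + a) = -1` if some `x² + a y²` has the sign `-1`

The sign of `x² + a y²` is constant along the edges of the Farey graph if all `λ(n² + a)` are one.
-/

set_option autoImplicit false

namespace Pool.Agent.Lib.MP391708.SG

namespace NEGM

theorem lam_mul [MA.Sg] {m n : ℤ} (hm : m ≠ 0) (hn : n ≠ 0) : lam (m * n) = lam m * lam n := by
  unfold lam
  rw [Int.natAbs_mul, MA.gs_mul (Int.natAbs_ne_zero.2 hm) (Int.natAbs_ne_zero.2 hn)]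

theorem lam_val [MA.Sg] (n : ℤ) : lam n = 1 ∨ lam n = -1 := MA.gs_eq_or _

theorem lam_one [MA.Sg] : lam 1 = 1 := MA.gs_one

theorem exists_nb {x y : ℤ} (h : IsCoprime x y) (hx : x ≠ 0) (hxy : 2 ≤ |x| + |y|) :
    ∃ u w : ℤ, x * w - y * u = 1 ∧ |u| + |w| < |x| + |y| := by
  obtain ⟨α, β, hαβ⟩ := h
  have hx0 : 0 < |x| := abs_pos.2 hx
  set u := (-β) % x with hu
  have hu0 : 0 ≤ u := Int.emod_nonneg _ hx
  have hu1 : u < |x| := Int.emod_lt_abs _ hx
  have hdiv : x ∣ (-β) - u := Int.dvd_self_sub_emod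
  obtain ⟨k, hk⟩ := hdiv
  refine ⟨u, α - y * k, ?_, ?_⟩
  · have : u = -β - x * k := by linarith
    rw [this]
    linear_combination hαβ
  · have e : x * (α - y * k) = 1 + y * u := by
      have : u = -β - x * k := by linarith
      rw [this]
      linear_combination hαβ
    have h1 : |x| * |α - y * k| ≤ 1 + |y| * (|x| - 1) := by
      rw [← abs_mul, e]
      calc |1 + y * u| ≤ |1| + |y * u| := abs_add_le _ _
        _ = 1 + |y| * u := by rw [abs_one, abs_mul, abs_of_nonneg hu0]
        _ ≤ 1 + |y| * (|x| - 1) := by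
          have := mul_le_mul_of_nonneg_left (show u ≤ |x| - 1 by omega) (abs_nonneg y)
          linarith
    have h2 : |α - y * k| ≤ |y| := by
      by_contra hc
      have h3 : |y| + 1 ≤ |α - y * k| := by omega
      have h4 := mul_le_mul_of_nonneg_left h3 hx0.le
      nlinarith
    rw [abs_of_nonneg hu0]
    omega

theorem all_one [MA.Sg] {a : ℤ} (ha : 0 < a) (h : ∀ n : ℤ, lam (n ^ 2 + a) = 1) (N : ℕ) :
    ∀ x y : ℤ, IsCoprime x y → |x| + |y| ≤ N → lam (x ^ 2 + a * y ^ 2) = 1 := by
  induction N with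
  | zero =>
    intro x y hc hN
    have hx : x = 0 := by
      have := abs_nonneg y
      have := abs_nonneg x
      exact abs_eq_zero.1 (by push_cast at hN; omega)
    have hy : y = 0 := by
      have := abs_nonneg y
      have := abs_nonneg x
      exact abs_eq_zero.1 (by push_cast at hN; omega)
    rw [hx, hy, isCoprime_zero_left] at hc
    exact absurd hc not_isUnit_zero
  | succ N ih =>
    intro x y hc hN
    by_cases hxy : 2 ≤ |x| + |y|
    · by_cases hx : x = 0
      · exfalso
        rw [hx, isCoprime_zero_left, Int.isUnit_iff] at hc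
        rw [hx] at hxy
        rcases hc with rfl | rfl <;> simp at hxy
      · obtain ⟨u, w, h1, h2⟩ := exists_nb hc hx hxy
        have h3 : lam (u ^ 2 + a * w ^ 2) = 1 := by
          refine ih u w ⟨-y, x, by linarith⟩ ?_
          push_cast at hN ⊢
          omega
        have h4 : (x ^ 2 + a * y ^ 2) * (u ^ 2 + a * w ^ 2) = (x * u + a * y * w) ^ 2 + a := by
          have : (x ^ 2 + a * y ^ 2) * (u ^ 2 + a * w ^ 2) =
            (x * u + a * y * w) ^ 2 + a * (x * w - y * u) ^ 2 := by ring
          rw [this, h1]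
          ring
        have h5 : (x * u + a * y * w) ^ 2 + a ≠ 0 := by positivity
        have h6 : x ^ 2 + a * y ^ 2 ≠ 0 := by
          intro h0
          rw [h0, zero_mul] at h4
          exact h5 h4.symm
        have h7 : u ^ 2 + a * w ^ 2 ≠ 0 := by
          intro h0
          rw [h0, mul_zero] at h4
          exact h5 h4.symm
        have h8 := lam_mul h6 h7
        rw [h4, h, h3, mul_one] at h8
        exact h8.symm
    · have hx := abs_nonneg x
      have hy := abs_nonneg y
      rcases eq_or_ne x 0 with rfl | hx0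
      · rw [isCoprime_zero_left, Int.isUnit_iff] at hc
        have h0 := h 0
        rcases hc with rfl | rfl
        · simpa using h0
        · simpa using h0
      · have h1 : 1 ≤ |x| := Int.one_le_abs hx0
        have h2 : |y| = 0 := by omega
        rw [abs_eq_zero] at h2
        have h3 : |x| = 1 := by
          rw [h2, abs_zero] at hxy
          omega
        have h4 : x ^ 2 = 1 := by rw [← sq_abs, h3, one_pow]
        rw [h2, h4]
        simpa using lam_one

end NEGM

open NEGM

theorem specNEG [MA.Sg] : SpecNEG := by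
  rintro a ha ⟨x, y, hne, h1⟩
  by_contra hcon
  have h : ∀ n : ℤ, lam (n ^ 2 + a) = 1 := by
    intro n
    rcases lam_val (n ^ 2 + a) with h | h
    · exact h
    · exact absurd ⟨n, h⟩ hcon
  have h0 : ¬ (x = 0 ∧ y = 0) := by
    rintro ⟨rfl, rfl⟩
    simp at hne
  have hg : 0 < Int.gcd x y := by
    rw [Nat.pos_iff_ne_zero, Ne, Int.gcd_eq_zero_iff]
    exact h0
  obtain ⟨g, x', y', hg0, hco, hx, hy⟩ : ∃ (g x' y' : ℤ), g ≠ 0 ∧ IsCoprime x' y' ∧
      x = x' * g ∧ y = y' * g := by
    obtain ⟨x', y', h1, h2, h3⟩ := Int.exists_gcd_one hg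
    exact ⟨Int.gcd x y, x', y', by exact_mod_cast hg.ne', Int.isCoprime_iff_gcd_eq_one.2 h1, h2, h3⟩
  have h2 := all_one ha h (|x'| + |y'|).toNat x' y' hco (by
    rw [Int.toNat_of_nonneg (by positivity)])
  have h3 : x ^ 2 + a * y ^ 2 = (g * g) * (x' ^ 2 + a * y' ^ 2) := by
    rw [hx, hy]
    ring
  have h4 : x' ^ 2 + a * y' ^ 2 ≠ 0 := by
    intro h5
    rw [h5, mul_zero] at h3
    exact hne h3
  rw [h3, lam_mul (mul_ne_zero hg0 hg0) h4, lam_mul hg0 hg0, h2, mul_one] at h1
  rcases lam_val g with h5 | h5 <;> rw [h5] at h1 <;> norm_num at h1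

end Pool.Agent.Lib.MP391708.SG
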