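import Pool.Agent.Lib.MP_391708_nt.Eqd.Defs
import Pool.Agent.Lib.MP_391708_nt.MA.Sg

/-!
# Group S of T1a: both signs on a positive proportion of the critical pairs (`n² + a`, every `a ≥ 1`)

`F = (A, 2B, C)` is a positive definite form of determinant `a = A C - B²`, `q` its values, `b` the
bilinear form, `q v * q w = (b v w)² + a (cross v w)²`, `f v = λ(q v)`, `λ` any completely multiplicative
function with values `1`, `-1` (the instance `Sg`).  A critical pair: `cross = ± 1`,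
`b v w < q v ≤ 3 b v w`.  No rings are used; the only input is `PRIN F` (frequencies `k ≠ 0`).

Module `XXX` = `SG/XXX.lean`, theorem `Pool.Agent.Lib.MP391708.SG.specXXX : SpecXXX`.
-/

set_option autoImplicit false

namespace Pool.Agent.Lib.MP391708.SG

open Finset Filter Topology
open Pool.Agent.Lib.MP391708.Eqd (V cross)
open Pool.Agent.Lib.MP391708.MA (Sg gs)
open scoped Classical

noncomputable section

/-! ## Definitions -/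

/-- the form `A x² + 2 B x y + C y²` -/
structure Fm where
  A : ℤ
  B : ℤ
  C : ℤ

namespace Fm

variable (F : Fm)

/-- the determinant -/
def a : ℤ := F.A * F.C - F.B ^ 2

def q (v : V) : ℤ := F.A * v.1 ^ 2 + 2 * F.B * v.1 * v.2 + F.C * v.2 ^ 2

def b (v w : V) : ℤ := F.A * v.1 * w.1 + F.B * (v.1 * w.2 + v.2 * w.1) + F.C * v.2 * w.2

/-- positive definite -/
def Pd : Prop := 0 < F.A ∧ 0 < F.a

/-- there is an improper automorphism (true for multiples of norm forms) -/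
def Amb : Prop := ∃ s : V → V, Function.Injective s ∧ (∀ v w, cross (s v) (s w) = -cross v w) ∧
  ∀ v w, F.b (s v) (s w) = F.b v w

end Fm

variable [Sg]

/-- the completely multiplicative sign function -/
def lam (n : ℤ) : ℤ := gs n.natAbs

/-- `f v = λ(q v)` -/
def Fm.f (F : Fm) (v : V) : ℤ := lam (F.q v)

def prim (v : V) : Prop := IsCoprime v.1 v.2

/-- the vectors with coordinates of absolute value at most `(A + C) Z`; contains all `v` with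
`q v ≤ Z` -/
def bx (F : Fm) (Z : ℕ) : Finset V :=
  Icc (-((F.A + F.C) * Z)) ((F.A + F.C) * Z) ×ˢ Icc (-((F.A + F.C) * Z)) ((F.A + F.C) * Z)

/-- the primitive vectors with `X < q v ≤ Z` -/
def ann (F : Fm) (X Z : ℕ) : Finset V :=
  (bx F Z).filter (fun v => prim v ∧ (X : ℤ) < F.q v ∧ F.q v ≤ Z)

/-- the critical pairs with `N < b ≤ 2 N`, `cross = -1` -/
def G1 (F : Fm) (N : ℕ) : Finset (V × V) :=
  (bx F (6 * N + F.a.natAbs) ×ˢ bx F (6 * N + F.a.natAbs)).filter (fun x =>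
    cross x.1 x.2 = -1 ∧ (N : ℤ) < F.b x.1 x.2 ∧ F.b x.1 x.2 ≤ 2 * N ∧
      F.b x.1 x.2 < F.q x.1 ∧ F.q x.1 ≤ 3 * F.b x.1 x.2)

/-- the bad edges: critical pairs of both orientations with different signs, `Y < b`, `q ≤ Z` -/
def Eb (F : Fm) (Y Z : ℕ) : Finset (V × V) :=
  (bx F (Z + F.a.natAbs) ×ˢ bx F (Z + F.a.natAbs)).filter (fun x =>
    (cross x.1 x.2 = -1 ∨ cross x.1 x.2 = 1) ∧ (Y : ℤ) < F.b x.1 x.2 ∧
      F.b x.1 x.2 < F.q x.1 ∧ F.q x.1 ≤ 3 * F.b x.1 x.2 ∧ F.q x.1 ≤ Z ∧ F.f x.1 ≠ F.f x.2)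

/-- the direction of `v`, a complex number of absolute value one -/
def dir (F : Fm) (v : V) : ℂ :=
  (((F.A * v.1 + F.B * v.2 : ℤ) : ℂ) + Complex.I * (Real.sqrt (F.a : ℝ) : ℂ) * (v.2 : ℂ)) /
    ((Real.sqrt ((F.A * F.q v : ℤ) : ℝ) : ℝ) : ℂ)

/-- the input: mean square of the sums with frequencies `0 < |k| ≤ X / H` -/
def PRIN (F : Fm) : Prop := ∀ (C : ℕ) (ε : ℝ), 0 < ε → ∃ H₀ : ℕ, ∀ H : ℕ, H₀ ≤ H → 0 < H →
  ∀ᶠ X : ℕ in atTop,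
    ∑ k ∈ (Icc (-((X / H : ℕ) : ℤ)) ((X / H : ℕ) : ℤ)).filter (fun k => k ≠ 0),
      ‖∑ v ∈ ann F X (C * X), (F.f v : ℂ) * dir F v ^ k‖ ^ 2 ≤ ε * (X : ℝ) ^ 2

/-! ## Basic facts -/

/-- BAS. `q v q w = b² + a cross²` (ring); membership in the boxes: `a v.2² ≤ A q v`,
`a v.1² ≤ C q v`; `dir v * conj (dir w) = (b - i √a cross) / √(q v q w)`. -/
def SpecBAS : Prop := ∀ F : Fm, F.Pd →
  (∀ v w, F.q v * F.q w = F.b v w ^ 2 + F.a * cross v w ^ 2) ∧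
  (∀ v, 0 ≤ F.q v) ∧ (∀ v, v ≠ 0 → 0 < F.q v) ∧
  (∀ v (Z : ℕ), F.q v ≤ Z → v ∈ bx F Z) ∧
  (∀ v (X Z : ℕ), v ∈ ann F X Z ↔ prim v ∧ (X : ℤ) < F.q v ∧ F.q v ≤ Z) ∧
  (∀ x (N : ℕ), x ∈ G1 F N ↔ cross x.1 x.2 = -1 ∧ (N : ℤ) < F.b x.1 x.2 ∧ F.b x.1 x.2 ≤ 2 * N ∧
      F.b x.1 x.2 < F.q x.1 ∧ F.q x.1 ≤ 3 * F.b x.1 x.2) ∧
  (∀ x (Y Z : ℕ), x ∈ Eb F Y Z ↔ (cross x.1 x.2 = -1 ∨ cross x.1 x.2 = 1) ∧
      (Y : ℤ) < F.b x.1 x.2 ∧ F.b x.1 x.2 < F.q x.1 ∧ F.q x.1 ≤ 3 * F.b x.1 x.2 ∧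
      F.q x.1 ≤ Z ∧ F.f x.1 ≠ F.f x.2) ∧
  (∀ v w, v ≠ 0 → w ≠ 0 → dir F v * (starRingEnd ℂ) (dir F w) *
      ((Real.sqrt ((F.q v * F.q w : ℤ) : ℝ) : ℝ) : ℂ) =
        ((F.b v w : ℤ) : ℂ) - Complex.I * (Real.sqrt (F.a : ℝ) : ℂ) * ((cross v w : ℤ) : ℂ)) ∧
  (∀ v, v ≠ 0 → ‖dir F v‖ = 1) ∧ (∀ v, F.f v = 1 ∨ F.f v = -1) ∧ (∀ v, F.f (-v) = F.f v) ∧
  (∀ v w, cross v w = 1 ∨ cross v w = -1 → F.f v * F.f w = lam (F.b v w ^ 2 + F.a))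

/-! ## Close pairs -/

/-- CHN (helper66, from BAS). For every finite set `S` of pairs of primitive vectors with
`|cross| ≤ K`, `b > 0`, `X < q ≤ C X` and different signs there is a set of bad edges with
`card S ≤ c card T`; `T ⊆ Eb F (X / D) (C X)`. -/
def SpecCHN : Prop := ∀ F : Fm, F.Pd → ∀ C K : ℕ, 0 < C → 0 < K → ∃ D c : ℕ, 0 < D ∧
  ∀ᶠ X : ℕ in atTop,
    ((ann F X (C * X) ×ˢ ann F X (C * X)).filter (fun x =>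
      |cross x.1 x.2| ≤ K ∧ 0 < F.b x.1 x.2 ∧ F.f x.1 ≠ F.f x.2)).card ≤
      c * (Eb F (X / D) (C * X)).card

/-- PRS (from BAS). Sizes. Lower bound for the number of primitive vectors in `(X, 2 X]`: coprime pairs in a
box (`Eqd.Low`); upper bound; for given `v` and `c` the `b v v'` are in one residue class modulo `q v` and
`|b v v'| ≤ √(q v q v') ≤ C q v`. -/
def SpecPRS : Prop := ∀ F : Fm, F.Pd →
  (∃ c : ℝ, 0 < c ∧ ∀ᶠ X : ℕ in atTop, c * X ≤ ((ann F X (2 * X)).card : ℝ)) ∧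
  (∃ c : ℝ, 0 < c ∧ ∀ X Z : ℕ, 0 < Z → ((ann F X Z).card : ℝ) ≤ c * Z) ∧
  (∀ (C X : ℕ) (c : ℤ), 0 < C → 0 < X → ∀ v ∈ ann F X (C * X),
    ((ann F X (C * X)).filter (fun v' => cross v v' = c)).card ≤ 2 * C + 1)

/-- CLO (from BAS, CHN). Close pairs: if there are few bad edges then `f v = f v'` for almost all close
pairs. `b v v' < 0`: replace `v'` by `-v'`; `b v v' = 0` is impossible for large `X`
(`q v q v' = a cross² ≤ a K²`). -/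
def SpecCLO : Prop := ∀ F : Fm, F.Pd → ∀ C K : ℕ, 0 < C → 0 < K → ∀ δ : ℝ, 0 < δ →
  ∃ (D : ℕ) (ε : ℝ), 0 < D ∧ 0 < ε ∧ ∀ᶠ X : ℕ in atTop,
    ((Eb F (X / D) (C * X)).card : ℝ) ≤ ε * X →
      (((ann F X (C * X) ×ˢ ann F X (C * X)).filter (fun x =>
        |cross x.1 x.2| ≤ K ∧ F.f x.1 ≠ F.f x.2)).card : ℝ) ≤ δ * X

/-- FEJ (from BAS, PRS). `Φ(v, v') = (1/J) |∑_{l < J} (dir v conj (dir v')) ^ (2 l)|²` is at most `J` and at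
most `q v q v' / (J a cross²)`, `J = X / (2 H)`; `∑ f f' Φ = ∑_{|l| < J} (1 - |l|/J) |S_{2l}|² ≤
|S_0|² + ε X²`; `∑ Φ ≥ (card)²`. -/
def SpecFEJ : Prop := ∀ F : Fm, F.Pd → PRIN F → ∀ C : ℕ, 0 < C → ∀ κ : ℝ, 0 < κ →
  ∃ (K : ℕ) (δ : ℝ), 0 < K ∧ 0 < δ ∧ ∀ᶠ X : ℕ in atTop,
    (((ann F X (C * X) ×ˢ ann F X (C * X)).filter (fun x =>
      |cross x.1 x.2| ≤ K ∧ F.f x.1 ≠ F.f x.2)).card : ℝ) ≤ δ * X →
    ∃ e : ℤ, (e = 1 ∨ e = -1) ∧ (((ann F X (C * X)).filter (fun v => F.f v ≠ e)).card : ℝ) ≤ κ * X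

/-- ALP (from BAS, PRS). The matrix `m = n + √(-a)`, `m v = (n v₁ - B v₁ - C v₂, n v₂ + A v₁ + B v₂)`, satisfies
`q (m v) = n₀ q v`, `n₀ = n² + a`; `w = m v / c`, `c ∣ n₀` the content, is primitive, `f w = - f v`, and
`v ↦ w` is at most `n₀` to one from `ann (n₀ X) (2 n₀ X)` to `ann X (2 n₀² X)`. -/
def SpecALP : Prop := ∀ F : Fm, F.Pd → ∀ n : ℤ, lam (n ^ 2 + F.a) = -1 →
  ∃ (C : ℕ) (c : ℝ), 0 < C ∧ 0 < c ∧ ∀ᶠ X : ℕ in atTop, ∀ e : ℤ, (e = 1 ∨ e = -1) →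
    c * X ≤ (((ann F X (C * X)).filter (fun v => F.f v ≠ e)).card : ℝ)

/-- MIN (from CLO, FEJ, ALP). Many bad edges. -/
def SpecMIN : Prop := ∀ F : Fm, F.Pd → PRIN F → (∃ n : ℤ, lam (n ^ 2 + F.a) = -1) →
  ∃ (C D : ℕ) (ε : ℝ), 0 < C ∧ 0 < D ∧ 0 < ε ∧ ∀ᶠ X : ℕ in atTop,
    ε * X ≤ ((Eb F (X / D) (C * X)).card : ℝ)

/-- DYA (from BAS, MIN). Dyadic decomposition of `Y < b < q ≤ C X` and the improper automorphism: seeds with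
the sign `-1`. -/
def SpecDYA : Prop := ∀ F : Fm, F.Pd → F.Amb →
  (∃ (C D : ℕ) (ε : ℝ), 0 < C ∧ 0 < D ∧ 0 < ε ∧ ∀ᶠ X : ℕ in atTop,
    ε * X ≤ ((Eb F (X / D) (C * X)).card : ℝ)) →
  ∃ (T : ℕ) (c : ℝ), 0 < T ∧ 0 < c ∧ ∀ᶠ N : ℕ in atTop, ∃ N' : ℕ, N ≤ T * N' ∧ N' ≤ N ∧
    c * N' ≤ (((G1 F N').filter (fun x => lam (F.b x.1 x.2 ^ 2 + F.a) = -1)).card : ℝ)

/-- TRI (from BAS). Seeds with the sign `+1` from the triangles `{x.2, x.1, x.1 + x.2}`, `x` critical with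
`q x.1 ≤ 2 b`: the product of the three signs is `1`. -/
def SpecTRI : Prop := ∀ F : Fm, F.Pd → F.Amb →
  (∃ c : ℝ, 0 < c ∧ ∀ᶠ N : ℕ in atTop,
    c * N ≤ (((G1 F N).filter (fun x => F.q x.1 ≤ 2 * F.b x.1 x.2)).card : ℝ)) →
  ∃ (T : ℕ) (c : ℝ), 0 < T ∧ 0 < c ∧ ∀ᶠ N : ℕ in atTop, ∃ N' : ℕ, N ≤ T * N' ∧ N' ≤ N ∧
    c * N' ≤ (((G1 F N').filter (fun x => lam (F.b x.1 x.2 ^ 2 + F.a) = 1)).card : ℝ)

/-- LOW. Lower bound for the number of critical pairs with `q ≤ 2 b` (port of `T4/Gam.lean`, `card_ge`). -/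
def SpecLOW : Prop := ∀ F : Fm, F.Pd → ∃ c : ℝ, 0 < c ∧ ∀ᶠ N : ℕ in atTop,
  c * N ≤ (((G1 F N).filter (fun x => F.q x.1 ≤ 2 * F.b x.1 x.2)).card : ℝ)

/-- NEG. There is `n` with `λ(n² + a) = -1` if some `x² + a y²` has the sign `-1` (the signs are constant along the
edges of the Farey graph otherwise). -/
def SpecNEG : Prop := ∀ a : ℤ, 0 < a → (∃ x y : ℤ, x ^ 2 + a * y ^ 2 ≠ 0 ∧
  lam (x ^ 2 + a * y ^ 2) = -1) → ∃ n : ℤ, lam (n ^ 2 + a) = -1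

/-- The seeds, every sign taken by `x² + a y²`: from DYA, MIN, TRI, LOW, NEG. -/
def SpecSEED : Prop := ∀ F : Fm, F.Pd → F.Amb → PRIN F →
  ∀ s : ℤ, (∃ x y : ℤ, x ^ 2 + F.a * y ^ 2 ≠ 0 ∧ lam (x ^ 2 + F.a * y ^ 2) = s) →
  ∃ (T : ℕ) (c : ℝ), 0 < T ∧ 0 < c ∧ ∀ᶠ N : ℕ in atTop, ∃ N' : ℕ, N ≤ T * N' ∧ N' ≤ N ∧
    c * N' ≤ (((G1 F N').filter (fun x => lam (F.b x.1 x.2 ^ 2 + F.a) = s)).card : ℝ)

end

end Pool.Agent.Lib.MP391708.SG
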